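import Pool.Agent.U35.SJ.Comp

set_option autoImplicit false

/-! The order function for the trace. -/

namespace Pool.Agent.U35.SJ

open Pool.Agent.Helper446 Pool.Agent.Helper446.RE

def gl (h : ℕ → ℕ) (a x : ℕ) : List ℕ :=
  (List.range x).filter fun k => decide (1 ≤ k) &&
    (List.range x).any fun m => decide (k + 1 < h m) && decide (Nat.pair a (Nat.pair k m) < x)

def gg (h : ℕ → ℕ) (a x : ℕ) : ℕ := 1 + (gl h a x).length

variable {h : ℕ → ℕ}

theorem mem_gl (a x k : ℕ) : k ∈ gl h a x ↔ k < x ∧ 1 ≤ k ∧ ∃ m < x, k + 1 < h m ∧
    Nat.pair a (Nat.pair k m) < x := by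
  unfold gl
  simp [List.mem_filter, List.any_eq_true]

theorem nodup_gl (a x : ℕ) : (gl h a x).Nodup := List.nodup_range.filter _

theorem cgg (hh : Computable h) (a : ℕ) : Computable (gg h a) := by
  unfold gg gl
  refine cadd (by fun_prop) (clength ?_)
  refine cfilter (f := fun x : ℕ => List.range x) (by fun_prop) ?_
  unfold Computable₂
  refine cand (by fun_prop) ?_
  refine cany (f := fun x : ℕ × ℕ => List.range x.1) (by fun_prop) ?_
  unfold Computable₂
  have h1 : Computable fun x : (ℕ × ℕ) × ℕ => h x.2 := hh.comp Computable.snd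
  fun_prop

theorem gg_order (ho : IsOrder h) (a : ℕ) : IsOrder (gg h a) := by
  refine ⟨cgg ho.comp a, ?_, ?_, ?_⟩
  · intro x y hxy
    unfold gg
    have : (gl h a x).length ≤ (gl h a y).length := by
      apply List.Subperm.length_le
      apply List.subperm_of_subset (nodup_gl a x)
      intro k hk
      rw [mem_gl] at hk ⊢
      obtain ⟨h1, h2, m, h3, h4, h5⟩ := hk
      exact ⟨by omega, h2, m, by omega, h4, by omega⟩
    omega
  · intro b
    choose m hm using fun k => ho.unb (k + 2)
    refine ⟨(Finset.range (b + 1)).sup (fun k => Nat.pair a (Nat.pair k (m k))) + 1, ?_⟩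
    have hle : ∀ k ≤ b, Nat.pair a (Nat.pair k (m k)) <
        (Finset.range (b + 1)).sup (fun k => Nat.pair a (Nat.pair k (m k))) + 1 := by
      intro k hk
      have := Finset.le_sup (f := fun k => Nat.pair a (Nat.pair k (m k)))
        (Finset.mem_range.2 (by omega : k < b + 1))
      omega
    generalize (Finset.range (b + 1)).sup (fun k => Nat.pair a (Nat.pair k (m k))) + 1 = x at *
    have h1 : ((List.range b).map (· + 1)).length ≤ (gl h a x).length := by
      apply List.Subperm.length_le
      apply List.subperm_of_subset
      · exact List.nodup_range.map fun _ _ h1 => by simpa using h1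
      · intro k hk
        rw [List.mem_map] at hk
        obtain ⟨k', h2, rfl⟩ := hk
        rw [List.mem_range] at h2
        have h3 := hle (k' + 1) (by omega)
        have h4 := Nat.right_le_pair a (Nat.pair (k' + 1) (m (k' + 1)))
        have h5 := Nat.left_le_pair (k' + 1) (m (k' + 1))
        have h6 := Nat.right_le_pair (k' + 1) (m (k' + 1))
        rw [mem_gl]
        exact ⟨by omega, by omega, m (k' + 1), by omega, by have := hm (k' + 1); omega, h3⟩
    rw [List.length_map, List.length_range] at h1
    unfold gg
    omega
  · unfold gg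
    omega

theorem gg_lt (ho : Monotone h) {a r m : ℕ} (hm : r + 2 ≤ h m) :
    gg h a (Nat.pair a (Nat.pair r m)) < h m := by
  have h1 : (gl h a (Nat.pair a (Nat.pair r m))).length ≤
      ((List.range (h m - 2)).map (· + 1)).length := by
    apply List.Subperm.length_le
    apply List.subperm_of_subset (nodup_gl _ _)
    intro k hk
    rw [mem_gl] at hk
    obtain ⟨h1, h2, m', h3, h4, h5⟩ := hk
    have h6 : k + 1 < h m := by
      by_contra hcon
      have h7 : m < m' := by
        by_contra h8
        have := ho (not_lt.1 h8)
        omega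
      have h8 : Nat.pair r m < Nat.pair k m := Nat.pair_lt_pair_left m (by omega)
      have h9 : Nat.pair k m < Nat.pair k m' := Nat.pair_lt_pair_right k h7
      have h10 : Nat.pair a (Nat.pair r m) < Nat.pair a (Nat.pair k m') :=
        Nat.pair_lt_pair_right a (h8.trans h9)
      omega
    rw [List.mem_map]
    exact ⟨k - 1, List.mem_range.2 (by omega), by omega⟩
  rw [List.length_map, List.length_range] at h1
  unfold gg
  omega

end Pool.Agent.U35.SJ
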