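import Pool.Agent.U35.SJ.Fun
import Pool.Agent.U35.SJ.Gord

set_option autoImplicit false

/-! The requirements are met. -/

namespace Pool.Agent.U35.SJ

open Pool.Agent.Helper446 Pool.Agent.Helper446.RE
open Nat.Partrec (Code)
open Encodable

variable {h f : ℕ → ℕ} {β : Node} {r s0 s1 : ℕ} {τ : Out}

/-- the last certification does not change any more -/
theorem Fnl.lc (F : Fnl h f β s0 s1 τ) (hp : Pers h f β r s0) {s : ℕ} (hs : s1 ≤ s) :
    (cur h f β s).1.2 = (cur h f β s1).1.2 := by
  have hle := F.le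
  induction s, hs using Nat.le_induction with
  | base => rfl
  | succ s hs ih =>
    rcases (hp.next (s := s) (by omega)).2.2.1 with ⟨h1, _⟩ | ⟨_, m, h1⟩
    · rw [h1, ih]
    · exact absurd h1 (F.ce s hs m)

/-- in the case without overflow the last module does not change any more -/
theorem Fnl.const (F : Fnl h f β s0 s1 τ) (hp : Pers h f β r s0)
    (ha : ∀ s ≥ s1, (PP h f β s τ.length).2.1.1 = true) {s : ℕ} (hs : s1 ≤ s) :
    MM h f β s τ.length = MM h f β s1 τ.length := by
  have hle := F.le
  induction s, hs using Nat.le_induction with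
  | base => rfl
  | succ s hs ih =>
    have h0 := ha s hs
    unfold PP at h0
    obtain ⟨e, _, g3, _⟩ := rst_act h0
    rcases (hp.next (s := s) (by omega)).2.2.2 τ.length with e1 | ⟨y, u, _, e0, e1⟩ | ⟨hc, _, _⟩
    · rw [e1, e, ih]
    · rw [e, g3] at e0; exact absurd e0.symm Bool.false_ne_true
    · exact absurd hc (F.ce s hs _)

/-- in the case without overflow the value is a value of the functional -/
theorem Fnl.rel (F : Fnl h f β s0 s1 τ) (hp : Pers h f β r s0)
    (ha : ∀ s ≥ s1, (PP h f β s τ.length).2.1.1 = true) :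
    ∃ k, Rel h f β.length (Nat.pair r τ.length, ini (XX h f β.length) k)
      (MM h f β s1 τ.length).1 := by
  have hle := F.le
  obtain ⟨N, hN⟩ := lim_sd (h := h) (f := f) β.length
    ((MM h f β s1 τ.length).2.2.2.2 + 1)
  have hs : s1 ≤ max s1 N := le_max_left _ _
  have hs' : s0 ≤ max s1 N := by omega
  have hc := F.const hp ha hs
  have hbd := hp _ hs'
  unfold MM at hc ⊢
  refine ⟨(mg (cur h f β s1).2 τ.length).2.2.2.2 + 1, max s1 N, β, cur h f β (max s1 N),
    hbd.1, rfl, ?_, ?_, ?_, ?_, ?_⟩
  · rw [hbd.2, Nat.unpair_pair]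
  · rw [Nat.unpair_pair]
    simp only
    have h0 := ha _ hs
    unfold PP MM at h0
    exact (rst_act h0).2.2.1
  · rw [Nat.unpair_pair]
    simp only
    rw [hc]
  · rw [Nat.unpair_pair]
    simp only
    rw [hc, ini_length]
    omega
  · rw [Nat.unpair_pair]
    simp only
    rw [hc, ini_take, min_self]
    exact (cs_ini (hN _ (by omega))).symm

theorem req_core (hord : IsOrder h) (hf : Computable f) (hinj : Function.Injective f)
    (hE : NoTr h (Set.range f)) (q : ℕ) (hq : q < 2) :
    ¬ SJT (XX h f q) (XX h f (q + 1)) := by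
  intro hsjt
  obtain ⟨c, hc⟩ := exists_fun hord.comp hf q
  obtain ⟨T, ⟨R, hR1, hR2⟩, hT2, hT3⟩ := hsjt (gg h (encode c)) (gg_order hord _)
  obtain ⟨e, he⟩ := wst_univ hR1
  obtain ⟨β, r, s0, hlen, hp, hv⟩ := path hord hf hinj hE (2 * Nat.pair e (encode c) + q)
  obtain ⟨τ, s1, F⟩ := hp.exists_fnl hv hord hf hinj hE
  have hle := F.le
  have hdiv : β.length / 2 = Nat.pair e (encode c) := by omega
  have hmod : β.length % 2 = q % 2 := by omega
  have hmod' : (β.length + 1) % 2 = (q + 1) % 2 := by omega
  have hbox : box β.length r τ.length = Nat.pair (encode c) (Nat.pair r τ.length) := by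
    unfold box
    rw [hdiv, Nat.unpair_pair]
  have hkq : ¬ skp h r τ.length := by
    have := (F.st s1 le_rfl).1
    rwa [hp.rank (by omega)] at this
  have hgg : gg h (encode c) (Nat.pair (encode c) (Nat.pair r τ.length)) < h τ.length := by
    refine gg_lt hord.mono ?_
    unfold skp at hkq
    omega
  by_cases hov : ∃ s ≥ s1, h τ.length ≤ (PP h f β s τ.length).1
  · -- overflow
    obtain ⟨s2, hs2, hov⟩ := hov
    obtain ⟨N, hN⟩ := lim_sd (h := h) (f := f) (β.length + 1) ((cur h f β s1).1.2 + 1)
    have hs3 : s0 ≤ max (s2 + 1) N := by omega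
    have hbd := hp _ hs3
    have hix : h τ.length ≤ (MM h f β (max (s2 + 1) N) τ.length).1 := by
      have e1 := (hp.ix_mono (s := s2) (by omega) τ.length).2
      have e2 := hp.ix_mono' (s := s2 + 1) (t := max (s2 + 1) N) (by omega) (by omega) τ.length
      omega
    have hsub : Set.Iio (h τ.length) ⊆ T (Nat.pair (encode c) (Nat.pair r τ.length)) := by
      intro i hi
      rw [Set.mem_Iio] at hi
      obtain ⟨k, hk, t, ht⟩ := (inv (h := h) (f := f) (max (s2 + 1) N)).tr β _ τ.length i hbd.1
        (Or.inl (by unfold MM at hix; omega))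
      rw [hR2]
      refine ⟨k, (he _).2 ⟨t, ?_⟩⟩
      rw [F.lc hp (by omega)] at hk
      rw [hbd.2, hdiv, Nat.unpair_pair, hbox] at ht
      have h1 : cs (sd h f (β.length + 1) (max (s2 + 1) N)) k = ini (XX h f (q + 1)) k := by
        rw [← XX_mod hmod']
        exact cs_ini fun x hx => hN _ (by omega) x (by omega)
      rw [h1] at ht
      exact ht
    obtain ⟨hfin, hcard⟩ := hT2 (Nat.pair (encode c) (Nat.pair r τ.length))
    have h1 := Set.ncard_le_ncard hsub hfin
    rw [Set.ncard_Iio_nat] at h1
    omega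
  · -- the functional has a value which is not in the trace
    push Not at hov
    have hac : ∀ s ≥ s1, (PP h f β s τ.length).1 < h τ.length ∧
        (PP h f β s τ.length).2.1.1 = true ∧ (PP h f β s τ.length).2.1.2 = false := by
      intro s hs
      have h1 := (F.st s hs).2
      rw [mg_pb] at h1
      rcases h1 with h1 | h1
      · have := hov s hs
        omega
      · exact h1
    obtain ⟨k, hrel⟩ := F.rel hp fun s hs => (hac s hs).2.1
    have hX : XX h f β.length = XX h f q := XX_mod hmod
    rw [hX] at hrel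
    have hrel' : Rel h f q (Nat.pair r τ.length, ini (XX h f q) k)
        (MM h f β s1 τ.length).1 := by
      obtain ⟨s, β', b, a1, a2, a3, a4, a5, a6, a7⟩ := hrel
      refine ⟨s, β', b, a1, by omega, a3, a4, a5, a6, ?_⟩
      rw [a7, sd_mod hmod]
    have hJ := hc _ _ _ hrel'
    have hmem := hT3 _ _ hJ
    rw [hR2] at hmem
    obtain ⟨k', hk'⟩ := hmem
    obtain ⟨t, ht⟩ := (he _).1 hk'
    obtain ⟨N, hN⟩ := lim_sd (h := h) (f := f) (β.length + 1) k'
    obtain ⟨t', ht', hts⟩ := TS_inf hinj (max (max s1 t) (max k' N))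
    have t1 : s1 ≤ t' := by omega
    have t2 : s0 ≤ t' := by omega
    obtain ⟨b1, b2, b3⟩ := hac t' t1
    have hb : bits h (sε h f t' β (pb h f β t')) τ := bits_of (F.bt t' t1 hts)
    have hlb := F.lβ
    have hlt := F.lτ
    refine F.ce t' t1 _ (hp.cer_of t2 (hv t' t2 hts) (by omega) (by omega) hb ?_)
    refine ⟨?_, ?_, ?_, ?_, ?_⟩
    · show ¬ skp h (pb h f β t').1.1 τ.length
      rw [hp.rank t2]; exact hkq
    · show (mg (pb h f β t').2 τ.length).1 < h τ.length
      rw [mg_pb]; exact b1
    · show (mg (pb h f β t').2 τ.length).2.1.1 = true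
      rw [mg_pb]; exact b2
    · show (mg (pb h f β t').2 τ.length).2.1.2 = false
      rw [mg_pb]; exact b3
    · show tvb (β.length / 2).unpair.1 t' (box β.length (pb h f β t').1.1 τ.length)
        (mg (pb h f β t').2 τ.length).1 (cs (sd h f (β.length + 1) (t' + 1)) t') = true
      rw [hp.rank t2, mg_pb, hdiv, Nat.unpair_pair, hbox]
      unfold tvb
      rw [exB_iff]
      refine ⟨k', by omega, ?_⟩
      have h1 : (cs (sd h f (β.length + 1) (t' + 1)) t').take k' = ini (XX h f (q + 1)) k' := by
        rw [cs_take, min_eq_left (by omega), ← XX_mod hmod']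
        exact cs_ini fun x hx => hN _ (by omega) x hx
      have h2 : (PP h f β t' τ.length).1 = (MM h f β s1 τ.length).1 := by
        unfold PP at b2 ⊢
        rw [(rst_act b2).1, F.const hp (fun s hs => (hac s hs).2.1) t1]
      rw [h1, h2]
      exact wst_mono (by omega) ht

end Pool.Agent.U35.SJ
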