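import Pool.Agent.U35.SJ.Univ
import Pool.Agent.U35.SJ.Req

set_option autoImplicit false

/-! The theorem for the function `J` of the file with the definitions. -/

namespace Pool.Agent.U35.SJ

open Pool.Agent.Helper446 Pool.Agent.Helper446.RE Pool.Agent.Helper446.Defs

theorem main_thm (E : Set ℕ) (hE : REPred fun x => x ∈ E) (hn : ¬ SJT E ∅) :
    ∃ A B : Set ℕ, REPred (fun x => x ∈ A) ∧ REPred (fun x => x ∈ B) ∧
      TuringReducible (chi A) (chi E) ∧ TuringReducible (chi B) (chi E) ∧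
      ¬ SJT A B ∧ ¬ SJT B A := by
  have hinf : E.Infinite := fun hfin => hn (sjt_of_finite hfin)
  obtain ⟨f, hf, hinj, rfl⟩ := inj_enum hE hinf
  unfold SJT at hn
  push Not at hn
  obtain ⟨h, ho, hh⟩ := hn
  have hNo : NoTr h (Set.range f) := by
    rintro ⟨T, h1, h2, h3⟩
    obtain ⟨n, v, h4, h5⟩ := hh T h1 h2
    exact h5 (h3 n v h4)
  refine ⟨XX h f 0, XX h f 1, re_XX ho.comp hf 0, re_XX ho.comp hf 1,
    tred_XX ho.comp hf hinj 0, tred_XX ho.comp hf hinj 1, req_core ho hf hinj hNo 0 (by omega), ?_⟩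
  have h1 := req_core ho hf hinj hNo 1 (by omega)
  have h2 : XX h f (1 + 1) = XX h f 0 := XX_mod rfl
  rwa [h2] at h1

end Pool.Agent.U35.SJ
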