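import Pool.Agent.U35.SJ.Mach

set_option autoImplicit false

/-! The construction is computable. -/

namespace Pool.Agent.U35.SJ

open Encodable Pool.Agent.Helper446.RE
open Nat.Partrec (Code)

section gen
variable {α β γ : Type*} [Primcodable α] [Primcodable β] [Primcodable γ]

@[fun_prop] theorem clt {f g : α → ℕ} (hf : Computable f) (hg : Computable g) :
    Computable fun x => decide (f x < g x) := cdecide (cp_lt hf hg)

@[fun_prop] theorem cle {f g : α → ℕ} (hf : Computable f) (hg : Computable g) :
    Computable fun x => decide (f x ≤ g x) := cdecide (cp_le hf hg)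

@[fun_prop] theorem ceq [DecidableEq β] {f g : α → β} (hf : Computable f) (hg : Computable g) :
    Computable fun x => decide (f x = g x) := by
  have := (cp_eq hf hg).decide
  exact this.of_eq fun x => by congr

@[fun_prop] theorem cmod {f : α → ℕ} (k : ℕ) (hf : Computable f) :
    Computable fun x => f x % k :=
  Primrec.nat_mod.to_comp.comp hf (Computable.const k)

@[fun_prop] theorem cdiv {f : α → ℕ} (k : ℕ) (hf : Computable f) :
    Computable fun x => f x / k :=
  Primrec.nat_div.to_comp.comp hf (Computable.const k)

@[fun_prop] theorem cgetD {f : α → List β} {g : α → ℕ} (d : β) (hf : Computable f)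
    (hg : Computable g) : Computable fun x => (f x).getD (g x) d :=
  (Primrec.list_getD d).to_comp.comp hf hg

@[fun_prop] theorem coptGetD {f : α → Option β} (d : β) (hf : Computable f) :
    Computable fun x => (f x).getD d :=
  Primrec.option_getD.to_comp.comp hf (Computable.const d)

@[fun_prop] theorem crange {f : α → ℕ} (hf : Computable f) :
    Computable fun x => List.range (f x) := Primrec.list_range.to_comp.comp hf

@[fun_prop] theorem ctake {f : α → ℕ} {g : α → List β} (hf : Computable f) (hg : Computable g) :
    Computable fun x => (g x).take (f x) := Primrec.list_take.to_comp.comp hf hg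

theorem celim {o : α → Option β} {f : α → γ} {g : α → β → γ} (ho : Computable o)
    (hf : Computable f) (hg : Computable₂ g) : Computable fun x => (o x).elim (f x) (g x) := by
  refine (Computable.option_casesOn ho hf hg).of_eq fun x => ?_
  cases o x <;> rfl

theorem cmap {f : α → List β} {g : α → β → γ} (hf : Computable f) (hg : Computable₂ g) :
    Computable fun a => (f a).map (g a) := by
  have h1 : Computable₂ fun (a : α) (x : List γ × β) => x.1 ++ [g a x.2] := by
    unfold Computable₂
    have : Computable fun x : α × (List γ × β) => g x.1 x.2.2 :=
      hg.comp Computable.fst (Computable.snd.comp Computable.snd)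
    exact cappend (f := fun x : α × (List γ × β) => x.2.1) (by fun_prop)
      (ccons this (cconst []))
  refine (list_foldl hf (Computable.const ([] : List γ)) h1).of_eq fun a => ?_
  have : ∀ (l : List β) (acc : List γ),
      l.foldl (fun s b => s ++ [g a b]) acc = acc ++ l.map (g a) := by
    intro l
    induction l with
    | nil => simp
    | cons b l ih => intro acc; simp [ih]
  simpa using this (f a) []

theorem cfilter {f : α → List β} {p : α → β → Bool} (hf : Computable f) (hp : Computable₂ p) :
    Computable fun a => (f a).filter (p a) := by
  have h1 : Computable₂ fun (a : α) (x : List β × β) => x.1 ++ bif p a x.2 then [x.2] else [] := by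
    unfold Computable₂
    have : Computable fun x : α × (List β × β) => p x.1 x.2.2 :=
      hp.comp Computable.fst (Computable.snd.comp Computable.snd)
    exact cappend (f := fun x : α × (List β × β) => x.2.1) (by fun_prop)
      (ccond this (by fun_prop) (cconst []))
  refine (list_foldl hf (Computable.const ([] : List β)) h1).of_eq fun a => ?_
  have : ∀ (l : List β) (acc : List β),
      l.foldl (fun s b => s ++ bif p a b then [b] else []) acc = acc ++ l.filter (p a) := by
    intro l
    induction l with
    | nil => simp
    | cons b l ih =>
      intro acc
      rw [List.foldl_cons, ih, List.filter_cons]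
      cases p a b <;> simp
  simpa using this (f a) []

theorem cflatMap {f : α → List β} {g : α → β → List γ} (hf : Computable f)
    (hg : Computable₂ g) : Computable fun a => (f a).flatMap (g a) := by
  have h1 : Computable₂ fun (a : α) (x : List γ × β) => x.1 ++ g a x.2 := by
    unfold Computable₂
    have : Computable fun x : α × (List γ × β) => g x.1 x.2.2 :=
      hg.comp Computable.fst (Computable.snd.comp Computable.snd)
    exact cappend (f := fun x : α × (List γ × β) => x.2.1) (by fun_prop) this
  refine (list_foldl hf (Computable.const ([] : List γ)) h1).of_eq fun a => ?_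
  have : ∀ (l : List β) (acc : List γ),
      l.foldl (fun s b => s ++ g a b) acc = acc ++ l.flatMap (g a) := by
    intro l
    induction l with
    | nil => simp
    | cons b l ih => intro acc; simp [ih]
  simpa using this (f a) []

theorem cany {f : α → List β} {p : α → β → Bool} (hf : Computable f) (hp : Computable₂ p) :
    Computable fun a => (f a).any (p a) := by
  have h1 : Computable₂ fun (a : α) (x : Bool × β) => x.1 || p a x.2 := by
    unfold Computable₂
    have : Computable fun x : α × (Bool × β) => p x.1 x.2.2 :=
      hp.comp Computable.fst (Computable.snd.comp Computable.snd)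
    exact cor (f := fun x : α × (Bool × β) => x.2.1) (by fun_prop) this
  refine (list_foldl hf (Computable.const false) h1).of_eq fun a => ?_
  have : ∀ (l : List β) (acc : Bool),
      l.foldl (fun s b => s || p a b) acc = (acc || l.any (p a)) := by
    intro l
    induction l with
    | nil => simp
    | cons b l ih => intro acc; rw [List.foldl_cons, ih, List.any_cons, Bool.or_assoc]
  simpa using this (f a) false

theorem cfindIdx {f : α → List β} {p : α → β → Bool} (hf : Computable f) (hp : Computable₂ p) :
    Computable fun a => (f a).findIdx (p a) := by
  have h1 : Computable₂ fun (a : α) (x : (Bool × ℕ) × β) =>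
      bif x.1.1 then x.1 else bif p a x.2 then (true, x.1.2) else (false, x.1.2 + 1) := by
    unfold Computable₂
    have : Computable fun x : α × ((Bool × ℕ) × β) => p x.1 x.2.2 :=
      hp.comp Computable.fst (Computable.snd.comp Computable.snd)
    exact ccond (c := fun x : α × ((Bool × ℕ) × β) => x.2.1.1)
      (f := fun x : α × ((Bool × ℕ) × β) => x.2.1) (by fun_prop) (by fun_prop)
      (ccond this (by fun_prop) (by fun_prop))
  refine (Computable.snd.comp
    (list_foldl hf (Computable.const ((false, 0) : Bool × ℕ)) h1)).of_eq fun a => ?_
  have h2 : ∀ (l : List β) (n : ℕ),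
      (l.foldl (fun (s : Bool × ℕ) b => bif s.1 then s else bif p a b then (true, s.2)
        else (false, s.2 + 1)) (true, n)) = (true, n) := by
    intro l
    induction l with
    | nil => simp
    | cons b l ih => intro n; rw [List.foldl_cons]; exact ih n
  have : ∀ (l : List β) (n : ℕ),
      (l.foldl (fun (s : Bool × ℕ) b => bif s.1 then s else bif p a b then (true, s.2)
        else (false, s.2 + 1)) (false, n)).2 = n + l.findIdx (p a) := by
    intro l
    induction l with
    | nil => simp
    | cons b l ih =>
      intro n
      rw [List.foldl_cons, List.findIdx_cons]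
      cases hb : p a b with
      | true => simp only [cond_false, cond_true]; rw [h2]; simp
      | false => simp only [cond_false]; rw [ih]; omega
  simpa using this (f a) 0

end gen

section mach
variable {α : Type*} [Primcodable α]

theorem cjst' : Computable fun p : ℕ × (ℕ × List Bool) => jst p.1 p.2.1 p.2.2 := by
  have h1 : Computable fun x : (ℕ × Code) × ℕ => Code.evaln x.1.1 x.1.2 x.2 :=
    Code.primrec_evaln.to_comp
  have h2 : Computable fun p : ℕ × (ℕ × List Bool) => Denumerable.ofNat Code p.1.unpair.1 :=
    (Computable.ofNat Code).comp (by fun_prop)
  exact h1.comp (((by fun_prop : Computable fun p : ℕ × (ℕ × List Bool) =>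
    p.2.1.unpair.2).pair h2).pair (by fun_prop))

@[fun_prop] theorem cjst {f g : α → ℕ} {k : α → List Bool} (hf : Computable f)
    (hg : Computable g) (hk : Computable k) : Computable fun x => jst (f x) (g x) (k x) :=
  cjst'.comp (hf.pair (hg.pair hk))

@[fun_prop] theorem cju {f : α → ℕ} {k : α → List Bool} (hf : Computable f)
    (hk : Computable k) : Computable fun x => ju (f x) (k x) := by
  unfold ju
  refine cfindIdx (by fun_prop) ?_
  unfold Computable₂
  fun_prop

@[fun_prop] theorem cjy {f : α → ℕ} {k : α → List Bool} (hf : Computable f)
    (hk : Computable k) : Computable fun x => jy (f x) (k x) := by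
  unfold jy
  fun_prop

@[fun_prop] theorem cwst {f g : α → ℕ} {k : α → ℕ × ℕ × List Bool} (hf : Computable f)
    (hg : Computable g) (hk : Computable k) :
    Computable fun x => wst (ℕ × ℕ × List Bool) (f x) (g x) (k x) :=
  wst_comp.comp (f := fun p : (ℕ × ℕ) × (ℕ × ℕ × List Bool) => wst _ p.1.1 p.1.2 p.2)
    ((hf.pair hg).pair hk)

@[fun_prop] theorem ctvb {e s n i : α → ℕ} {k : α → List Bool} (he : Computable e)
    (hs : Computable s) (hn : Computable n) (hi : Computable i) (hk : Computable k) :
    Computable fun x => tvb (e x) (s x) (n x) (i x) (k x) := by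
  unfold tvb
  refine computable_exB (q := fun x k' => wst (ℕ × ℕ × List Bool) (e x) (s x)
    (n x, (i x, (k x).take k'))) ?_ (by fun_prop)
  unfold Computable₂
  fun_prop

@[fun_prop] theorem ccpl {β : Type} [Primcodable β] [DecidableEq β] {f g : α → List β}
    (hf : Computable f) (hg : Computable g) : Computable fun x => cpl (f x) (g x) := by
  unfold cpl
  refine cfindIdx (by fun_prop) ?_
  unfold Computable₂
  fun_prop

@[fun_prop] theorem cdgt {f : α → Option Bool} (hf : Computable f) :
    Computable fun x => dgt (f x) :=
  (Primrec.dom_finite dgt).to_comp.comp hf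

@[fun_prop] theorem colt {f g : α → Out} (hf : Computable f) (hg : Computable g) :
    Computable fun x => olt (f x) (g x) := by
  unfold olt
  fun_prop

@[fun_prop] theorem churt {f g : α → Node} {m : α → ℕ} (hf : Computable f) (hm : Computable m)
    (hg : Computable g) : Computable fun x => hurt (f x) (m x) (g x) := by
  unfold hurt
  refine celim (by fun_prop) (by fun_prop) ?_
  unfold Computable₂
  refine celim (by fun_prop) (by fun_prop) ?_
  unfold Computable₂
  fun_prop

@[fun_prop] theorem clow {f g : α → Node} (hf : Computable f)
    (hg : Computable g) : Computable fun x => low (f x) (g x) := by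
  unfold low
  refine celim (by fun_prop) (by fun_prop) ?_
  unfold Computable₂
  refine celim (by fun_prop) (by fun_prop) ?_
  unfold Computable₂
  fun_prop

@[fun_prop] theorem clook {f : α → List Rec} {g : α → Node} (hf : Computable f)
    (hg : Computable g) : Computable fun x => look (f x) (g x) := by
  unfold look
  have h1 : Computable fun x => (f x).findIdx fun ρ => decide (ρ.1 = g x) := by
    refine cfindIdx hf ?_
    unfold Computable₂
    fun_prop
  have h2 : Computable fun x => (f x)[(f x).findIdx fun ρ => decide (ρ.1 = g x)]? := by fun_prop
  refine Computable.option_map h2 ?_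
  unfold Computable₂
  fun_prop

@[fun_prop] theorem cmg {f : α → List Mod} {g : α → ℕ} (hf : Computable f)
    (hg : Computable g) : Computable fun x => mg (f x) (g x) := by
  unfold mg
  fun_prop

@[fun_prop] theorem cms {f : α → List Mod} {g : α → ℕ} {k : α → Mod} (hf : Computable f)
    (hg : Computable g) (hk : Computable k) : Computable fun x => ms (f x) (g x) (k x) := by
  unfold ms
  refine cmap (by fun_prop) ?_
  unfold Computable₂
  fun_prop

@[fun_prop] theorem cbox {f g k : α → ℕ} (hf : Computable f) (hg : Computable g)
    (hk : Computable k) : Computable fun x => box (f x) (g x) (k x) := by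
  unfold box
  fun_prop

variable {h : ℕ → ℕ}

theorem csstep (hh : Computable h) {f : α → SE} {g : α → SR} (hf : Computable f)
    (hg : Computable g) : Computable fun x => sstep h (f x) (g x) := by
  unfold sstep
  fun_prop

theorem cscn (hh : Computable h) {f : α → SE} {g : α → ℕ} (hf : Computable f)
    (hg : Computable g) : Computable fun x => scn h (f x) (g x) := by
  unfold scn
  refine Computable.nat_rec (h := fun x (z : ℕ × SR) => sstep h (f x) z.2) hg
    (Computable.const _) ?_
  unfold Computable₂
  exact csstep hh (by fun_prop) (by fun_prop)

theorem csc (hh : Computable h) {f : α → WE} {g : α → Node} {k : α → Body} (hf : Computable f)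
    (hg : Computable g) (hk : Computable k) : Computable fun x => sc h (f x) (g x) (k x) := by
  unfold sc
  exact cscn hh (by fun_prop) (by fun_prop)

theorem cwb (hh : Computable h) {f : α → WE} {g : α → Node} {k : α → Body} (hf : Computable f)
    (hg : Computable g) (hk : Computable k) : Computable fun x => wb h (f x) (g x) (k x) := by
  unfold wb
  have := csc hh hf hg hk
  fun_prop

theorem cwstep (hh : Computable h) {f : α → WE} {g : α → WS} (hf : Computable f)
    (hg : Computable g) : Computable fun x => wstep h (f x) (g x) := by
  unfold wstep
  refine ccond (by fun_prop) (celim (by fun_prop) (by fun_prop) ?_) (by fun_prop)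
  unfold Computable₂
  exact cwb hh (by fun_prop) (by fun_prop) (by fun_prop)

theorem cwk (hh : Computable h) {f : α → WE} {g : α → ℕ} (hf : Computable f)
    (hg : Computable g) : Computable fun x => wk h (f x) (g x) := by
  unfold wk
  refine Computable.nat_rec (h := fun x (z : ℕ × WS) => wstep h (f x) z.2) hg
    (Computable.const _) ?_
  unfold Computable₂
  exact cwstep hh (by fun_prop) (by fun_prop)

@[fun_prop] theorem chit {f : α → ℕ} {g : α → Mod} (hf : Computable f) (hg : Computable g) :
    Computable fun x => hit (f x) (g x) := by
  unfold hit
  fun_prop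

@[fun_prop] theorem crst {f : α → ℕ} {g : α → Mod} (hf : Computable f) (hg : Computable g) :
    Computable fun x => rst (f x) (g x) := by
  unfold rst
  fun_prop

@[fun_prop] theorem cisHurt {f : α → ℕ} {g : α → List Rec} {k : α → Node} (hf : Computable f)
    (hg : Computable g) (hk : Computable k) : Computable fun x => isHurt (f x) (g x) (k x) := by
  unfold isHurt
  refine cany hg ?_
  unfold Computable₂
  refine cany (by fun_prop) ?_
  unfold Computable₂
  fun_prop

@[fun_prop] theorem cphase1 {f : α → ℕ} {g : α → List Rec} (hf : Computable f)
    (hg : Computable g) : Computable fun x => phase1 (f x) (g x) := by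
  unfold phase1
  refine cmap (cfilter hg ?_) ?_
  · unfold Computable₂
    fun_prop
  · unfold Computable₂
    have : Computable fun x : α × Rec => x.2.2.2.map (rst (f x.1)) := by
      refine cmap (g := fun (x : α × Rec) md => rst (f x.1) md) (by fun_prop) ?_
      unfold Computable₂
      fun_prop
    fun_prop

@[fun_prop] theorem cmks (q : ℕ) {f : α → ℕ} {g : α → List Rec} (hf : Computable f)
    (hg : Computable g) : Computable fun x => mks q (f x) (g x) := by
  unfold mks
  refine cflatMap hg ?_
  unfold Computable₂
  have : Computable fun x : α × Rec => (x.2.2.2.filter (hit (f x.1))).map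
      (fun y => y.2.2.2.2) := by
    refine cmap (g := fun (_ : α × Rec) (y : Mod) => y.2.2.2.2) (cfilter
      (p := fun (x : α × Rec) md => hit (f x.1) md) (by fun_prop) ?_) ?_
    · unfold Computable₂
      fun_prop
    · unfold Computable₂
      fun_prop
  fun_prop

@[fun_prop] theorem cactS {f : α → ℕ} {g : α → WS} {k : α → Rec} (hf : Computable f)
    (hg : Computable g) (hk : Computable k) : Computable fun x => actS (f x) (g x) (k x) := by
  unfold actS
  fun_prop

@[fun_prop] theorem cactC {f : α → ℕ} {g : α → WS} {k : α → Rec} (hf : Computable f)
    (hg : Computable g) (hk : Computable k) : Computable fun x => actC (f x) (g x) (k x) := by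
  unfold actC
  fun_prop

@[fun_prop] theorem cphase2 {f : α → ℕ} {g : α → WS} {k : α → List Rec} (hf : Computable f)
    (hg : Computable g) (hk : Computable k) : Computable fun x => phase2 (f x) (g x) (k x) := by
  unfold phase2
  have h1 : Computable fun x => (k x).map (actS (f x) (g x)) := by
    refine cmap (g := fun x ρ => actS (f x) (g x) ρ) hk ?_
    unfold Computable₂
    fun_prop
  have h2 : Computable fun x => ((k x).filter fun ρ => !(low (g x).1 ρ.1)).map
      (actC (f x) (g x)) := by
    refine cmap (g := fun x ρ => actC (f x) (g x) ρ) (cfilter hk ?_) ?_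
    · unfold Computable₂
      fun_prop
    · unfold Computable₂
      fun_prop
  fun_prop

@[fun_prop] theorem ccs {f : α → List ℕ} {g : α → ℕ} (hf : Computable f)
    (hg : Computable g) : Computable fun x => cs (f x) (g x) := by
  unfold cs
  refine cmap (g := fun x (y : ℕ) => decide (y ∈ f x)) (by fun_prop) ?_
  unfold Computable₂
  have := (cp_mem (f := fun x : α × ℕ => x.2) (l := fun x => f x.1) (by fun_prop)
    (by fun_prop)).decide
  exact this.of_eq fun x => by congr

theorem cenv {f g : α → ℕ} {l : α → List ℕ} {k : α → ST} (hf : Computable f)
    (hg : Computable g) (hl : Computable l) (hk : Computable k) :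
    Computable fun x => env (f x) (g x) (l x) (k x) := by
  unfold env
  fun_prop

theorem cstep (hh : Computable h) {f g : α → ℕ} {l : α → List ℕ} {k : α → ST}
    (hf : Computable f) (hg : Computable g) (hl : Computable l) (hk : Computable k) :
    Computable fun x => step h (f x) (g x) (l x) (k x) := by
  unfold step
  have h1 := cwk hh (cenv hf hg hl hk) (g := fun x => g x + 1) (by fun_prop)
  fun_prop

theorem cstt (hh : Computable h) {f : ℕ → ℕ} (hf : Computable f) {g : α → ℕ}
    (hg : Computable g) : Computable fun x => stt h f (g x) := by
  unfold stt
  refine Computable.nat_rec (h := fun _ (z : ℕ × ST) =>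
    step h (f z.1) z.1 ((List.range (z.1 + 1)).map f) z.2) hg (Computable.const _) ?_
  unfold Computable₂
  have h1 : Computable fun z : α × (ℕ × ST) => (List.range (z.2.1 + 1)).map f := by
    refine cmap (g := fun _ y => f y) (by fun_prop) ?_
    unfold Computable₂
    fun_prop
  exact cstep hh (by fun_prop) (by fun_prop) h1 (by fun_prop)

end mach

end Pool.Agent.U35.SJ
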