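import Pool.Agent.Helper446.Defs

set_option autoImplicit false

/-!
Definitions for the theorem on sets that are incomparable for strong jump-traceability reducibility.
-/

namespace Pool.Agent.U35.SJ

open Nat.Partrec (Code)
open Nat.Partrec.Code (evaln)
open Encodable

/-- The initial segment of length `n` of the characteristic sequence of the set `X`. -/
noncomputable def ini (X : Set ℕ) (n : ℕ) : List Bool := by
  classical exact (List.range n).map fun x => decide (x ∈ X)

/-- The attempt number `s = ⟨k, t⟩` to find the value of `J(m)`, `m = ⟨c, n⟩`: the program `c` is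
run for `t` steps on the input `(n, σ ↾ k)`. -/
def jst (m s : ℕ) (σ : List Bool) : Option ℕ :=
  evaln s.unpair.2 (Denumerable.ofNat Code m.unpair.1) (encode (m.unpair.2, σ.take s.unpair.1))

/-- `J^X(m) = v`, for the universal `X`-partial computable function `J^X`: for `m = ⟨c, n⟩` the
value `v` is the output of the first halting computation of the program `c` on an input `(n, σ)`
with an initial segment `σ` of `X` (the pairs (length of `σ`, number of steps) are tried one after
the other). -/
def Jmp (X : Set ℕ) (m v : ℕ) : Prop :=
  ∃ s, jst m s (ini X s) = some v ∧ ∀ s' < s, jst m s' (ini X s') = none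

/-- `(T n)` is a uniformly `X`-c.e. sequence of sets. -/
def UCE (X : Set ℕ) (T : ℕ → Set ℕ) : Prop :=
  ∃ R : ℕ × ℕ × List Bool → Prop, REPred R ∧ ∀ n v, v ∈ T n ↔ ∃ k, R (n, v, ini X k)

/-- order functions -/
structure IsOrder (h : ℕ → ℕ) : Prop where
  comp : Computable h
  mono : Monotone h
  unb : ∀ b, ∃ n, b ≤ h n
  pos : 0 < h 0

/-- `A ≤_SJT B`: for every order function `h` there is a uniformly `B`-c.e. sequence of finite sets
`T n` with at most `h n` elements such that `J^A(n) ∈ T n` for all `n` with `J^A(n)` defined. -/
def SJT (A B : Set ℕ) : Prop :=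
  ∀ h, IsOrder h → ∃ T : ℕ → Set ℕ, UCE B T ∧ (∀ n, (T n).Finite ∧ (T n).ncard ≤ h n) ∧
    ∀ n v, Jmp A n v → v ∈ T n

end Pool.Agent.U35.SJ
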