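import Pool.Agent.U35.SJ.Fun

set_option autoImplicit false

/-! Enumerations, finite sets, Turing reducibility of the constructed sets. -/

namespace Pool.Agent.U35.SJ

open Pool.Agent.Helper446 Pool.Agent.Helper446.RE Pool.Agent.Helper446.Defs
open Encodable

/-- an infinite recursively enumerable set has an injective computable enumeration -/
theorem inj_enum {E : Set ℕ} (hE : REPred fun x => x ∈ E) (hinf : E.Infinite) :
    ∃ f : ℕ → ℕ, Computable f ∧ Function.Injective f ∧ Set.range f = E := by
  obtain ⟨a0, ha0⟩ := hinf.nonempty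
  obtain ⟨g, hg, hg2⟩ := exists_enum hE ha0
  let fb : ℕ → Bool := fun k => !(exB (fun j => decide (g j = g k)) k)
  have hfb : ∀ k, fb k = true ↔ ∀ j < k, g j ≠ g k := by
    intro k
    simp only [fb, Bool.not_eq_true']
    rw [← Bool.not_eq_true, exB_iff]
    simp
  have hcfb : Computable fb := by
    refine cnot (computable_exB (q := fun k j => decide (g j = g k)) ?_ Computable.id)
    unfold Computable₂
    exact ceq (hg.comp Computable.snd) (hg.comp Computable.fst)
  let p : ℕ → Prop := fun k => fb k = true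
  have : DecidablePred p := fun k => inferInstanceAs (Decidable (fb k = true))
  have hsurj : ∀ x ∈ E, ∃ k, p k ∧ g k = x := by
    intro x hx
    classical
    have hex : ∃ n, g n = x := (hg2 x).1 hx
    refine ⟨Nat.find hex, (hfb _).2 fun j hj => ?_, Nat.find_spec hex⟩
    rw [Nat.find_spec hex]
    exact Nat.find_min hex hj
  have hinjp : ∀ j k, p j → p k → g j = g k → j = k := by
    intro j k hj hk he
    rcases Nat.lt_trichotomy j k with h1 | h1 | h1
    · exact absurd he ((hfb k).1 hk j h1)
    · exact h1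
    · exact absurd he.symm ((hfb j).1 hj k h1)
  have hpinf : (Set.ofPred p).Infinite := by
    intro hfin
    apply hinf
    apply (hfin.image g).subset
    intro x hx
    obtain ⟨k, hk1, hk2⟩ := hsurj x hx
    exact ⟨k, hk1, hk2⟩
  have hcount : Computable fun k => Nat.count p k := by
    have h1 : Computable fun k : ℕ => (Nat.rec (motive := fun _ => ℕ) 0
        (fun j c => c + bif fb j then 1 else 0) k : ℕ) := by
      refine Computable.nat_rec (f := fun k : ℕ => k) (g := fun _ => (0 : ℕ))
        (h := fun (_ : ℕ) (y : ℕ × ℕ) => y.2 + bif fb y.1 then 1 else 0) Computable.id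
        (Computable.const 0) ?_
      unfold Computable₂
      refine cadd (by fun_prop) (ccond (hcfb.comp (by fun_prop)) (by fun_prop) (by fun_prop))
    refine h1.of_eq fun k => ?_
    induction k with
    | zero => rfl
    | succ k ih =>
      rw [Nat.count_succ]
      simp only at ih ⊢
      rw [ih]
      congr 1
      by_cases hk : fb k = true
      · have hk' : p k := hk
        rw [hk, if_pos hk']; rfl
      · have hk' : ¬ p k := hk
        have hk'' : fb k = false := by simpa using hk
        rw [hk'', if_neg hk']; rfl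
  refine ⟨fun n => g (Nat.nth p n), ?_, ?_, ?_⟩
  · apply computable_of_graph
    have h1 : REPred fun x : ℕ × ℕ => ∃ k, (fb k = true ∧ Nat.count p k = x.1) ∧ g k = x.2 := by
      refine RE.ex (p := fun (x : ℕ × ℕ) (k : ℕ) =>
        (fb k = true ∧ Nat.count p k = x.1) ∧ g k = x.2) ?_
      refine RE.and (RE.and (RE.of_bool (hcfb.comp Computable.snd))
        (RE.eq (hcount.comp Computable.snd) (by fun_prop)))
        (RE.eq (hg.comp Computable.snd) (by fun_prop))
    refine h1.of_eq fun x => ?_
    constructor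
    · rintro ⟨k, ⟨h2, h3⟩, h4⟩
      rw [← h3, Nat.nth_count (p := p) h2]
      exact h4
    · intro h2
      exact ⟨Nat.nth p x.1, ⟨Nat.nth_mem_of_infinite hpinf _,
        Nat.count_nth_of_infinite hpinf _⟩, h2⟩
  · intro m n hmn
    exact Nat.nth_injective hpinf (hinjp _ _ (Nat.nth_mem_of_infinite hpinf _)
      (Nat.nth_mem_of_infinite hpinf _) hmn)
  · ext x
    constructor
    · rintro ⟨n, rfl⟩
      exact (hg2 _).2 ⟨_, rfl⟩
    · intro hx
      obtain ⟨k, hk1, hk2⟩ := hsurj x hx
      exact ⟨Nat.count p k, by simp only; rw [Nat.nth_count (p := p) hk1]; exact hk2⟩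

/-- finite sets are strongly jump traceable -/
theorem sjt_of_finite {E : Set ℕ} (hE : E.Finite) : SJT E ∅ := by
  intro h ho
  have hini : ∀ n, ini E n = cs hE.toFinset.toList n := by
    intro n
    symm
    apply cs_ini
    intro x _
    simp
  refine ⟨fun m => {v | Jmp E m v}, ⟨fun p => Jmp E p.1 p.2.1, ?_, ?_⟩, ?_, fun n v hv => hv⟩
  · unfold Jmp
    simp only [hini]
    refine RE.ex (p := fun (p : ℕ × ℕ × List Bool) (s : ℕ) =>
      jst p.1 s (cs hE.toFinset.toList s) = some p.2.1 ∧
        ∀ s' < s, jst p.1 s' (cs hE.toFinset.toList s') = none) ?_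
    refine RE.and (RE.eq (by fun_prop) (by fun_prop)) ?_
    refine RE.all_lt (p := fun (x : (ℕ × ℕ × List Bool) × ℕ) (s' : ℕ) =>
      jst x.1.1 s' (cs hE.toFinset.toList s') = none) ?_ (by fun_prop)
    exact RE.eq (by fun_prop) (by fun_prop)
  · intro n v
    exact ⟨fun h1 => ⟨0, h1⟩, fun ⟨_, h1⟩ => h1⟩
  · intro n
    have hsub : {v | Jmp E n v}.Subsingleton := fun y hy z hz => Jmp_unique hy hz
    refine ⟨hsub.finite, ?_⟩
    have : Finite ↑{v | Jmp E n v} := hsub.finite
    have h2 : {v | Jmp E n v}.ncard ≤ 1 := Set.ncard_le_one_iff_subsingleton.2 hsub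
    have h3 := ho.pos
    have h4 := ho.mono (Nat.zero_le n)
    show {v | Jmp E n v}.ncard ≤ h n
    omega

variable {h f : ℕ → ℕ}

theorem re_XX (hh : Computable h) (hf : Computable f) (q : ℕ) :
    REPred fun x => x ∈ XX h f q := by
  have h1 : REPred fun x => ∃ s, x ∈ sd h f q s := by
    refine RE.ex (p := fun (x s : ℕ) => x ∈ sd h f q s) ?_
    exact RE.mem_list (by fun_prop) (csd hh hf q Computable.snd)
  exact h1

theorem not_mem_XX (hinj : Function.Injective f) (q x : ℕ) :
    x ∉ XX h f q ↔ ∃ s, x ∉ sd h f q s ∧ ∀ z < x, z ∈ el f s ∨ z ∉ Set.range f := by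
  constructor
  · intro hx
    obtain ⟨N, hN⟩ := lim_el f x
    refine ⟨N, fun h1 => hx ⟨N, h1⟩, fun z hz => ?_⟩
    by_cases h1 : z ∈ Set.range f
    · exact Or.inl ((hN N le_rfl z hz).2 h1)
    · exact Or.inr h1
  · rintro ⟨s, h1, h2⟩ ⟨t, h3⟩
    have key : ∀ t ≥ s, x ∉ sd h f q t := by
      intro t ht
      induction t, ht using Nat.le_induction with
      | base => exact h1
      | succ t ht ih =>
        intro h4
        rcases (mem_sd_succ q t x).1 h4 with h5 | ⟨γ, b, m, h5, h6, h7, h8⟩
        · exact ih h5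
        · have h9 := (hit_iff _ _).1 h7
          have h10 := (inv (h := h) (f := f) t).ac γ b m h5 h9.1
          rcases h2 (f t) (by omega) with h11 | h11
          · obtain ⟨t', h12, h13⟩ := (mem_el s (f t)).1 h11
            have := hinj h13
            omega
          · exact h11 ⟨t, rfl⟩
    rcases Nat.le_total s t with h4 | h4
    · exact key t h4 h3
    · exact h1 (sd_mono h4 h3)

theorem tred_XX (hh : Computable h) (hf : Computable f) (hinj : Function.Injective f) (q : ℕ) :
    TuringReducible (chi (XX h f q)) (chi (Set.range f)) := by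
  rw [Oracle.turingReducible_iff]
  refine ⟨Oracle.REIn.of_re (re_XX hh hf q), ?_⟩
  have h1 : Oracle.REIn (Set.range f) fun x => ∃ s, x ∉ sd h f q s ∧
      ∀ z < x, z ∈ el f s ∨ z ∉ Set.range f := by
    refine Oracle.REIn.ex (S := fun (x s : ℕ) => x ∉ sd h f q s ∧
      ∀ z < x, z ∈ el f s ∨ z ∉ Set.range f) ?_
    refine Oracle.REIn.and (Oracle.REIn.of_re (RE.not_mem_list (by fun_prop)
      (csd hh hf q Computable.snd))) ?_
    refine Oracle.REIn.all_lt (S := fun (x : ℕ × ℕ) (z : ℕ) => z ∈ el f x.2 ∨ z ∉ Set.range f)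
      ?_ (by fun_prop)
    refine Oracle.REIn.or (Oracle.REIn.of_re ?_) (Oracle.REIn.not_mem (by fun_prop))
    refine RE.mem_list (by fun_prop) ?_
    unfold el
    exact cmap (f := fun x : (ℕ × ℕ) × ℕ => List.range x.1.2) (by fun_prop)
      (by unfold Computable₂; exact hf.comp Computable.snd)
  exact h1.of_eq fun x => (not_mem_XX hinj q x).symm

end Pool.Agent.U35.SJ
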