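import Pool.Agent.U35.SJ.Path

set_option autoImplicit false

/-! The functional of a side, as a value of `J`. -/

namespace Pool.Agent.U35.SJ

open Pool.Agent.Helper446 Pool.Agent.Helper446.RE
open Nat.Partrec (Code)
open Nat.Partrec.Code (evaln)
open Encodable

theorem ini_length (X : Set ℕ) (n : ℕ) : (ini X n).length = n := by unfold ini; simp

theorem ini_take (X : Set ℕ) (n k : ℕ) : (ini X n).take k = ini X (min k n) := by
  unfold ini
  rw [← List.map_take, List.take_range]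

theorem ini_eq_cs {X : Set ℕ} {l : List ℕ} {n : ℕ} (he : ini X n = cs l n) :
    ∀ x < n, x ∈ l ↔ x ∈ X := by
  intro x hx
  unfold ini cs at he
  have h1 := List.map_inj_left.1 he x (List.mem_range.2 hx)
  exact (decide_eq_decide.1 h1).symm

/-- a code computing a partial function gives values of `J` -/
theorem Jmp_of_code {F : ℕ × List Bool →. ℕ} {c : Code}
    (hc : ∀ a, Code.eval c (encode a) = F a) {X : Set ℕ} {ν i k : ℕ}
    (hd : (F (ν, ini X k)).Dom) (hu : ∀ k v, v ∈ F (ν, ini X k) → v = i) :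
    Jmp X (Nat.pair (encode c) ν) i := by
  classical
  have hj : ∀ s, jst (Nat.pair (encode c) ν) s (ini X s) =
      evaln s.unpair.2 c (encode (ν, ini X s.unpair.1)) := by
    intro s
    unfold jst
    rw [Nat.unpair_pair]
    simp only [Denumerable.ofNat_encode]
    rw [ini_take, min_eq_left (Nat.unpair_left_le s)]
  have hval : ∀ s v, jst (Nat.pair (encode c) ν) s (ini X s) = some v → v = i := by
    intro s v hv
    rw [hj] at hv
    have h1 : v ∈ Code.eval c (encode (ν, ini X s.unpair.1)) :=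
      Nat.Partrec.Code.evaln_sound hv
    rw [hc] at h1
    exact hu _ v h1
  have hex : ∃ s, (jst (Nat.pair (encode c) ν) s (ini X s)).isSome := by
    obtain ⟨v, hv⟩ := Part.dom_iff_mem.1 hd
    rw [← hc] at hv
    obtain ⟨t, ht⟩ := Nat.Partrec.Code.evaln_complete.1 hv
    refine ⟨Nat.pair k t, ?_⟩
    rw [hj, Nat.unpair_pair]
    simp only
    rw [Option.mem_def] at ht
    rw [ht]; rfl
  obtain ⟨v, hv⟩ := Option.isSome_iff_exists.1 (Nat.find_spec hex)
  refine ⟨Nat.find hex, ?_, fun s' hs' => ?_⟩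
  · rw [hv, hval _ v hv]
  · have := Nat.find_min hex hs'
    simpa using this

theorem exists_code {F : ℕ × List Bool →. ℕ} (hF : Partrec F) :
    ∃ c : Code, ∀ a, Code.eval c (encode a) = F a := by
  obtain ⟨c, hc⟩ := Nat.Partrec.Code.exists_code.1 hF
  refine ⟨c, fun a => ?_⟩
  rw [hc]
  simp only [encodek, Part.coe_some, Part.bind_some]
  have : (encode : ℕ → ℕ) = id := by
    funext n; rfl
  rw [this]
  exact Part.map_id' (fun _ => rfl) _

section fnl
variable (h f : ℕ → ℕ)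

/-- a module with the number `⟨rank, m⟩`, with the index `i` and a marker which is not in the
string -/
def Rel (q : ℕ) (a : ℕ × List Bool) (i : ℕ) : Prop :=
  ∃ s β, ∃ b : Body, bd h f s β = some b ∧ β.length % 2 = q % 2 ∧ b.1.1 = a.1.unpair.1 ∧
    (mg b.2 a.1.unpair.2).2.1.1 = true ∧ (mg b.2 a.1.unpair.2).1 = i ∧
    (mg b.2 a.1.unpair.2).2.2.2.2 < a.2.length ∧
    a.2.take ((mg b.2 a.1.unpair.2).2.2.2.2 + 1) =
      cs (sd h f q s) ((mg b.2 a.1.unpair.2).2.2.2.2 + 1)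

end fnl

variable {h f : ℕ → ℕ}

theorem csd (hh : Computable h) (hf : Computable f) (q : ℕ) {α : Type} [Primcodable α]
    {g : α → ℕ} (hg : Computable g) : Computable fun x => sd h f q (g x) := by
  have h1 := cstt hh hf hg
  unfold sd
  by_cases hq : q % 2 = 0
  · simp only [hq, if_true]
    exact Computable.fst.comp (Computable.snd.comp h1)
  · simp only [hq, if_false]
    exact Computable.snd.comp (Computable.snd.comp h1)

theorem re_Rel (hh : Computable h) (hf : Computable f) (q : ℕ) :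
    REPred fun x : (ℕ × List Bool) × ℕ => Rel h f q x.1 x.2 := by
  unfold Rel
  refine RE.ex (p := fun (x : (ℕ × List Bool) × ℕ) (s : ℕ) => ∃ β, ∃ b : Body,
    bd h f s β = some b ∧ β.length % 2 = q % 2 ∧ b.1.1 = x.1.1.unpair.1 ∧
    (mg b.2 x.1.1.unpair.2).2.1.1 = true ∧ (mg b.2 x.1.1.unpair.2).1 = x.2 ∧
    (mg b.2 x.1.1.unpair.2).2.2.2.2 < x.1.2.length ∧
    x.1.2.take ((mg b.2 x.1.1.unpair.2).2.2.2.2 + 1) =
      cs (sd h f q s) ((mg b.2 x.1.1.unpair.2).2.2.2.2 + 1)) ?_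
  refine RE.ex (p := fun (y : ((ℕ × List Bool) × ℕ) × ℕ) (β : Node) => ∃ b : Body,
    bd h f y.2 β = some b ∧ β.length % 2 = q % 2 ∧ b.1.1 = y.1.1.1.unpair.1 ∧
    (mg b.2 y.1.1.1.unpair.2).2.1.1 = true ∧ (mg b.2 y.1.1.1.unpair.2).1 = y.1.2 ∧
    (mg b.2 y.1.1.1.unpair.2).2.2.2.2 < y.1.1.2.length ∧
    y.1.1.2.take ((mg b.2 y.1.1.1.unpair.2).2.2.2.2 + 1) =
      cs (sd h f q y.2) ((mg b.2 y.1.1.1.unpair.2).2.2.2.2 + 1)) ?_
  refine RE.ex (p := fun (z : (((ℕ × List Bool) × ℕ) × ℕ) × Node) (b : Body) =>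
    bd h f z.1.2 z.2 = some b ∧ z.2.length % 2 = q % 2 ∧ b.1.1 = z.1.1.1.1.unpair.1 ∧
    (mg b.2 z.1.1.1.1.unpair.2).2.1.1 = true ∧ (mg b.2 z.1.1.1.1.unpair.2).1 = z.1.1.2 ∧
    (mg b.2 z.1.1.1.1.unpair.2).2.2.2.2 < z.1.1.1.2.length ∧
    z.1.1.1.2.take ((mg b.2 z.1.1.1.1.unpair.2).2.2.2.2 + 1) =
      cs (sd h f q z.1.2) ((mg b.2 z.1.1.1.1.unpair.2).2.2.2.2 + 1)) ?_
  have hb : Computable fun w : ((((ℕ × List Bool) × ℕ) × ℕ) × Node) × Body =>
      bd h f w.1.1.2 w.1.2 :=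
    clook (Computable.fst.comp (cstt hh hf (by fun_prop))) (by fun_prop)
  have hm : Computable fun w : ((((ℕ × List Bool) × ℕ) × ℕ) × Node) × Body =>
      mg w.2.2 w.1.1.1.1.1.unpair.2 := by fun_prop
  have hs : Computable fun w : ((((ℕ × List Bool) × ℕ) × ℕ) × Node) × Body =>
      sd h f q w.1.1.2 := csd hh hf q (by fun_prop)
  have hm1 : Computable fun w : ((((ℕ × List Bool) × ℕ) × ℕ) × Node) × Body =>
      (mg w.2.2 w.1.1.1.1.1.unpair.2).2.2.2.2 :=
    Computable.snd.comp (Computable.snd.comp (Computable.snd.comp (Computable.snd.comp hm)))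
  refine RE.and (RE.eq hb (by fun_prop)) (RE.and (RE.eq (by fun_prop) (by fun_prop))
    (RE.and (RE.eq (by fun_prop) (by fun_prop)) (RE.and (RE.eq ?_ (by fun_prop))
    (RE.and (RE.eq ?_ (by fun_prop)) (RE.and (RE.lt hm1 (by fun_prop)) (RE.eq ?_ ?_))))))
  · exact Computable.fst.comp (Computable.fst.comp (Computable.snd.comp hm))
  · exact Computable.fst.comp hm
  · exact ctake (Computable.succ.comp hm1) (by fun_prop)
  · exact ccs hs (Computable.succ.comp hm1)

/-- two elements of the relation for the constructed set -/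
theorem rel_single {q ν k k' i i' : ℕ} (h1 : Rel h f q (ν, ini (XX h f q) k) i)
    (h2 : Rel h f q (ν, ini (XX h f q) k') i') : i = i' := by
  have key : ∀ {k i : ℕ}, Rel h f q (ν, ini (XX h f q) k) i → ∃ s β, ∃ b : Body,
      bd h f s β = some b ∧ β.length % 2 = q % 2 ∧ b.1.1 = ν.unpair.1 ∧
      (mg b.2 ν.unpair.2).2.1.1 = true ∧ (mg b.2 ν.unpair.2).1 = i ∧
      (mg b.2 ν.unpair.2).2.2.2.2 ∉ XX h f q := by
    rintro k i ⟨s, β, b, a1, a2, a3, a4, a5, a6, a7⟩
    refine ⟨s, β, b, a1, a2, a3, a4, a5, ?_⟩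
    simp only at a4 a6 a7
    rw [ini_length] at a6
    rw [ini_take, min_eq_left (by omega)] at a7
    rw [← ini_eq_cs a7 _ (Nat.lt_succ_self _)]
    exact ((inv (h := h) (f := f) s).ac β b _ a1 a4).2.2.2.2.2.2 q
  obtain ⟨s, β, b, a1, a2, a3, a4, a5, a6⟩ := key h1
  obtain ⟨s', β', b', c1, c2, c3, c4, c5, c6⟩ := key h2
  have hβ : β = β' := rank_inj a1 c1 (a3.trans c3.symm)
  subst hβ
  rcases Nat.le_total s s' with hs | hs
  · rcases act_evo hs a1 c1 (c3.trans a3.symm) a4 with ⟨_, e1, _⟩ | e1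
    · rw [← a5, ← c5, e1]
    · rw [sd_mod a2] at e1
      exact absurd ⟨s', e1⟩ a6
  · rcases act_evo hs c1 a1 (a3.trans c3.symm) c4 with ⟨_, e1, _⟩ | e1
    · rw [← a5, ← c5, e1]
    · rw [sd_mod a2] at e1
      exact absurd ⟨s, e1⟩ c6

/-- the code of the functional of the side `q` -/
theorem exists_fun (hh : Computable h) (hf : Computable f) (q : ℕ) :
    ∃ c : Code, ∀ ν i k, Rel h f q (ν, ini (XX h f q) k) i →
      Jmp (XX h f q) (Nat.pair (encode c) ν) i := by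
  obtain ⟨F, hF, h1, h2⟩ := RE.uniformize (re_Rel hh hf q)
  obtain ⟨c, hc⟩ := exists_code hF
  refine ⟨c, fun ν i k hr => ?_⟩
  refine Jmp_of_code hc (k := k) ((h1 _).2 ⟨i, hr⟩) fun k' v hv => ?_
  exact rel_single (h2 _ _ hv) hr

end Pool.Agent.U35.SJ
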