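import Pool.Agent.U35.SJ.Time

set_option autoImplicit false

/-! Invariants of the construction. -/

namespace Pool.Agent.U35.SJ

open Pool.Agent.Helper446.RE

/-! ### Strings -/

theorem cs_length (l : List ℕ) (n : ℕ) : (cs l n).length = n := by unfold cs; simp

theorem cs_take (l : List ℕ) (n k : ℕ) : (cs l n).take k = cs l (min k n) := by
  unfold cs
  rw [← List.map_take, List.take_range]

theorem cs_congr {l l' : List ℕ} {n : ℕ} (hl : ∀ x < n, x ∈ l ↔ x ∈ l') : cs l n = cs l' n := by
  unfold cs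
  apply List.map_congr_left
  intro x hx
  rw [List.mem_range] at hx
  exact decide_eq_decide.2 (hl x hx)

theorem jst_take (m s : ℕ) (σ : List Bool) {n : ℕ} (hn : s ≤ n) :
    jst m s (σ.take n) = jst m s σ := by
  unfold jst
  rw [List.take_take]
  congr 4
  have := Nat.unpair_left_le s
  omega

theorem jst_cs (m : ℕ) {s n : ℕ} (hn : s ≤ n) (l : List ℕ) :
    jst m s (cs l n) = jst m s (cs l s) := by
  rw [← jst_take m s (cs l n) le_rfl, cs_take, min_eq_left hn]

/-- `(y, u)` is the value and the use of `J(m)` for the set of the elements of `l` -/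
def Va (l : List ℕ) (m y u : ℕ) : Prop :=
  jst m u (cs l u) = some y ∧ ∀ s' < u, jst m s' (cs l s') = none

theorem Va.congr {l l' : List ℕ} {m y u : ℕ} (hv : Va l m y u) (hl : ∀ x < u, x ∈ l ↔ x ∈ l') :
    Va l' m y u := by
  refine ⟨?_, fun s' hs' => ?_⟩
  · rw [← cs_congr hl]; exact hv.1
  · rw [← cs_congr (fun x hx => hl x (by omega))]; exact hv.2 s' hs'

theorem Va_of_ju {l : List ℕ} {m n : ℕ} (hn : ju m (cs l n) ≤ n) :
    Va l m (jy m (cs l n)) (ju m (cs l n)) := by
  have hlen : ((List.range ((cs l n).length + 1)).findIdx fun s => (jst m s (cs l n)).isSome) =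
    ju m (cs l n) := rfl
  have hlt : ((List.range ((cs l n).length + 1)).findIdx fun s => (jst m s (cs l n)).isSome) <
      (List.range ((cs l n).length + 1)).length := by
    rw [hlen, List.length_range, cs_length]; omega
  have h1 := List.findIdx_getElem (w := hlt)
  rw [List.getElem_range, hlen] at h1
  refine ⟨?_, fun s' hs' => ?_⟩
  · obtain ⟨y, hy⟩ := Option.isSome_iff_exists.1 h1
    have : jy m (cs l n) = y := by unfold jy; rw [hy]; rfl
    rw [this, ← jst_cs m hn]
    exact hy
  · have h2 := List.not_of_lt_findIdx (p := fun s => (jst m s (cs l n)).isSome)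
      (xs := List.range ((cs l n).length + 1)) (i := s') (by rw [hlen]; exact hs')
    rw [List.getElem_range] at h2
    rw [← jst_cs m (n := n) (by omega)]
    simpa using h2

theorem ju_of_Va {l : List ℕ} {m y u n : ℕ} (hv : Va l m y u) (hn : u ≤ n) :
    ju m (cs l n) = u ∧ jy m (cs l n) = y := by
  have h1 : ju m (cs l n) = u := by
    have hlen : ((List.range ((cs l n).length + 1)).findIdx fun s => (jst m s (cs l n)).isSome) =
      ju m (cs l n) := rfl
    rw [← hlen]
    rw [List.findIdx_eq (i := u) (by rw [List.length_range, cs_length]; omega)]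
    refine ⟨?_, fun j hj => ?_⟩
    · rw [List.getElem_range, jst_cs m hn, hv.1]; rfl
    · rw [List.getElem_range, jst_cs m (by omega), hv.2 j hj]; rfl
  refine ⟨h1, ?_⟩
  unfold jy
  rw [h1, jst_cs m hn, hv.1]; rfl

theorem Va.unique {l : List ℕ} {m y u y' u' : ℕ} (hv : Va l m y u) (hv' : Va l m y' u') :
    y = y' ∧ u = u' := by
  have h1 := ju_of_Va hv (le_max_left u u')
  have h2 := ju_of_Va hv' (le_max_right u u')
  exact ⟨h1.2.symm.trans h2.2, h1.1.symm.trans h2.1⟩

/-! ### Modules -/

theorem hit_iff (a : ℕ) (x : Mod) : hit a x = true ↔ x.2.1.1 = true ∧ a < x.2.2.2.1 := by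
  unfold hit
  rw [Bool.and_eq_true, decide_eq_true_iff]

theorem rst_of_hit {a : ℕ} {x : Mod} (hh : hit a x = true) :
    rst a x = (x.1 + (bif x.2.1.2 then 1 else 0), ((false, false), (0, (0, 0)))) := by
  unfold rst
  rw [hh]; rfl

theorem rst_of_not {a : ℕ} {x : Mod} (hh : hit a x = false) : rst a x = x := by
  unfold rst
  rw [hh]; rfl

theorem rst_act {a : ℕ} {x : Mod} (hx : (rst a x).2.1.1 = true) :
    rst a x = x ∧ x.2.2.2.1 ≤ a ∧ x.2.1.1 = true ∧ hit a x = false := by
  cases hh : hit a x with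
  | true => rw [rst_of_hit hh] at hx; exact absurd hx Bool.false_ne_true
  | false =>
    have h1 := rst_of_not hh
    rw [h1] at hx
    refine ⟨h1, ?_, hx, rfl⟩
    by_contra hcon
    rw [not_le] at hcon
    have := (hit_iff a x).2 ⟨hx, hcon⟩
    rw [hh] at this
    exact absurd this (by decide)

variable {h f : ℕ → ℕ}

theorem mg_stB (s m y u : ℕ) (b : Body) (k : ℕ) :
    mg (stB s m y u b).2 k =
      if k = m then ((mg b.2 m).1, ((true, false), (y, (u, s)))) else mg b.2 k := mg_ms _ _ _ _

theorem mg_ceB (s m : ℕ) (b : Body) (k : ℕ) :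
    mg (ceB s m b).2 k =
      if k = m then ((mg b.2 m).1, ((true, true), (mg b.2 m).2.2)) else mg b.2 k := mg_ms _ _ _ _

/-- how the module `k` changes -/
inductive MT (h f : ℕ → ℕ) (s : ℕ) (β : Node) (k : ℕ) (x x' : Mod) : Prop
  | id (h1 : x' = rst (f s) x)
  | sta (y u : ℕ) (hs : Sta h f s β k y u) (h0 : (rst (f s) x).2.1.1 = false)
      (h1 : x' = ((rst (f s) x).1, ((true, false), (y, (u, s)))))
  | cer (hs : Cer h f s β k) (h0 : (rst (f s) x).2.1 = (true, false))
      (h1 : x' = ((rst (f s) x).1, ((true, true), (rst (f s) x).2.2)))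

theorem old_spec {s : ℕ} {β : Node} {b' : Body} (hb : bd h f (s + 1) β = some b') :
    (New h f s β ∧ b' = ((s, 0), [])) ∨
    ∃ b, bd h f s β = some b ∧ ¬ hu h f s β ∧ ¬ rem h f s β ∧ b'.1.1 = b.1.1 ∧
      ((b'.1.2 = b.1.2 ∧ ∀ m, ¬ Cer h f s β m) ∨ (b'.1.2 = s ∧ ∃ m, Cer h f s β m)) ∧
      ∀ k, MT h f s β k (mg b.2 k) (mg b'.2 k) := by
  rcases bd_succ hb with h1 | ⟨b, h1, h2, h3, -⟩
  · exact Or.inl h1
  · right
    obtain ⟨b'', e1, e2, e3, e4, e5⟩ := bd_keep h1 h2 h3
    rw [hb] at e1
    obtain rfl := Option.some.inj e1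
    refine ⟨b, h1, h2, h3, e2, ?_⟩
    by_cases hC : ∃ m, Cer h f s β m
    · obtain ⟨m, h4⟩ := hC
      have h5 := e5 m h4
      refine ⟨Or.inr ⟨by rw [h5]; rfl, m, h4⟩, fun k => ?_⟩
      by_cases hk : k = m
      · subst hk
        obtain ⟨_, b1, g1, _, _, g2⟩ := cer_spec h4
        have : b1 = rb (f s) b := by
          have := bp_of_bd h1 h2
          rw [g1] at this
          exact Option.some.inj this
        subst this
        refine MT.cer h4 ?_ ?_
        · rw [← mg_rb]
          obtain ⟨_, _, g3, g4, _⟩ := g2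
          have g3' : (mg (rb (f s) b).2 k).2.1.1 = true := g3
          have g4' : (mg (rb (f s) b).2 k).2.1.2 = false := g4
          rw [← g3', ← g4']
        · rw [h5, mg_ceB, if_pos rfl, mg_rb]
      · exact MT.id (by rw [h5, mg_ceB, if_neg hk, mg_rb])
    · have hC' : ∀ m, ¬ Cer h f s β m := fun m hm => hC ⟨m, hm⟩
      by_cases hS : ∃ m y u, Sta h f s β m y u
      · obtain ⟨m, y, u, h4⟩ := hS
        have h5 := e4 m y u h4
        refine ⟨Or.inl ⟨by rw [h5]; rfl, hC'⟩, fun k => ?_⟩
        by_cases hk : k = m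
        · subst hk
          obtain ⟨_, b1, g1, _, _, g2, _⟩ := sta_spec h4
          have : b1 = rb (f s) b := by
            have := bp_of_bd h1 h2
            rw [g1] at this
            exact Option.some.inj this
          subst this
          refine MT.sta y u h4 ?_ ?_
          · rw [← mg_rb]; exact g2.2.2.1
          · rw [h5, mg_stB, if_pos rfl, mg_rb]
        · exact MT.id (by rw [h5, mg_stB, if_neg hk, mg_rb])
      · have h5 := e3 hC' (fun m y u hm => hS ⟨m, y, u, hm⟩)
        refine ⟨Or.inl ⟨by rw [h5]; rfl, hC'⟩, fun k => ?_⟩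
        exact MT.id (by rw [h5, mg_rb])

structure Inv (h f : ℕ → ℕ) (s : ℕ) : Prop where
  rk : ∀ β b, bd h f s β = some b → b.1.1 < s ∧ b.1.2 ≤ s
  ix : ∀ β b m, bd h f s β = some b → (mg b.2 m).1 ≤ h m
  ct : ∀ β b m, bd h f s β = some b → (mg b.2 m).2.1.2 = true → (mg b.2 m).2.1.1 = true
  ac : ∀ β b m, bd h f s β = some b → (mg b.2 m).2.1.1 = true →
    ¬ skp h b.1.1 m ∧ (mg b.2 m).1 < h m ∧ (mg b.2 m).2.2.2.1 ≤ (mg b.2 m).2.2.2.2 ∧
      (mg b.2 m).2.2.2.2 < s ∧ b.1.1 < (mg b.2 m).2.2.2.2 ∧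
      Va (el f s) m (mg b.2 m).2.2.1 (mg b.2 m).2.2.2.1 ∧
      ∀ q, (mg b.2 m).2.2.2.2 ∉ sd h f q s
  iz : ∀ β b m, bd h f s β = some b → 0 < (mg b.2 m).1 → ¬ skp h b.1.1 m
  um : ∀ β b m β' b' m', bd h f s β = some b → bd h f s β' = some b' →
    (mg b.2 m).2.1.1 = true → (mg b'.2 m').2.1.1 = true →
    (mg b.2 m).2.2.2.2 = (mg b'.2 m').2.2.2.2 → β = β' ∧ m = m'
  ur : ∀ β b β' b', bd h f s β = some b → bd h f s β' = some b' → b.1.1 = b'.1.1 → β = β'
  hr : ∀ β b γ c m, bd h f s β = some b → bd h f s γ = some c → (mg c.2 m).2.1.1 = true →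
    (mg c.2 m).2.2.2.2 < b.1.2 → γ.length % 2 ≠ β.length % 2 → hurt γ m β = true
  tr : ∀ β b m i, bd h f s β = some b →
    (i < (mg b.2 m).1 ∨ (i = (mg b.2 m).1 ∧ (mg b.2 m).2.1.2 = true)) →
    ∃ k ≤ b.1.2, ∃ t, wst (ℕ × ℕ × List Bool) (β.length / 2).unpair.1 t
      (box β.length b.1.1 m, (i, cs (sd h f (β.length + 1) s) k)) = true
  lt : ∀ q x, x ∈ sd h f q s → x < s

theorem el_succ (s x : ℕ) : x ∈ el f (s + 1) ↔ x ∈ el f s ∨ x = f s := by
  unfold el
  rw [List.range_succ, List.map_append, List.mem_append]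
  simp

theorem Va_succ {s m y u : ℕ} (hv : Va (el f s) m y u) (hu : u ≤ f s) :
    Va (el f (s + 1)) m y u := by
  refine hv.congr fun x hx => ?_
  rw [el_succ]
  constructor
  · exact Or.inl
  · rintro (h1 | h1)
    · exact h1
    · omega

/-- an active module after stage `s` is old or has just been started -/
theorem act_old {s : ℕ} {β : Node} {k : ℕ} {x x' : Mod} (hm : MT h f s β k x x')
    (ha : x'.2.1.1 = true) :
    (x.2.1.1 = true ∧ hit (f s) x = false ∧ rst (f s) x = x ∧ x.2.2.2.1 ≤ f s ∧ x'.1 = x.1 ∧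
      x'.2.2 = x.2.2) ∨
    (∃ y u, Sta h f s β k y u ∧ x' = ((rst (f s) x).1, ((true, false), (y, (u, s))))) := by
  cases hm with
  | id h1 =>
    rw [h1] at ha
    obtain ⟨g1, g2, g3, g4⟩ := rst_act ha
    exact Or.inl ⟨g3, g4, g1, g2, by rw [h1, g1], by rw [h1, g1]⟩
  | sta y u hs h0 h1 => exact Or.inr ⟨y, u, hs, h1⟩
  | cer hs h0 h1 =>
    have h2 : (rst (f s) x).2.1.1 = true := by rw [h0]
    obtain ⟨g1, g2, g3, g4⟩ := rst_act h2
    refine Or.inl ⟨g3, g4, g1, g2, by rw [h1, g1], by rw [h1, g1]⟩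

theorem inv_zero : Inv h f 0 := by
  constructor
  · intro β b hb; rw [bd_zero] at hb; exact absurd hb (by simp)
  · intro β b m hb; rw [bd_zero] at hb; exact absurd hb (by simp)
  · intro β b m hb; rw [bd_zero] at hb; exact absurd hb (by simp)
  · intro β b m hb; rw [bd_zero] at hb; exact absurd hb (by simp)
  · intro β b m hb; rw [bd_zero] at hb; exact absurd hb (by simp)
  · intro β b m β' b' m' hb; rw [bd_zero] at hb; exact absurd hb (by simp)
  · intro β b β' b' hb; rw [bd_zero] at hb; exact absurd hb (by simp)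
  · intro β b γ c m hb; rw [bd_zero] at hb; exact absurd hb (by simp)
  · intro β b m i hb; rw [bd_zero] at hb; exact absurd hb (by simp)
  · intro q x hx; rw [sd_zero] at hx; exact absurd hx (by simp)

theorem inv_succ {s : ℕ} (I : Inv h f s) : Inv h f (s + 1) := by
  have ltS : ∀ q x, x ∈ sd h f q (s + 1) → x < s := by
    intro q x hx
    rcases (mem_sd_succ q s x).1 hx with h1 | ⟨γ, b, m, h1, h2, h3, h4⟩
    · exact I.lt q x h1
    · rw [← h4]
      exact (I.ac γ b m h1 ((hit_iff _ _).1 h3).1).2.2.2.1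
  constructor
  · -- rk
    intro β b' hb
    rcases old_spec hb with ⟨h1, h2⟩ | ⟨b, h1, h2, h3, h4, h5, h6⟩
    · rw [h2]; exact ⟨Nat.lt_succ_self _, Nat.zero_le _⟩
    · obtain ⟨g1, g2⟩ := I.rk β b h1
      refine ⟨by omega, ?_⟩
      rcases h5 with ⟨h5, _⟩ | ⟨h5, _⟩ <;> omega
  · -- ix
    intro β b' m hb
    rcases old_spec hb with ⟨h1, h2⟩ | ⟨b, h1, h2, h3, h4, h5, h6⟩
    · rw [h2, mg_nil]; exact Nat.zero_le _
    · have g : (rst (f s) (mg b.2 m)).1 ≤ h m := by
        cases hh : hit (f s) (mg b.2 m) with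
        | false => rw [rst_of_not hh]; exact I.ix β b m h1
        | true =>
          rw [rst_of_hit hh]
          have := (I.ac β b m h1 ((hit_iff _ _).1 hh).1).2.1
          cases (mg b.2 m).2.1.2
          · exact this.le
          · exact this
      rcases h6 m with h7 | ⟨y, u, _, _, h7⟩ | ⟨_, _, h7⟩ <;> rw [h7] <;> exact g
  · -- ct
    intro β b' m hb hc
    rcases old_spec hb with ⟨h1, h2⟩ | ⟨b, h1, h2, h3, h4, h5, h6⟩
    · rw [h2, mg_nil] at hc; exact absurd hc (by decide)
    · rcases h6 m with h7 | ⟨y, u, _, _, h7⟩ | ⟨_, _, h7⟩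
      · rw [h7] at hc ⊢
        cases hh : hit (f s) (mg b.2 m) with
        | false => rw [rst_of_not hh] at hc ⊢; exact I.ct β b m h1 hc
        | true => rw [rst_of_hit hh] at hc; exact absurd hc Bool.false_ne_true
      · rw [h7]
      · rw [h7]
  · -- ac
    intro β b' m hb ha
    rcases old_spec hb with ⟨h1, h2⟩ | ⟨b, h1, h2, h3, h4, h5, h6⟩
    · rw [h2, mg_nil] at ha; exact absurd ha (by decide)
    · rcases act_old (h6 m) ha with ⟨g1, g2, g3, g4, g5, g6⟩ | ⟨y, u, g1, g2⟩
      · obtain ⟨k1, k2, k3, k4, k5, k6, k7⟩ := I.ac β b m h1 g1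
        rw [g5, g6, h4]
        refine ⟨k1, k2, k3, by omega, k5, Va_succ k6 g4, fun q hq => ?_⟩
        rcases (mem_sd_succ q s _).1 hq with h8 | ⟨γ, c, m', h8, h9, h10, h11⟩
        · exact k7 q h8
        · obtain ⟨e1, e2⟩ := I.um γ c m' β b m h8 h1 ((hit_iff _ _).1 h10).1 g1 h11
          subst e1 e2
          rw [h1] at h8
          rw [← Option.some.inj h8, g2] at h10
          exact absurd h10 (by decide)
      · obtain ⟨_, b1, k1, _, _, k2, k3, k4⟩ := sta_spec g1
        obtain ⟨_, b0, k5, k6⟩ := bp_some k1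
        rw [h1] at k5
        rw [← Option.some.inj k5] at k6
        subst k6
        obtain ⟨l1, l2, l3, l4⟩ := k2
        have l4' : ju m (cs (el f (s + 1)) (min (f s) s)) ≤ min (f s) s := by
          have := l4
          simp only [sε, cs_length] at this
          exact this
        have l2' : (rst (f s) (mg b.2 m)).1 < h m := by rw [← mg_rb]; exact l2
        rw [g2, h4]
        refine ⟨l1, l2', ?_, Nat.lt_succ_self _, (I.rk β b h1).1, ?_, fun q hq => ?_⟩
        · show u ≤ s
          rw [k4]; omega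
        · show Va (el f (s + 1)) m y u
          rw [k3, k4]
          exact Va_of_ju l4'
        · have := ltS q s hq
          omega
  · -- iz
    intro β b' m hb hi
    rcases old_spec hb with ⟨h1, h2⟩ | ⟨b, h1, h2, h3, h4, h5, h6⟩
    · rw [h2, mg_nil] at hi; exact absurd hi (by decide)
    · rw [h4]
      have g : 0 < (rst (f s) (mg b.2 m)).1 → ¬ skp h b.1.1 m := by
        intro hi
        cases hh : hit (f s) (mg b.2 m) with
        | false => rw [rst_of_not hh] at hi; exact I.iz β b m h1 hi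
        | true => exact (I.ac β b m h1 ((hit_iff _ _).1 hh).1).1
      rcases h6 m with h7 | ⟨y, u, _, _, h7⟩ | ⟨_, _, h7⟩ <;> rw [h7] at hi <;> exact g hi
  · -- um
    intro β b1 m β' b1' m' hb hb' ha ha' hx
    rcases old_spec hb with ⟨h1, h2⟩ | ⟨b, h1, h2, h3, h4, h5, h6⟩
    · rw [h2, mg_nil] at ha; exact absurd ha (by decide)
    rcases old_spec hb' with ⟨h1', h2'⟩ | ⟨b', h1', h2', h3', h4', h5', h6'⟩
    · rw [h2', mg_nil] at ha'; exact absurd ha' (by decide)
    rcases act_old (h6 m) ha with ⟨g1, g2, g3, g4, g5, g6⟩ | ⟨y, u, g1, g2⟩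
    · rcases act_old (h6' m') ha' with ⟨k1, k2, k3, k4, k5, k6⟩ | ⟨y', u', k1, k2⟩
      · rw [g6, k6] at hx
        exact I.um β b m β' b' m' h1 h1' g1 k1 hx
      · rw [g6, k2] at hx
        have := (I.ac β b m h1 g1).2.2.2.1
        simp only at hx
        omega
    · rcases act_old (h6' m') ha' with ⟨k1, k2, k3, k4, k5, k6⟩ | ⟨y', u', k1, k2⟩
      · rw [k6, g2] at hx
        have := (I.ac β' b' m' h1' k1).2.2.2.1
        simp only at hx
        omega
      · exact ⟨g1.2.1.symm.trans k1.2.1, g1.2.2.1.symm.trans k1.2.2.1⟩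
  · -- ur
    intro β b1 β' b1' hb hb' hx
    rcases old_spec hb with ⟨h1, h2⟩ | ⟨b, h1, h2, h3, h4, h5, h6⟩
    · rcases old_spec hb' with ⟨h1', h2'⟩ | ⟨b', h1', h2', h3', h4', h5', h6'⟩
      · exact h1.2.symm.trans h1'.2
      · have := (I.rk β' b' h1').1
        rw [h2, h4'] at hx
        simp only at hx
        omega
    · rcases old_spec hb' with ⟨h1', h2'⟩ | ⟨b', h1', h2', h3', h4', h5', h6'⟩
      · have := (I.rk β b h1).1
        rw [h4, h2'] at hx
        simp only at hx
        omega
      · exact I.ur β b β' b' h1 h1' (by rw [← h4, ← h4', hx])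
  · -- hr
    intro β b1 γ c1 m hb hc ha hx hp
    rcases old_spec hb with ⟨h1, h2⟩ | ⟨b, h1, h2, h3, h4, h5, h6⟩
    · rw [h2] at hx; exact absurd hx (Nat.not_lt_zero _)
    rcases old_spec hc with ⟨h1', h2'⟩ | ⟨c, h1', h2', h3', h4', h5', h6'⟩
    · rw [h2', mg_nil] at ha; exact absurd ha (by decide)
    have hlc : b1.1.2 ≤ s := by
      rcases h5 with ⟨h5, _⟩ | ⟨h5, _⟩
      · rw [h5]; exact (I.rk β b h1).2
      · rw [h5]
    rcases act_old (h6' m) ha with ⟨k1, k2, k3, k4, k5, k6⟩ | ⟨y', u', k1, k2⟩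
    · rcases h5 with ⟨h5, _⟩ | ⟨h5, m1, h7⟩
      · rw [k6, h5] at hx
        exact I.hr β b γ c m h1 h1' k1 hx hp
      · have hlow : low β γ = false := by
          by_contra hcon
          exact h3' ⟨h7.1, by rw [h7.2.1]; simpa using hcon⟩
        rcases hurt_or γ m β hlow with g | g | ⟨τ, β', g1, g2⟩
        · exact g
        · rw [g] at hp; exact absurd rfl hp
        · exfalso
          have hr := (cer_spec h7).1
          rw [g1] at hr
          obtain ⟨_, c2, r1, r2, r3⟩ := rch_split hr
          have r4 : c2 = rb (f s) c := by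
            have := bp_of_bd h1' h2'
            unfold bp at this
            rw [r1] at this
            exact Option.some.inj this
          subst r4
          have hm : m < τ.length := by
            by_contra hcon
            rw [List.getD_eq_default _ _ (by omega)] at g2
            exact absurd g2 (by decide)
          have r5 := (scn_spec (h := h) (sε h f s γ (rb (f s) c)) s).1
          rw [← sc_eq, r3] at r5
          have r6 := r5 m hm
          rw [g2] at r6
          unfold bitOK at r6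
          rw [if_pos rfl] at r6
          have r7 : (mg (rb (f s) c).2 m).2.1.1 = false := r6.2.2.1
          rw [mg_rb, k3, k1] at r7
          exact absurd r7 (by decide)
    · exfalso
      rw [k2] at hx
      simp only at hx
      omega
  · -- tr
    intro β b1 m i hb hi
    rcases old_spec hb with ⟨h1, h2⟩ | ⟨b, h1, h2, h3, h4, h5, h6⟩
    · rw [h2, mg_nil] at hi
      rcases hi with hi | ⟨_, hi⟩
      · exact absurd hi (Nat.not_lt_zero _)
      · exact absurd hi (by decide)
    have key : ∀ i, (i < (mg b.2 m).1 ∨ (i = (mg b.2 m).1 ∧ (mg b.2 m).2.1.2 = true)) →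
        ∃ k ≤ b1.1.2, ∃ t, wst (ℕ × ℕ × List Bool) (β.length / 2).unpair.1 t
          (box β.length b1.1.1 m, (i, cs (sd h f (β.length + 1) (s + 1)) k)) = true := by
      intro i hi
      obtain ⟨k, hk, t, ht⟩ := I.tr β b m i h1 hi
      refine ⟨k, ?_, t, ?_⟩
      · rcases h5 with ⟨h5, _⟩ | ⟨h5, _⟩
        · omega
        · have := (I.rk β b h1).2
          omega
      · rw [h4, ← ht]
        have hcs : cs (sd h f (β.length + 1) (s + 1)) k = cs (sd h f (β.length + 1) s) k := by
          apply cs_congr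
          intro x hx
          constructor
          · intro hxm
            rcases (mem_sd_succ _ s x).1 hxm with h8 | ⟨γ, c, m', h8, h9, h10, h11⟩
            · exact h8
            · exfalso
              apply h2
              rw [hu_iff]
              refine ⟨γ, c, m', h8, h10, ?_⟩
              exact I.hr β b γ c m' h1 h8 ((hit_iff _ _).1 h10).1 (by rw [h11]; omega)
                (by omega)
          · intro hxm
            exact (mem_sd_succ _ s x).2 (Or.inl hxm)
        rw [hcs]
    have key2 : ∀ i, i < (rst (f s) (mg b.2 m)).1 ∨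
        (i = (rst (f s) (mg b.2 m)).1 ∧ (rst (f s) (mg b.2 m)).2.1.2 = true) →
        (i < (mg b.2 m).1 ∨ (i = (mg b.2 m).1 ∧ (mg b.2 m).2.1.2 = true)) := by
      intro i hi
      cases hh : hit (f s) (mg b.2 m) with
      | false => rw [rst_of_not hh] at hi; exact hi
      | true =>
        rw [rst_of_hit hh] at hi
        rcases hi with hi | ⟨_, hi⟩
        · cases hc : (mg b.2 m).2.1.2 with
          | false =>
            rw [hc] at hi
            simp only [cond_false, add_zero] at hi
            exact Or.inl hi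
          | true =>
            rw [hc] at hi
            simp only [cond_true] at hi
            by_cases h7 : i = (mg b.2 m).1
            · exact Or.inr ⟨h7, rfl⟩
            · exact Or.inl (by omega)
        · exact absurd hi Bool.false_ne_true
    rcases h6 m with h7 | ⟨y, u, _, _, h7⟩ | ⟨hce, _, h7⟩
    · rw [h7] at hi
      exact key i (key2 i hi)
    · rw [h7] at hi
      rcases hi with hi | ⟨_, hi⟩
      · exact key i (key2 i (Or.inl hi))
      · exact absurd hi Bool.false_ne_true
    · rw [h7] at hi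
      rcases hi with hi | ⟨hi, _⟩
      · exact key i (key2 i (Or.inl hi))
      · obtain ⟨_, b2, l1, _, _, l2⟩ := cer_spec hce
        obtain ⟨_, b0, l3, l4⟩ := bp_some l1
        rw [h1] at l3
        rw [← Option.some.inj l3] at l4
        subst l4
        obtain ⟨_, _, _, _, l5⟩ := l2
        unfold tst tvb at l5
        rw [exB_iff] at l5
        obtain ⟨k, hk, l6⟩ := l5
        replace hk : k < s + 1 := hk
        have l6' : wst (ℕ × ℕ × List Bool) (β.length / 2).unpair.1 s
          (box β.length b.1.1 m, ((mg (rb (f s) b).2 m).1,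
            (cs (sd h f (β.length + 1) (s + 1)) s).take k)) = true := l6
        rw [cs_take, min_eq_left (by omega), mg_rb] at l6'
        have h8 : b1.1.2 = s := by
          rcases h5 with ⟨_, h5⟩ | ⟨h5, _⟩
          · exact absurd hce (h5 m)
          · exact h5
        refine ⟨k, by omega, s, ?_⟩
        rw [h4, hi]
        exact l6'
  · -- lt
    intro q x hx
    have := ltS q x hx
    omega

theorem inv (s : ℕ) : Inv h f s := by
  induction s with
  | zero => exact inv_zero
  | succ s ih => exact inv_succ ih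

end Pool.Agent.U35.SJ
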