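import Pool.Agent.U35.SJ.Defs
import Pool.Agent.Helper446.Oracle

set_option autoImplicit false

/-! The construction: data, order of the nodes, one stage. -/

namespace Pool.Agent.U35.SJ

open Pool.Agent.Helper446.RE

/-- outcome of a node: a bit for each module, `true` for: infinitely many changes -/
abbrev Out := List Bool

abbrev Node := List Out

/-- number of confirmed values, (active, certified), (value, use, marker) -/
abbrev Mod := ℕ × (Bool × Bool) × (ℕ × ℕ × ℕ)

/-- (rank, last certification), modules -/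
abbrev Body := (ℕ × ℕ) × List Mod

abbrev Rec := Node × Body

def dflt : Mod := (0, (false, false), (0, 0, 0))

/-- module `m` -/
def mg (l : List Mod) (m : ℕ) : Mod := l.getD m dflt

/-- replace the module `m` -/
def ms (l : List Mod) (m : ℕ) (x : Mod) : List Mod :=
  (List.range (max l.length (m + 1))).map fun k => bif decide (k = m) then x else mg l k

/-- the length of the common part of two lists (`β` is the second one) -/
def cpl {α : Type} [DecidableEq α] (γ β : List α) : ℕ :=
  (List.range β.length).findIdx fun i => !decide (γ[i]? = β[i]?)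

def dgt (o : Option Bool) : ℕ := o.elim 1 fun b => bif b then 0 else 2

/-- the outcome `τ` is to the left of the outcome `τ'` -/
def olt (τ τ' : Out) : Bool := decide (dgt τ[cpl τ τ']? < dgt τ'[cpl τ τ']?)

/-- the node `β` is injured by a reset of the module `m` of the node `γ` -/
def hurt (γ : Node) (m : ℕ) (β : Node) : Bool :=
  (β[cpl γ β]?).elim false fun t' => (γ[cpl γ β]?).elim (!(t'.getD m false)) fun t => olt t t'

/-- the node `β` has a lower priority than `γ` -/
def low (γ β : Node) : Bool :=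
  (β[cpl γ β]?).elim false fun t' => (γ[cpl γ β]?).elim true fun t => olt t t'

/-- the body of the node `β` -/
def look (L : List Rec) (β : Node) : Option Body :=
  (L[L.findIdx fun ρ => decide (ρ.1 = β)]?).map Prod.snd

/-- the use of the computation found for `J(m)` from `σ` -/
def ju (m : ℕ) (σ : List Bool) : ℕ :=
  (List.range (σ.length + 1)).findIdx fun s => (jst m s σ).isSome

def jy (m : ℕ) (σ : List Bool) : ℕ := (jst m (ju m σ) σ).getD 0

/-- at stage `s` the value `i` is in the `n`-th set of the trace `e`, relative to `ξ` -/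
def tvb (e s n i : ℕ) (ξ : List Bool) : Bool :=
  exB (fun k => wst (ℕ × ℕ × List Bool) e s (n, (i, ξ.take k))) (s + 1)

/-- result of a scan: kind, bits, (value, use).
kind 0: not finished, 1: stuck, 2: start of a module, 3: certification of a module -/
abbrev SR := ℕ × (Out × (ℕ × ℕ))

/-- stage, string of `E`, string of the other side; level, body -/
abbrev SE := (ℕ × (List Bool × List Bool)) × (ℕ × Body)

/-- the module `m` of a node of level `j` and rank `r` has its values at this number -/
def box (j r m : ℕ) : ℕ := Nat.pair (j / 2).unpair.2 (Nat.pair r m)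

def sstep (h : ℕ → ℕ) (ε : SE) (z : SR) : SR :=
  bif decide (z.1 = 0) then
    bif decide (h z.2.1.length < ε.2.2.1.1 + 2) then (0, (z.2.1 ++ [false], (0, 0)))
    else bif decide (h z.2.1.length ≤ (mg ε.2.2.2 z.2.1.length).1) then (1, (z.2.1, (0, 0)))
    else bif (mg ε.2.2.2 z.2.1.length).2.1.1 then
      (bif (mg ε.2.2.2 z.2.1.length).2.1.2 then (0, (z.2.1 ++ [false], (0, 0)))
      else bif tvb (ε.2.1 / 2).unpair.1 ε.1.1 (box ε.2.1 ε.2.2.1.1 z.2.1.length)
        (mg ε.2.2.2 z.2.1.length).1 ε.1.2.2 then (3, (z.2.1, (0, 0)))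
      else (1, (z.2.1, (0, 0))))
    else bif decide (ju z.2.1.length ε.1.2.1 ≤ ε.1.2.1.length) then
      (2, (z.2.1, (jy z.2.1.length ε.1.2.1, ju z.2.1.length ε.1.2.1)))
    else (0, (z.2.1 ++ [true], (0, 0)))
  else z

def scn (h : ℕ → ℕ) (ε : SE) (k : ℕ) : SR :=
  Nat.rec (0, ([], (0, 0))) (fun _ z => sstep h ε z) k

/-- state of the walk: node, (status, bits, (value, use));
status 0: running, 1: new node, 2: start, 3: certification, 4: nothing -/
abbrev WS := Node × SR

/-- stage, strings of `E`, `A`, `B`; records -/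
abbrev WE := (ℕ × (List Bool × (List Bool × List Bool))) × List Rec

/-- the scan of the node `β` with body `b` -/
def sc (h : ℕ → ℕ) (ε : WE) (β : Node) (b : Body) : SR :=
  scn h ((ε.1.1, (ε.1.2.1, bif decide (β.length % 2 = 0) then ε.1.2.2.2 else ε.1.2.2.1)),
    (β.length, b)) ε.1.1

def wb (h : ℕ → ℕ) (ε : WE) (β : Node) (b : Body) : WS :=
  bif decide ((sc h ε β b).1 = 0) then (β, (4, ([], (0, 0))))
  else bif decide ((sc h ε β b).1 = 1) then (β ++ [(sc h ε β b).2.1], (0, ([], (0, 0))))
  else (β, sc h ε β b)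

def wstep (h : ℕ → ℕ) (ε : WE) (z : WS) : WS :=
  bif decide (z.2.1 = 0) then
    (look ε.2 z.1).elim (z.1, (1, ([], (0, 0)))) fun b => wb h ε z.1 b
  else z

def wk (h : ℕ → ℕ) (ε : WE) (k : ℕ) : WS :=
  Nat.rec ([], (0, ([], (0, 0)))) (fun _ z => wstep h ε z) k

/-- the module is reset by the number `a` -/
def hit (a : ℕ) (x : Mod) : Bool := x.2.1.1 && decide (a < x.2.2.2.1)

def rst (a : ℕ) (x : Mod) : Mod :=
  bif hit a x then (x.1 + (bif x.2.1.2 then 1 else 0), ((false, false), (0, (0, 0)))) else x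

def isHurt (a : ℕ) (L : List Rec) (β : Node) : Bool :=
  L.any fun ρ => (List.range ρ.2.2.length).any fun m => hit a (mg ρ.2.2 m) && hurt ρ.1 m β

def phase1 (a : ℕ) (L : List Rec) : List Rec :=
  (L.filter fun ρ => !(isHurt a L ρ.1)).map fun ρ => (ρ.1, (ρ.2.1, ρ.2.2.map (rst a)))

/-- the markers of side `q` which are enumerated -/
def mks (q a : ℕ) (L : List Rec) : List ℕ :=
  L.flatMap fun ρ => bif decide (ρ.1.length % 2 = q) then
    (ρ.2.2.filter (hit a)).map (fun x => x.2.2.2.2) else []

def actS (s : ℕ) (w : WS) (ρ : Rec) : Rec :=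
  bif decide (ρ.1 = w.1) then
    (ρ.1, (ρ.2.1, ms ρ.2.2 w.2.2.1.length
      ((mg ρ.2.2 w.2.2.1.length).1, ((true, false), (w.2.2.2.1, (w.2.2.2.2, s))))))
  else ρ

def actC (s : ℕ) (w : WS) (ρ : Rec) : Rec :=
  bif decide (ρ.1 = w.1) then
    (ρ.1, ((ρ.2.1.1, s), ms ρ.2.2 w.2.2.1.length
      ((mg ρ.2.2 w.2.2.1.length).1, ((true, true), (mg ρ.2.2 w.2.2.1.length).2.2))))
  else ρ

def phase2 (s : ℕ) (w : WS) (L : List Rec) : List Rec :=
  bif decide (w.2.1 = 1) then L ++ [(w.1, ((s, 0), []))]
  else bif decide (w.2.1 = 2) then L.map (actS s w)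
  else bif decide (w.2.1 = 3) then (L.filter fun ρ => !(low w.1 ρ.1)).map (actC s w)
  else L

/-- the initial segment of length `n` of the set of the elements of the list -/
def cs (l : List ℕ) (n : ℕ) : List Bool := (List.range n).map fun x => decide (x ∈ l)

/-- records; elements of `A`, elements of `B` -/
abbrev ST := List Rec × (List ℕ × List ℕ)

def env (a s : ℕ) (el : List ℕ) (S : ST) : WE :=
  ((s, (cs el (min a s), (cs (S.2.1 ++ mks 0 a S.1) s, cs (S.2.2 ++ mks 1 a S.1) s))),
    phase1 a S.1)

def step (h : ℕ → ℕ) (a s : ℕ) (el : List ℕ) (S : ST) : ST :=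
  (phase2 s (wk h (env a s el S) (s + 1)) (phase1 a S.1),
    (S.2.1 ++ mks 0 a S.1, S.2.2 ++ mks 1 a S.1))

/-- the state before stage `s`, for the enumeration `f` of `E` -/
def stt (h f : ℕ → ℕ) (s : ℕ) : ST :=
  Nat.rec ([], ([], [])) (fun n S => step h (f n) n ((List.range (n + 1)).map f) S) s

end Pool.Agent.U35.SJ
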