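import Pool.Agent.U35.SJ.Mach

set_option autoImplicit false

/-! The order of the nodes. -/

namespace Pool.Agent.U35.SJ

open Pool.Agent.Helper446.RE

section cpl
variable {α : Type} [DecidableEq α]

@[simp] theorem cpl_nil (γ : List α) : cpl γ [] = 0 := rfl

@[simp] theorem cpl_nil_cons (b : α) (β : List α) : cpl [] (b :: β) = 0 := by
  unfold cpl
  rw [List.length_cons, List.range_succ_eq_map, List.findIdx_cons]
  simp

theorem cpl_cons (a b : α) (γ β : List α) :
    cpl (a :: γ) (b :: β) = if a = b then cpl γ β + 1 else 0 := by
  unfold cpl
  rw [List.length_cons, List.range_succ_eq_map, List.findIdx_cons]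
  by_cases h : a = b
  · subst h
    simp only [List.getElem?_cons_zero, decide_true, Bool.not_true, cond_false, if_true,
      List.findIdx_map]
    rfl
  · simp [h]

@[simp] theorem cpl_self (β : List α) : cpl β β = β.length := by
  induction β with
  | nil => rfl
  | cons b β ih => rw [cpl_cons]; simp [ih]

end cpl

@[simp] theorem olt_nil_nil : olt [] [] = false := rfl

@[simp] theorem olt_nil_cons (b : Bool) (τ : Out) : olt [] (b :: τ) = !b := by
  unfold olt
  rw [cpl_nil_cons]
  cases b <;> rfl

@[simp] theorem olt_cons_nil (b : Bool) (τ : Out) : olt (b :: τ) [] = b := by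
  unfold olt
  rw [cpl_nil]
  cases b <;> rfl

theorem olt_cons (b b' : Bool) (τ τ' : Out) :
    olt (b :: τ) (b' :: τ') = if b = b' then olt τ τ' else b := by
  unfold olt
  rw [cpl_cons]
  by_cases h : b = b'
  · subst h; simp
  · rw [if_neg h, if_neg h]
    cases b <;> cases b' <;> first | rfl | (exact absurd rfl h)

@[simp] theorem olt_self (τ : Out) : olt τ τ = false := by
  induction τ with
  | nil => rfl
  | cons b τ ih => rw [olt_cons]; simpa using ih

@[simp] theorem hurt_nil (γ : Node) (m : ℕ) : hurt γ m [] = false := rfl

@[simp] theorem hurt_nil_cons (m : ℕ) (t : Out) (β : Node) :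
    hurt [] m (t :: β) = !(t.getD m false) := by
  unfold hurt
  rw [cpl_nil_cons]
  rfl

theorem hurt_cons (t t' : Out) (m : ℕ) (γ β : Node) :
    hurt (t :: γ) m (t' :: β) = if t = t' then hurt γ m β else olt t t' := by
  unfold hurt
  rw [cpl_cons]
  by_cases h : t = t'
  · subst h; simp
  · rw [if_neg h, if_neg h]; rfl

@[simp] theorem low_nil (γ : Node) : low γ [] = false := rfl

@[simp] theorem low_nil_cons (t : Out) (β : Node) : low [] (t :: β) = true := by
  unfold low
  rw [cpl_nil_cons]
  rfl

theorem low_cons (t t' : Out) (γ β : Node) :
    low (t :: γ) (t' :: β) = if t = t' then low γ β else olt t t' := by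
  unfold low
  rw [cpl_cons]
  by_cases h : t = t'
  · subst h; simp
  · rw [if_neg h, if_neg h]; rfl

@[simp] theorem low_self (β : Node) : low β β = false := by
  induction β with
  | nil => rfl
  | cons t β ih => rw [low_cons]; simpa using ih

@[simp] theorem hurt_self (β : Node) (m : ℕ) : hurt β m β = false := by
  induction β with
  | nil => rfl
  | cons t β ih => rw [hurt_cons]; simpa using ih

/-- if `γ` is not of lower priority than `β`, then it hurts `β`, is equal to `β`, or is a proper
part of `β` whose next outcome has the bit `true` at `m` -/
theorem hurt_or (γ : Node) (m : ℕ) (β : Node) (h : low β γ = false) :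
    hurt γ m β = true ∨ γ = β ∨
      ∃ τ β', β = γ ++ τ :: β' ∧ τ.getD m false = true := by
  induction γ generalizing β with
  | nil =>
    cases β with
    | nil => exact Or.inr (Or.inl rfl)
    | cons t β =>
      rw [hurt_nil_cons]
      cases hb : t.getD m false with
      | false => exact Or.inl rfl
      | true => exact Or.inr (Or.inr ⟨t, β, rfl, hb⟩)
  | cons t γ ih =>
    cases β with
    | nil => simp at h
    | cons t' β =>
      rw [low_cons] at h
      rw [hurt_cons]
      by_cases ht : t = t'
      · subst ht
        rw [if_pos rfl] at h ⊢
        rcases ih β h with h1 | h1 | ⟨τ, β', h1, h2⟩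
        · exact Or.inl h1
        · exact Or.inr (Or.inl (by rw [h1]))
        · exact Or.inr (Or.inr ⟨τ, β', by rw [h1]; rfl, h2⟩)
      · rw [if_neg (fun h => ht h.symm)] at h
        rw [if_neg ht]
        left
        -- trichotomy of outcomes
        revert h ht
        clear ih
        induction t generalizing t' with
        | nil =>
          cases t' with
          | nil => intro _ ht; exact absurd rfl ht
          | cons b' t' => intro h _; simpa using h
        | cons b t ih =>
          cases t' with
          | nil => intro h _; simpa using h
          | cons b' t' =>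
            intro h ht
            rw [olt_cons] at h ⊢
            by_cases hb : b = b'
            · subst hb
              rw [if_pos rfl] at h ⊢
              exact ih t' h (fun h1 => ht (by rw [h1]))
            · rw [if_neg (fun h => hb h.symm)] at h
              rw [if_neg hb]
              cases b <;> cases b' <;> simp_all

theorem olt_append (τ τ' : Out) (h : olt τ τ' = true) : τ ≠ τ' := by
  rintro rfl
  simp at h

/-- the nodes hurting `β ++ [τ]` -/
theorem hurt_snoc (γ : Node) (m : ℕ) (β : Node) (τ : Out) (h : hurt γ m (β ++ [τ]) = true) :
    hurt γ m β = true ∨ (γ = β ∧ τ.getD m false = false) ∨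
      ∃ τ' γ', γ = β ++ τ' :: γ' ∧ olt τ' τ = true := by
  induction β generalizing γ with
  | nil =>
    cases γ with
    | nil =>
      right; left
      rw [List.nil_append, hurt_nil_cons] at h
      exact ⟨rfl, by simpa using h⟩
    | cons t γ =>
      rw [List.nil_append, hurt_cons] at h
      by_cases ht : t = τ
      · subst ht
        rw [if_pos rfl] at h
        simp at h
      · rw [if_neg ht] at h
        right; right
        exact ⟨t, γ, rfl, h⟩
  | cons t' β ih =>
    cases γ with
    | nil =>
      left
      rw [List.cons_append, hurt_nil_cons] at h
      rw [hurt_nil_cons]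
      exact h
    | cons t γ =>
      rw [List.cons_append, hurt_cons] at h
      rw [hurt_cons]
      by_cases ht : t = t'
      · subst ht
        rw [if_pos rfl] at h ⊢
        rcases ih γ h with h1 | ⟨h1, h2⟩ | ⟨τ', γ', h1, h2⟩
        · exact Or.inl h1
        · exact Or.inr (Or.inl ⟨by rw [h1], h2⟩)
        · exact Or.inr (Or.inr ⟨τ', γ', by rw [h1]; rfl, h2⟩)
      · rw [if_neg ht] at h ⊢
        exact Or.inl h

theorem low_snoc (γ : Node) (β : Node) (τ : Out) (h : low γ (β ++ [τ]) = true) :
    low γ β = true ∨ γ = β ∨ ∃ τ' γ', γ = β ++ τ' :: γ' ∧ olt τ' τ = true := by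
  induction β generalizing γ with
  | nil =>
    cases γ with
    | nil => right; left; rfl
    | cons t γ =>
      rw [List.nil_append, low_cons] at h
      by_cases ht : t = τ
      · subst ht
        rw [if_pos rfl] at h
        simp at h
      · rw [if_neg ht] at h
        right; right
        exact ⟨t, γ, rfl, h⟩
  | cons t' β ih =>
    cases γ with
    | nil =>
      left
      simp
    | cons t γ =>
      rw [List.cons_append, low_cons] at h
      rw [low_cons]
      by_cases ht : t = t'
      · subst ht
        rw [if_pos rfl] at h ⊢
        rcases ih γ h with h1 | h1 | ⟨τ', γ', h1, h2⟩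
        · exact Or.inl h1
        · exact Or.inr (Or.inl (by rw [h1]))
        · exact Or.inr (Or.inr ⟨τ', γ', by rw [h1]; rfl, h2⟩)
      · rw [if_neg ht] at h ⊢
        exact Or.inl h

/-- order of the outcomes in terms of the bits of the outcome of a scan -/
theorem not_olt_of {τ' τ : Out} (h : ∀ m < τ'.length, τ'.getD m false = true →
      m < τ.length ∧ τ.getD m false = true)
    (h2 : ∀ m < τ'.length, m < τ.length → τ'.getD m false = false → True)
    (h3 : τ'.length < τ.length → τ' = τ.take τ'.length → τ.getD τ'.length false = true) :
    olt τ' τ = false := by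
  induction τ' generalizing τ with
  | nil =>
    cases τ with
    | nil => rfl
    | cons b τ =>
      rw [olt_nil_cons]
      have := h3 (by simp) rfl
      simpa using this
  | cons b' τ' ih =>
    cases τ with
    | nil =>
      rw [olt_cons_nil]
      by_contra hb
      have hb' : b' = true := by simpa using hb
      have := (h 0 (by simp) (by simpa using hb')).1
      simp at this
    | cons b τ =>
      rw [olt_cons]
      by_cases hb : b' = b
      · subst hb
        rw [if_pos rfl]
        refine ih ?_ (fun _ _ _ _ => trivial) ?_
        · intro m hm hm2
          have := h (m + 1) (by simpa using hm) (by simpa using hm2)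
          simpa using this
        · intro h4 h5
          have := h3 (by simpa using h4) (by simpa using h5)
          simpa using this
      · rw [if_neg hb]
        by_contra hb2
        have hb' : b' = true := by simpa using hb2
        have := (h 0 (by simp) (by simpa using hb')).2
        simp only [List.getD_cons_zero] at this
        exact hb (by rw [hb', this])

end Pool.Agent.U35.SJ
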