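import Pool.Agent.U35.SJ.Trace

set_option autoImplicit false

/-! The true path. -/

namespace Pool.Agent.U35.SJ

open Pool.Agent.Helper446 Pool.Agent.Helper446.RE

variable {h f : ℕ → ℕ}

theorem lim_mono {l : ℕ → List ℕ} (hm : ∀ s t x, s ≤ t → x ∈ l s → x ∈ l t) :
    Lim l {x | ∃ s, x ∈ l s} := by
  intro u
  induction u with
  | zero => exact ⟨0, fun _ _ x hx => absurd hx (Nat.not_lt_zero _)⟩
  | succ u ih =>
    obtain ⟨N, hN⟩ := ih
    by_cases hu : ∃ s, u ∈ l s
    · obtain ⟨t, ht⟩ := hu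
      refine ⟨max N t, fun s hs x hx => ?_⟩
      rcases Nat.lt_succ_iff_lt_or_eq.1 hx with h1 | rfl
      · exact hN s (by omega) x h1
      · exact ⟨fun h2 => ⟨s, h2⟩, fun _ => hm t s x (by omega) ht⟩
    · refine ⟨N, fun s hs x hx => ?_⟩
      rcases Nat.lt_succ_iff_lt_or_eq.1 hx with h1 | rfl
      · exact hN s (by omega) x h1
      · exact ⟨fun h2 => ⟨s, h2⟩, fun h3 => absurd h3 hu⟩

/-- the set constructed on the side `q` -/
def XX (h f : ℕ → ℕ) (q : ℕ) : Set ℕ := {x | ∃ s, x ∈ sd h f q s}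

theorem lim_sd (q : ℕ) : Lim (sd h f q) (XX h f q) :=
  lim_mono fun _ _ _ hst hx => sd_mono hst hx

theorem XX_mod {q q' : ℕ} (hq : q % 2 = q' % 2) : XX h f q = XX h f q' := by
  unfold XX
  simp only [sd_mod hq]

theorem pers_of {s : ℕ} {β : Node} {b : Body} (hb : bd h f s β = some b)
    (hq : ∀ s' ≥ s, ¬ hu h f s' β ∧ ¬ rem h f s' β) : Pers h f β b.1.1 s := by
  have key : ∀ s' ≥ s, ∃ b', bd h f s' β = some b' ∧ b'.1.1 = b.1.1 := by
    intro s' hs'
    induction s', hs' using Nat.le_induction with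
    | base => exact ⟨b, hb, rfl⟩
    | succ s' hs' ih =>
      obtain ⟨b', h1, h2⟩ := ih
      obtain ⟨b'', h3, h4, _⟩ := bd_keep h1 (hq s' hs').1 (hq s' hs').2
      exact ⟨b'', h3, h4.trans h2⟩
  intro s' hs'
  obtain ⟨b', h1, h2⟩ := key s' hs'
  have h3 : cur h f β s' = b' := by
    unfold cur
    rw [h1]; rfl
  exact ⟨by rw [h1, h3], by rw [h3]; exact h2⟩

theorem new_bd {s : ℕ} {β : Node} (hn : New h f s β) :
    bd h f (s + 1) β = some ((s, 0), []) := by
  have h1 := (new_spec hn).2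
  unfold bd
  rw [LL_succ, phase2_1 hn.1, hn.2, look_append_single _ _ _ h1, if_pos rfl]

section path
variable {β : Node} {r s0 : ℕ}

/-- final data of a node: the outcome `τ` is right from the stage `s1` on -/
structure Fnl (h f : ℕ → ℕ) (β : Node) (s0 s1 : ℕ) (τ : Out) : Prop where
  le : s0 ≤ s1
  lβ : β.length < s1
  lτ : τ.length < s1
  bf : ∀ s ≥ s1, ∀ m < τ.length, τ.getD m false = false → BK h f β s m false
  bt : ∀ s ≥ s1, TS f s → ∀ m < τ.length, BK h f β s m (τ.getD m false)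
  st : ∀ s ≥ s1, SK h f β s τ.length
  ce : ∀ s ≥ s1, ∀ m, ¬ Cer h f s β m

theorem not_bit_of_stuck {σ : List Bool} {r : ℕ} {l : List Mod} {m : ℕ} (hs : stuck h r l m)
    (b : Bool) : ¬ bitOK h σ r l m b := by
  intro hb
  obtain ⟨s1, s2⟩ := hs
  unfold bitOK at hb
  cases b
  · simp only [Bool.false_eq_true, if_false] at hb
    rcases hb with a1 | ⟨a1, a2, a3⟩
    · exact s1 a1
    · rcases s2 with s2 | ⟨_, _, s3⟩
      · omega
      · rw [a3] at s3; exact absurd s3 (by decide)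
  · simp only [if_true] at hb
    obtain ⟨b1, b2, b3, b4⟩ := hb
    rcases s2 with s2 | ⟨_, s3, _⟩
    · omega
    · rw [b3] at s3; exact absurd s3 (by decide)

theorem Pers.bp_pb (hp : Pers h f β r s0) {s : ℕ} (hs : s0 ≤ s) {b : Body}
    (hb : Pool.Agent.U35.SJ.bp h f s β = some b) : b = pb h f β s := by
  rw [hp.bp hs] at hb
  exact (Option.some.inj hb).symm

theorem Pers.exists_fnl (hp : Pers h f β r s0) (hv : Vis h f β s0) (hord : IsOrder h)
    (hf : Computable f) (hinj : Function.Injective f) (hE : NoTr h (Set.range f)) :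
    ∃ τ s1, Fnl h f β s0 s1 τ := by
  obtain ⟨k0, h1, s2, h2⟩ := hp.exists_stk hv hord hf hinj hE
  obtain ⟨τ, g1, _, _, s3, g4, g5⟩ := settled_bits h1
  obtain ⟨s4, h4⟩ := hp.cer_fin_lt (k0 + 1)
  refine ⟨τ, max (max (max s0 s2) (max s3 s4)) (max (β.length + 1) (k0 + 1)), ?_, ?_, ?_, ?_,
    ?_, ?_, ?_⟩
  · omega
  · omega
  · omega
  · intro s hs m hm
    exact g4 s (by omega) m (by omega)
  · intro s hs hts m hm
    exact g5 s (by omega) hts m (by omega)
  · intro s hs
    rw [g1]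
    exact h2 s (by omega)
  · intro s hs m hc
    have h5 := h4 s (by omega) m
    obtain ⟨_, b, c1, c2, ⟨τ', c3, c4⟩, c5⟩ := cer_spec hc
    have hb := hp.bp_pb (by omega) c1
    subst hb
    rcases Nat.lt_or_ge m (k0 + 1) with h6 | h6
    · exact h5 h6 hc
    · have := c4 k0 (by omega)
      exact not_bit_of_stuck (h2 s (by omega)) _ this

variable {s1 : ℕ} {τ : Out}

theorem Fnl.reach (F : Fnl h f β s0 s1 τ) (hp : Pers h f β r s0) (hv : Vis h f β s0) {t : ℕ}
    (ht : s1 ≤ t) (hts : TS f t) : rch h (EE h f t) (β ++ [τ]) := by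
  have hle := F.le
  have hlb := F.lβ
  have hlt := F.lτ
  have hr := hv t (by omega) hts
  have hb : bits h (sε h f t β (pb h f β t)) τ := bits_of (F.bt t ht hts)
  have hst : stuck h (sε h f t β (pb h f β t)).2.2.1.1 (sε h f t β (pb h f β t)).2.2.2 τ.length :=
    F.st t ht
  have htst : (mg (sε h f t β (pb h f β t)).2.2.2 τ.length).1 < h τ.length →
      tst (sε h f t β (pb h f β t)) τ.length = false := by
    intro hi
    by_contra hcon
    have hcon' : tst (sε h f t β (pb h f β t)) τ.length = true := by simpa using hcon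
    have h3 : fin3 h (sε h f t β (pb h f β t)) τ.length := by
      obtain ⟨a1, a2⟩ := hst
      rcases a2 with a2 | ⟨a2, a3, a4⟩
      · omega
      · exact ⟨a1, a2, a3, a4, hcon'⟩
    exact F.ce t ht _ (hp.cer_of (by omega) hr (by omega) (by omega) hb h3)
  have h1 := scn_stuck (k := t) (by omega) hb hst htst
  refine rch_snoc.2 ⟨hr, pb h f β t, hp.look (by omega), ?_, ?_⟩
  · rw [scan_eq, h1]
  · rw [scan_eq, h1]

theorem Fnl.no_sta (F : Fnl h f β s0 s1 τ) (hp : Pers h f β r s0) {s : ℕ} (hs : s1 ≤ s)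
    {m y u : ℕ} (hst : Sta h f s β m y u) : τ.getD m false = true := by
  have hle := F.le
  obtain ⟨_, b, c1, c2, ⟨τ', c3, c4⟩, c5, _⟩ := sta_spec hst
  have hb := hp.bp_pb (by omega) c1
  subst hb
  rcases Nat.lt_trichotomy m τ.length with h6 | h6 | h6
  · by_contra hcon
    have h7 := F.bf s hs m h6 (by simpa using hcon)
    exact not_bit_of_fin2 c5 _ h7
  · exfalso
    obtain ⟨a1, a2, a3, a4⟩ := c5
    have h8 := (F.st s hs).2
    rw [← h6] at h8
    rcases h8 with h8 | ⟨_, h8, _⟩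
    · have a2' : (mg (pb h f β s).2 m).1 < h m := a2
      omega
    · have a3' : (mg (pb h f β s).2 m).2.1.1 = false := a3
      rw [h8] at a3'
      exact absurd a3' (by decide)
  · exfalso
    exact not_bit_of_stuck (F.st s hs) _ (c4 τ.length (by omega))

theorem Fnl.not_left (F : Fnl h f β s0 s1 τ) (hp : Pers h f β r s0) {s : ℕ} (hs : s1 ≤ s)
    {τ' : Out} {γ : Node} (hr : rch h (EE h f s) (β ++ τ' :: γ)) : olt τ' τ = false := by
  have hle := F.le
  obtain ⟨_, b, c1, c2, c3⟩ := rch_split hr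
  have hb : b = pb h f β s := hp.bp_pb (by omega) c1
  subst hb
  rw [scan_eq] at c2 c3
  obtain ⟨d1, d2⟩ := scn_spec (h := h) (sε h f s β (pb h f β s)) s
  have d3 : fin1 h (sε h f s β (pb h f β s)) τ'.length := by
    rcases d2 with ⟨d2, _⟩ | ⟨_, ⟨_, d2, _⟩ | ⟨d2, _⟩ | ⟨d2, _⟩⟩
    · omega
    · rw [c3] at d2; exact d2
    · omega
    · omega
  rw [c3] at d1
  refine not_olt_of ?_ (fun _ _ _ _ => trivial) ?_
  · intro m hm hm2
    have h1 : BK h f β s m true := by
      have := d1 m hm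
      rw [hm2] at this
      exact this
    rcases Nat.lt_trichotomy m τ.length with h6 | h6 | h6
    · refine ⟨h6, ?_⟩
      by_contra hcon
      have h7 := F.bf s hs m h6 (by simpa using hcon)
      exact absurd (bit_unique h7 h1) (by decide)
    · exfalso
      rw [h6] at h1
      exact not_bit_of_stuck (F.st s hs) _ h1
    · exfalso
      exact not_bit_of_stuck (F.st s hs) _ (d1 τ.length (by omega))
  · intro h1 _
    by_contra hcon
    have h7 := F.bf s hs _ h1 (by simpa using hcon)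
    exact not_bit_of_fin1 d3 _ h7

theorem Fnl.quiet (F : Fnl h f β s0 s1 τ) (hp : Pers h f β r s0) :
    ∃ S ≥ s1, ∀ s ≥ S, ¬ hu h f s (β ++ [τ]) ∧ ¬ rem h f s (β ++ [τ]) := by
  have hle := F.le
  obtain ⟨N0, hN0⟩ := lim_sd (h := h) (f := f) 0 s1
  obtain ⟨N1, hN1⟩ := lim_sd (h := h) (f := f) 1 s1
  refine ⟨max s1 (max N0 N1), by omega, fun s hs => ⟨?_, ?_⟩⟩
  · intro hh
    obtain ⟨γ, b, m, h1, h2, h3⟩ := (hu_iff s _).1 hh
    have ha := ((hit_iff _ _).1 h2).1
    have hsta := act_sta h1 ha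
    have hx : (mg b.2 m).2.2.2.2 < s1 := by
      by_contra hcon
      rw [not_lt] at hcon
      rcases hurt_snoc γ m β τ h3 with h4 | ⟨h4, h5⟩ | ⟨τ', γ', h4, h5⟩
      · exact (hp.next (s := s) (by omega)).1 ((hu_iff s β).2 ⟨γ, b, m, h1, h2, h4⟩)
      · subst h4
        rw [F.no_sta hp hcon hsta] at h5
        exact absurd h5 (by decide)
      · subst h4
        rw [F.not_left hp hcon (sta_spec hsta).1] at h5
        exact absurd h5 (by decide)
    have h6 := ((inv (h := h) (f := f) s).ac γ b m h1 ha).2.2.2.2.2.2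
    have h7 : (mg b.2 m).2.2.2.2 ∈ sd h f γ.length (s + 1) :=
      (mem_sd_succ _ _ _).2 (Or.inr ⟨γ, b, m, h1, rfl, h2, rfl⟩)
    rcases Nat.mod_two_eq_zero_or_one γ.length with h8 | h8
    · have h9 : γ.length % 2 = 0 % 2 := h8
      rw [sd_mod h9] at h7
      exact h6 0 ((hN0 s (by omega) _ hx).2 ⟨_, h7⟩)
    · have h9 : γ.length % 2 = 1 % 2 := h8
      rw [sd_mod h9] at h7
      exact h6 1 ((hN1 s (by omega) _ hx).2 ⟨_, h7⟩)
  · rintro ⟨h1, h2⟩
    rcases low_snoc _ β τ h2 with h3 | h3 | ⟨τ', γ', h3, h4⟩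
    · exact (hp.next (s := s) (by omega)).2.1 ⟨h1, h3⟩
    · exact F.ce s (by omega) _ ⟨h1, h3, rfl⟩
    · have h5 := rch_of_WW (h := h) (f := f) (s := s) (Or.inr (Or.inr h1))
      rw [h3] at h5
      rw [F.not_left hp (by omega) h5] at h4
      exact absurd h4 (by decide)

theorem path (hord : IsOrder h) (hf : Computable f) (hinj : Function.Injective f)
    (hE : NoTr h (Set.range f)) (j : ℕ) :
    ∃ β r s0, β.length = j ∧ Pers h f β r s0 ∧ Vis h f β s0 := by
  induction j with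
  | zero =>
    have h1 : bp h f 0 [] = none := by
      cases hb : bp h f 0 [] with
      | none => rfl
      | some b =>
        obtain ⟨_, b0, h2, _⟩ := bp_some hb
        rw [bd_zero] at h2
        exact absurd h2 (by simp)
    have h2 : New h f 0 [] := by
      have := walk_of_rch_none (h := h) (rch_nil (EE h f 0)) h1 (n := 1) (by decide)
      unfold New WW
      rw [zero_add, this]
      exact ⟨rfl, rfl⟩
    have h3 := new_bd h2
    refine ⟨[], 0, 1, rfl, ?_, fun t _ _ => rch_nil _⟩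
    refine pers_of (b := ((0, 0), [])) h3 fun s' _ => ⟨?_, ?_⟩
    · intro hh
      obtain ⟨γ, b, m, _, _, h4⟩ := (hu_iff s' _).1 hh
      rw [hurt_nil] at h4
      exact absurd h4 (by decide)
    · rintro ⟨_, h4⟩
      rw [low_nil] at h4
      exact absurd h4 (by decide)
  | succ j ih =>
    obtain ⟨β, r, s0, hlen, hp, hv⟩ := ih
    obtain ⟨τ, s1, F⟩ := hp.exists_fnl hv hord hf hinj hE
    obtain ⟨S, hS, hq⟩ := F.quiet hp
    obtain ⟨t, ht, hts⟩ := TS_inf hinj S
    have hr := F.reach hp hv (t := t) (by omega) hts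
    have hlb := F.lβ
    have hex : ∃ b, bd h f (t + 1) (β ++ [τ]) = some b := by
      cases hb : bp h f t (β ++ [τ]) with
      | none =>
        have h1 := walk_of_rch_none (h := h) hr hb (n := t + 1) (by simp; omega)
        have h2 : New h f t (β ++ [τ]) := by
          unfold New WW
          rw [h1]
          exact ⟨rfl, rfl⟩
        exact ⟨_, new_bd h2⟩
      | some b =>
        obtain ⟨_, b0, h2, _⟩ := bp_some hb
        obtain ⟨b', h3, _⟩ := bd_keep h2 (hq t ht).1 (hq t ht).2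
        exact ⟨b', h3⟩
    obtain ⟨b, hb⟩ := hex
    refine ⟨β ++ [τ], b.1.1, t + 1, by simp [hlen], pers_of hb fun s' hs' => hq s' (by omega),
      fun t' ht' hts' => F.reach hp hv (by omega) hts'⟩

end path

end Pool.Agent.U35.SJ
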