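import Pool.Agent.U35.SJ.Inv

set_option autoImplicit false

/-! Records and modules over time. -/

namespace Pool.Agent.U35.SJ

open Pool.Agent.Helper446.RE

variable {h f : ℕ → ℕ}

/-- a record with the rank `r` which exists at stage `s` existed since the stage `r + 1` -/
theorem rank_pers {s : ℕ} {β : Node} {b : Body} (hb : bd h f s β = some b) :
    ∀ t, b.1.1 < t → t ≤ s → ∃ c, bd h f t β = some c ∧ c.1.1 = b.1.1 := by
  induction s generalizing b with
  | zero => rw [bd_zero] at hb; exact absurd hb (by simp)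
  | succ s ih =>
    intro t h1 h2
    rcases Nat.lt_or_ge s t with h3 | h3
    · have : t = s + 1 := by omega
      subst this
      exact ⟨b, hb, rfl⟩
    · rcases old_spec hb with ⟨_, g⟩ | ⟨b0, g1, _, _, g2, _⟩
      · rw [g] at h1
        simp only at h1
        omega
      · rw [g2] at h1 ⊢
        exact ih g1 t h1 h3

theorem rank_new {s : ℕ} {β : Node} {b : Body} (hb : bd h f s β = some b) :
    New h f b.1.1 β := by
  obtain ⟨h1, -⟩ := (inv (h := h) (f := f) s).rk β b hb
  obtain ⟨c, h2, h3⟩ := rank_pers hb (b.1.1 + 1) (Nat.lt_succ_self _) h1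
  rcases old_spec h2 with ⟨g, _⟩ | ⟨b0, g1, _, _, g2, _⟩
  · exact g
  · have := ((inv (h := h) (f := f) b.1.1).rk β b0 g1).1
    omega

theorem rank_inj {s s' : ℕ} {β β' : Node} {b b' : Body} (hb : bd h f s β = some b)
    (hb' : bd h f s' β' = some b') (hr : b.1.1 = b'.1.1) : β = β' := by
  have h1 := rank_new hb
  have h2 := rank_new hb'
  rw [hr] at h1
  exact h1.2.symm.trans h2.2

/-- an active module with the marker `x` was started at the stage `x` -/
theorem act_sta {s : ℕ} {β : Node} {b : Body} {m : ℕ} (hb : bd h f s β = some b)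
    (ha : (mg b.2 m).2.1.1 = true) :
    Sta h f (mg b.2 m).2.2.2.2 β m (mg b.2 m).2.2.1 (mg b.2 m).2.2.2.1 := by
  induction s generalizing b with
  | zero => rw [bd_zero] at hb; exact absurd hb (by simp)
  | succ s ih =>
    rcases old_spec hb with ⟨_, g⟩ | ⟨b0, g1, _, _, g2, _, g3⟩
    · rw [g, mg_nil] at ha; exact absurd ha Bool.false_ne_true
    · rcases act_old (g3 m) ha with ⟨k1, k2, k3, k4, k5, k6⟩ | ⟨y, u, k1, k2⟩
      · rw [k6]; exact ih g1 k1
      · rw [k2]; exact k1

/-- an active module stays active with the same data, or its marker is enumerated -/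
theorem act_evo {s s' : ℕ} (hs : s ≤ s') {β : Node} {b b' : Body} {m : ℕ}
    (hb : bd h f s β = some b) (hb' : bd h f s' β = some b') (hr : b'.1.1 = b.1.1)
    (ha : (mg b.2 m).2.1.1 = true) :
    ((mg b'.2 m).2.1.1 = true ∧ (mg b'.2 m).1 = (mg b.2 m).1 ∧ (mg b'.2 m).2.2 = (mg b.2 m).2.2) ∨
      (mg b.2 m).2.2.2.2 ∈ sd h f β.length s' := by
  induction s', hs using Nat.le_induction generalizing b' with
  | base =>
    rw [hb] at hb'
    obtain rfl := Option.some.inj hb'
    exact Or.inl ⟨ha, rfl, rfl⟩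
  | succ s' hs ih =>
    have hrk := ((inv (h := h) (f := f) s).rk β b hb).1
    rcases old_spec hb' with ⟨_, g⟩ | ⟨b0, g1, g4, _, g2, _, g3⟩
    · rw [g] at hr
      simp only at hr
      omega
    · rcases ih g1 (by rw [← g2, hr]) with ⟨k1, k2, k3⟩ | k1
      · cases hh : hit (f s') (mg b0.2 m) with
        | true =>
          right
          rw [mem_sd_succ]
          right
          exact ⟨β, b0, m, g1, rfl, hh, by rw [k3]⟩
        | false =>
          left
          have e := rst_of_not hh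
          rcases g3 m with e1 | ⟨y, u, _, e0, e1⟩ | ⟨_, e0, e1⟩
          · rw [e1, e]; exact ⟨k1, k2, k3⟩
          · rw [e, k1] at e0; exact absurd e0.symm Bool.false_ne_true
          · rw [e1, e]; exact ⟨rfl, k2, k3⟩
      · right; exact sd_mono (Nat.le_succ _) k1

/-- the current body -/
def cur (h f : ℕ → ℕ) (β : Node) (s : ℕ) : Body := (bd h f s β).getD ((0, 0), [])

/-- the record of `β` with rank `r` exists from stage `s0` on -/
def Pers (h f : ℕ → ℕ) (β : Node) (r s0 : ℕ) : Prop :=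
  ∀ s ≥ s0, bd h f s β = some (cur h f β s) ∧ (cur h f β s).1.1 = r

/-- the module `k` before the stage `s` -/
def MM (h f : ℕ → ℕ) (β : Node) (s k : ℕ) : Mod := mg (cur h f β s).2 k

/-- the module `k` after the first phase of the stage `s` -/
def PP (h f : ℕ → ℕ) (β : Node) (s k : ℕ) : Mod := rst (f s) (MM h f β s k)

section pers
variable {β : Node} {r s0 : ℕ}

theorem Pers.next (hp : Pers h f β r s0) {s : ℕ} (hs : s0 ≤ s) :
    ¬ hu h f s β ∧ ¬ rem h f s β ∧
      (((cur h f β (s + 1)).1.2 = (cur h f β s).1.2 ∧ ∀ m, ¬ Cer h f s β m) ∨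
        ((cur h f β (s + 1)).1.2 = s ∧ ∃ m, Cer h f s β m)) ∧
      ∀ k, MT h f s β k (MM h f β s k) (MM h f β (s + 1) k) := by
  obtain ⟨h1, h2⟩ := hp s hs
  obtain ⟨h3, h4⟩ := hp (s + 1) (by omega)
  have hlt := ((inv (h := h) (f := f) s).rk β _ h1).1
  rcases old_spec h3 with ⟨_, g⟩ | ⟨b0, g1, g2, g3, g4, g5, g6⟩
  · rw [g] at h4
    simp only at h4
    omega
  · rw [h1] at g1
    obtain rfl := Option.some.inj g1
    exact ⟨g2, g3, g5, g6⟩

theorem Pers.bp (hp : Pers h f β r s0) {s : ℕ} (hs : s0 ≤ s) :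
    bp h f s β = some (rb (f s) (cur h f β s)) :=
  bp_of_bd (hp s hs).1 (hp.next hs).1

theorem PP_eq (s k : ℕ) : mg (rb (f s) (cur h f β s)).2 k = PP h f β s k := by
  unfold PP MM
  rw [mg_rb]

/-- progress measure of a module -/
def mu (x : Mod) : ℕ := 2 * x.1 + (bif x.2.1.2 then 1 else 0)

theorem Pers.ct (hp : Pers h f β r s0) {s : ℕ} (hs : s0 ≤ s) {k : ℕ}
    (hc : (MM h f β s k).2.1.2 = true) : (MM h f β s k).2.1.1 = true :=
  (inv (h := h) (f := f) s).ct β _ k (hp s hs).1 hc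

theorem mu_rst (a : ℕ) (x : Mod) : mu x ≤ mu (rst a x) := by
  cases hh : hit a x with
  | false => rw [rst_of_not hh]
  | true =>
    rw [rst_of_hit hh]
    unfold mu
    cases x.2.1.2 <;> simp only [cond_false, cond_true] <;> omega

theorem Pers.mu_mono (hp : Pers h f β r s0) {s : ℕ} (hs : s0 ≤ s) (k : ℕ) :
    mu (MM h f β s k) ≤ mu (MM h f β (s + 1) k) := by
  have h1 := mu_rst (f s) (MM h f β s k)
  rcases (hp.next hs).2.2.2 k with e1 | ⟨y, u, _, e0, e1⟩ | ⟨_, e0, e1⟩
  · rw [e1]; exact h1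
  · have h2 : (rst (f s) (MM h f β s k)).2.1.2 = false := by
      cases hh : hit (f s) (MM h f β s k) with
      | true => rw [rst_of_hit hh]
      | false =>
        rw [rst_of_not hh] at e0 ⊢
        cases hc : (MM h f β s k).2.1.2 with
        | false => rfl
        | true => rw [hp.ct hs hc] at e0; exact e0
    rw [e1]
    unfold mu at h1 ⊢
    rw [h2] at h1
    simp only [cond_false] at h1 ⊢
    exact h1
  · rw [e1]
    unfold mu at h1 ⊢
    rw [e0] at h1
    simp only [cond_false, cond_true] at h1 ⊢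
    omega

theorem Pers.mu_cer (hp : Pers h f β r s0) {s : ℕ} (hs : s0 ≤ s) {k : ℕ}
    (hc : Cer h f s β k) : mu (MM h f β s k) < mu (MM h f β (s + 1) k) := by
  have h1 := mu_rst (f s) (MM h f β s k)
  obtain ⟨b', g1, _, _, _, g2⟩ := bd_keep (hp s hs).1 (hp.next hs).1 (hp.next hs).2.1
  have g3 := g2 k hc
  have g4 : b' = cur h f β (s + 1) := by
    rw [(hp (s + 1) (by omega)).1] at g1
    exact (Option.some.inj g1).symm
  have g5 : MM h f β (s + 1) k = ((PP h f β s k).1, ((true, true), (PP h f β s k).2.2)) := by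
    unfold MM
    rw [← g4, g3, mg_ceB, if_pos rfl, PP_eq]
  obtain ⟨_, b1, l1, _, _, l2⟩ := cer_spec hc
  rw [hp.bp hs] at l1
  obtain rfl := Option.some.inj l1
  obtain ⟨_, _, _, l3, _⟩ := l2
  have l3' : (PP h f β s k).2.1.2 = false := by rw [← PP_eq]; exact l3
  rw [g5]
  unfold PP at l3' ⊢
  unfold mu at h1 ⊢
  rw [l3'] at h1
  simp only [cond_false, cond_true] at h1 ⊢
  omega

theorem Pers.mu_le (hp : Pers h f β r s0) {s : ℕ} (hs : s0 ≤ s) (k : ℕ) :
    mu (MM h f β s k) ≤ 2 * h k + 1 := by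
  have := (inv (h := h) (f := f) s).ix β _ k (hp s hs).1
  unfold mu MM
  cases (mg (cur h f β s).2 k).2.1.2 <;> simp only [cond_false, cond_true] <;> omega

theorem ev_const {g : ℕ → ℕ} {s0 B : ℕ} (hm : ∀ s ≥ s0, g s ≤ g (s + 1))
    (hB : ∀ s ≥ s0, g s ≤ B) : ∃ s1 ≥ s0, ∀ s ≥ s1, g s = g s1 := by
  by_contra hcon
  push Not at hcon
  have hmono : ∀ s ≥ s0, ∀ t ≥ s, g s ≤ g t := by
    intro s hs t ht
    induction t, ht using Nat.le_induction with
    | base => exact le_rfl
    | succ t ht ih => exact ih.trans (hm t (by omega))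
  have : ∀ n, ∃ s ≥ s0, n ≤ g s := by
    intro n
    induction n with
    | zero => exact ⟨s0, le_rfl, Nat.zero_le _⟩
    | succ n ih =>
      obtain ⟨s, hs, hn⟩ := ih
      obtain ⟨t, ht, hne⟩ := hcon s hs
      have := hmono s hs t ht
      exact ⟨t, by omega, by omega⟩
  obtain ⟨s, hs, hn⟩ := this (B + 1)
  have := hB s hs
  omega

/-- each module is certified only finitely often -/
theorem Pers.cer_fin (hp : Pers h f β r s0) (k : ℕ) : ∃ s1, ∀ s ≥ s1, ¬ Cer h f s β k := by
  obtain ⟨s1, h1, h2⟩ := ev_const (g := fun s => mu (MM h f β s k)) (s0 := s0)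
    (B := 2 * h k + 1) (fun s hs => hp.mu_mono hs k) (fun s hs => hp.mu_le hs k)
  refine ⟨s1, fun s hs hc => ?_⟩
  have h3 := hp.mu_cer (by omega) hc
  have h4 := h2 s hs
  have h5 := h2 (s + 1) (by omega)
  omega

theorem Pers.cer_fin_lt (hp : Pers h f β r s0) (n : ℕ) :
    ∃ s1, ∀ s ≥ s1, ∀ k < n, ¬ Cer h f s β k := by
  induction n with
  | zero => exact ⟨0, fun _ _ k hk => absurd hk (Nat.not_lt_zero _)⟩
  | succ n ih =>
    obtain ⟨s1, h1⟩ := ih
    obtain ⟨s2, h2⟩ := hp.cer_fin n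
    refine ⟨max s1 s2, fun s hs k hk => ?_⟩
    rcases Nat.lt_succ_iff_lt_or_eq.1 hk with h3 | h3
    · exact h1 s (by omega) k h3
    · rw [h3]; exact h2 s (by omega)

theorem Pers.ix_mono (hp : Pers h f β r s0) {s : ℕ} (hs : s0 ≤ s) (k : ℕ) :
    (MM h f β s k).1 ≤ (PP h f β s k).1 ∧ (PP h f β s k).1 = (MM h f β (s + 1) k).1 := by
  constructor
  · unfold PP
    cases hh : hit (f s) (MM h f β s k) with
    | true => rw [rst_of_hit hh]; simp
    | false => rw [rst_of_not hh]
  · rcases (hp.next hs).2.2.2 k with e1 | ⟨y, u, _, e0, e1⟩ | ⟨_, e0, e1⟩ <;> rw [e1] <;> rfl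

theorem Pers.ix_mono' (hp : Pers h f β r s0) {s t : ℕ} (hs : s0 ≤ s) (hst : s ≤ t) (k : ℕ) :
    (MM h f β s k).1 ≤ (MM h f β t k).1 := by
  induction t, hst using Nat.le_induction with
  | base => exact le_rfl
  | succ t ht ih =>
    have := hp.ix_mono (s := t) (by omega) k
    omega

/-- `t` is a true stage of the enumeration `f` -/
def TS (f : ℕ → ℕ) (t : ℕ) : Prop := ∀ t' > t, f t < f t'

theorem TS_inf (hf : Function.Injective f) (N : ℕ) : ∃ t ≥ N, TS f t := by
  have hne : (Set.range fun n => f (N + n)).Nonempty := ⟨_, 0, rfl⟩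
  obtain ⟨n, hn⟩ := Nat.sInf_mem hne
  refine ⟨N + n, by omega, fun t' ht' => ?_⟩
  have h1 : f (N + n) ≤ f t' := by
    have : f (N + n) = sInf (Set.range fun n => f (N + n)) := hn
    rw [this]
    refine Nat.sInf_le ⟨t' - N, ?_⟩
    show f (N + (t' - N)) = f t'
    congr 1
    omega
  rcases Nat.lt_or_ge (f (N + n)) (f t') with h2 | h2
  · exact h2
  · have := hf (le_antisymm h1 h2)
    omega

theorem f_large (hf : Function.Injective f) (u : ℕ) : ∃ N, ∀ t ≥ N, u ≤ f t := by
  induction u with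
  | zero => exact ⟨0, fun _ _ => Nat.zero_le _⟩
  | succ u ih =>
    obtain ⟨N, hN⟩ := ih
    by_cases h1 : ∃ t, f t = u
    · obtain ⟨t, ht⟩ := h1
      refine ⟨max N (t + 1), fun t' ht' => ?_⟩
      have := hN t' (by omega)
      have : f t' ≠ u := by
        intro h2
        have := hf (h2.trans ht.symm)
        omega
      omega
    · refine ⟨N, fun t' ht' => ?_⟩
      have := hN t' ht'
      have : f t' ≠ u := fun h2 => h1 ⟨t', h2⟩
      omega

/-- a module active after a true stage with a use that is not larger than the element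
enumerated there is never reset -/
theorem Pers.keep (hp : Pers h f β r s0) {t : ℕ} (ht : TS f t) {s : ℕ} (hts : t < s)
    (hs : s0 ≤ s) {k : ℕ} (ha : (MM h f β s k).2.1.1 = true)
    (hu : (MM h f β s k).2.2.2.1 ≤ f t) {s' : ℕ} (hs' : s ≤ s') :
    (MM h f β s' k).1 = (MM h f β s k).1 ∧ (MM h f β s' k).2.2 = (MM h f β s k).2.2 ∧
      (MM h f β s' k).2.1.1 = true ∧
      ((MM h f β s k).2.1.2 = true → (MM h f β s' k).2.1.2 = true) ∧
      PP h f β s' k = MM h f β s' k := by
  have aux : ∀ s', s ≤ s' → ((MM h f β s' k).1 = (MM h f β s k).1 ∧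
      (MM h f β s' k).2.2 = (MM h f β s k).2.2 ∧
      (MM h f β s' k).2.1.1 = true ∧
      ((MM h f β s k).2.1.2 = true → (MM h f β s' k).2.1.2 = true)) →
      hit (f s') (MM h f β s' k) = false := by
    intro s' hs' ⟨_, g2, _, _⟩
    by_contra hcon
    have h1 := (hit_iff _ _).1 (by simpa using hcon : hit (f s') (MM h f β s' k) = true)
    rw [g2] at h1
    have := ht s' (by omega)
    omega
  have main : ∀ s', s ≤ s' → ((MM h f β s' k).1 = (MM h f β s k).1 ∧
      (MM h f β s' k).2.2 = (MM h f β s k).2.2 ∧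
      (MM h f β s' k).2.1.1 = true ∧
      ((MM h f β s k).2.1.2 = true → (MM h f β s' k).2.1.2 = true)) := by
    intro s' hs'
    induction s', hs' using Nat.le_induction with
    | base => exact ⟨rfl, rfl, ha, fun h => h⟩
    | succ s' hs' ih =>
      have hh := aux s' hs' ih
      have e := rst_of_not hh
      obtain ⟨g1, g2, g3, g4⟩ := ih
      rcases (hp.next (s := s') (by omega)).2.2.2 k with e1 | ⟨y, u, _, e0, e1⟩ | ⟨_, e0, e1⟩
      · rw [e1, e]; exact ⟨g1, g2, g3, g4⟩
      · rw [e, g3] at e0; exact absurd e0.symm Bool.false_ne_true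
      · rw [e1, e]; exact ⟨g1, g2, rfl, fun _ => rfl⟩
  obtain ⟨g1, g2, g3, g4⟩ := main s' hs'
  refine ⟨g1, g2, g3, g4, ?_⟩
  unfold PP
  exact rst_of_not (aux s' hs' (main s' hs'))

end pers

end Pool.Agent.U35.SJ
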