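import Pool.Agent.U35.SJ.Ord

set_option autoImplicit false

/-! What a scan of a node does. -/

namespace Pool.Agent.U35.SJ

open Pool.Agent.Helper446.RE

variable {h : ℕ → ℕ}

/-- the module is not used -/
abbrev skp (h : ℕ → ℕ) (r m : ℕ) : Prop := h m < r + 2

/-- the module `m` is passed with the bit `b`; `r` is the rank, `l` the list of the modules, `σ` the
string of `E` -/
def bitOK (h : ℕ → ℕ) (σ : List Bool) (r : ℕ) (l : List Mod) (m : ℕ) (b : Bool) : Prop :=
  if b = true then ¬ skp h r m ∧ (mg l m).1 < h m ∧ (mg l m).2.1.1 = false ∧ σ.length < ju m σ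
  else skp h r m ∨ ((mg l m).1 < h m ∧ (mg l m).2.1.1 = true ∧ (mg l m).2.1.2 = true)

/-- the module `m` is stuck -/
def stuck (h : ℕ → ℕ) (r : ℕ) (l : List Mod) (m : ℕ) : Prop :=
  ¬ skp h r m ∧ (h m ≤ (mg l m).1 ∨
    ((mg l m).1 < h m ∧ (mg l m).2.1.1 = true ∧ (mg l m).2.1.2 = false))

/-- the test for the module `m` -/
abbrev tst (ε : SE) (m : ℕ) : Bool :=
  tvb (ε.2.1 / 2).unpair.1 ε.1.1 (box ε.2.1 ε.2.2.1.1 m) (mg ε.2.2.2 m).1 ε.1.2.2

def fin1 (h : ℕ → ℕ) (ε : SE) (m : ℕ) : Prop :=
  stuck h ε.2.2.1.1 ε.2.2.2 m ∧ (h m ≤ (mg ε.2.2.2 m).1 ∨ tst ε m = false)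

def fin2 (h : ℕ → ℕ) (ε : SE) (m : ℕ) : Prop :=
  ¬ skp h ε.2.2.1.1 m ∧ (mg ε.2.2.2 m).1 < h m ∧ (mg ε.2.2.2 m).2.1.1 = false ∧
    ju m ε.1.2.1 ≤ ε.1.2.1.length

def fin3 (h : ℕ → ℕ) (ε : SE) (m : ℕ) : Prop :=
  ¬ skp h ε.2.2.1.1 m ∧ (mg ε.2.2.2 m).1 < h m ∧ (mg ε.2.2.2 m).2.1.1 = true ∧
    (mg ε.2.2.2 m).2.1.2 = false ∧ tst ε m = true

def bits (h : ℕ → ℕ) (ε : SE) (τ : Out) : Prop :=
  ∀ m < τ.length, bitOK h ε.1.2.1 ε.2.2.1.1 ε.2.2.2 m (τ.getD m false)

theorem bits_snoc {ε : SE} {τ : Out} {b : Bool} (h1 : bits h ε τ)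
    (h2 : bitOK h ε.1.2.1 ε.2.2.1.1 ε.2.2.2 τ.length b) : bits h ε (τ ++ [b]) := by
  intro m hm
  rw [List.length_append] at hm
  by_cases hm' : m < τ.length
  · rw [List.getD_append _ _ _ _ hm']
    exact h1 m hm'
  · have : m = τ.length := by
      simp only [List.length_cons, List.length_nil] at hm
      omega
    subst this
    rw [List.getD_append_right _ _ _ _ le_rfl]
    simpa using h2

/-- specification of the scan -/
theorem scn_spec (ε : SE) (k : ℕ) :
    bits h ε (scn h ε k).2.1 ∧
      (((scn h ε k).1 = 0 ∧ (scn h ε k).2.1.length = k ∧ (scn h ε k).2.2 = (0, 0)) ∨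
       ((scn h ε k).2.1.length < k ∧
        (((scn h ε k).1 = 1 ∧ fin1 h ε (scn h ε k).2.1.length ∧ (scn h ε k).2.2 = (0, 0)) ∨
         ((scn h ε k).1 = 2 ∧ fin2 h ε (scn h ε k).2.1.length ∧
            (scn h ε k).2.2 = (jy (scn h ε k).2.1.length ε.1.2.1,
              ju (scn h ε k).2.1.length ε.1.2.1)) ∨
         ((scn h ε k).1 = 3 ∧ fin3 h ε (scn h ε k).2.1.length ∧
            (scn h ε k).2.2 = (0, 0))))) := by
  induction k with
  | zero =>
    refine ⟨fun m hm => ?_, Or.inl ⟨rfl, rfl, rfl⟩⟩
    exact absurd hm (Nat.not_lt_zero _)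
  | succ k ih =>
    have hs : scn h ε (k + 1) = sstep h ε (scn h ε k) := rfl
    rw [hs]
    generalize scn h ε k = z at ih
    obtain ⟨hb, h0 | h1⟩ := ih
    · obtain ⟨hz0, hzl, hz2⟩ := h0
      obtain ⟨z1, τ, yu⟩ := z
      simp only at hz0 hzl hz2 hb
      subst hz0 hz2 hzl
      unfold sstep
      simp only [decide_true, cond_true]
      by_cases c1 : h τ.length < ε.2.2.1.1 + 2
      · simp only [c1, decide_true, cond_true]
        refine ⟨bits_snoc hb ?_, Or.inl ⟨trivial, by simp, trivial⟩⟩
        unfold bitOK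
        simp only [Bool.false_eq_true, if_false]
        exact Or.inl c1
      · simp only [c1, decide_false, cond_false]
        by_cases c2 : h τ.length ≤ (mg ε.2.2.2 τ.length).1
        · simp only [c2, decide_true, cond_true]
          exact ⟨hb, Or.inr ⟨by simp, Or.inl ⟨trivial, ⟨⟨c1, Or.inl c2⟩, Or.inl c2⟩, trivial⟩⟩⟩
        · simp only [c2, decide_false, cond_false]
          rw [not_le] at c2
          cases c3 : (mg ε.2.2.2 τ.length).2.1.1 with
          | true =>
            simp only [cond_true]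
            cases c4 : (mg ε.2.2.2 τ.length).2.1.2 with
            | true =>
              simp only [cond_true]
              refine ⟨bits_snoc hb ?_, Or.inl ⟨trivial, by simp, trivial⟩⟩
              unfold bitOK
              simp only [Bool.false_eq_true, if_false]
              exact Or.inr ⟨c2, c3, c4⟩
            | false =>
              simp only [cond_false]
              cases c5 : tst ε τ.length with
              | true =>
                simp only [tst] at c5
                rw [c5]
                simp only [cond_true]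
                exact ⟨hb, Or.inr ⟨by simp, Or.inr (Or.inr ⟨trivial,
                  ⟨c1, c2, c3, c4, c5⟩, trivial⟩)⟩⟩
              | false =>
                have c5' := c5
                simp only [tst] at c5
                rw [c5]
                simp only [cond_false]
                exact ⟨hb, Or.inr ⟨by simp, Or.inl ⟨trivial,
                  ⟨⟨c1, Or.inr ⟨c2, c3, c4⟩⟩, Or.inr c5'⟩, trivial⟩⟩⟩
          | false =>
            simp only [cond_false]
            by_cases c6 : ju τ.length ε.1.2.1 ≤ ε.1.2.1.length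
            · simp only [c6, decide_true, cond_true]
              exact ⟨hb, Or.inr ⟨by simp, Or.inr (Or.inl ⟨trivial, ⟨c1, c2, c3, c6⟩,
                trivial⟩)⟩⟩
            · simp only [c6, decide_false, cond_false]
              refine ⟨bits_snoc hb ?_, Or.inl ⟨trivial, by simp, trivial⟩⟩
              unfold bitOK
              simp only [if_true]
              exact ⟨c1, c2, c3, not_le.1 c6⟩
    · have hz0 : z.1 ≠ 0 := by
        rcases h1.2 with h2 | h2 | h2 <;> rw [h2.1] <;> decide
      have : sstep h ε z = z := by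
        unfold sstep
        simp only [hz0, decide_false, cond_false]
      rw [this]
      exact ⟨hb, Or.inr ⟨by omega, h1.2⟩⟩

/-- a stuck module stops the scan -/
theorem scn_stuck {ε : SE} {τ : Out} {k : ℕ} (hk : τ.length < k) (hb : bits h ε τ)
    (hs : stuck h ε.2.2.1.1 ε.2.2.2 τ.length)
    (ht : (mg ε.2.2.2 τ.length).1 < h τ.length → tst ε τ.length = false) :
    scn h ε k = (1, (τ, (0, 0))) := by
  obtain ⟨h1, h2⟩ := scn_spec (h := h) ε k
  generalize scn h ε k = z at h1 h2
  have hex : ∀ m, m < z.2.1.length → m < τ.length → z.2.1.getD m false = τ.getD m false := by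
    intro m hm1 hm2
    have a1 := h1 m hm1
    have a2 := hb m hm2
    revert a1 a2
    unfold bitOK
    cases z.2.1.getD m false <;> cases τ.getD m false <;> simp only [Bool.false_eq_true,
      if_false, if_true, imp_true_iff]
    · rintro (a1 | ⟨a1, a3, a4⟩) ⟨b1, b2, b3, b4⟩
      · exact absurd a1 b1
      · rw [a3] at b3; exact absurd b3 (by decide)
    · rintro ⟨b1, b2, b3, b4⟩ (a1 | ⟨a1, a3, a4⟩)
      · exact absurd a1 b1
      · rw [a3] at b3; exact absurd b3 (by decide)
  have nostuck : ∀ b, ¬ bitOK h ε.1.2.1 ε.2.2.1.1 ε.2.2.2 τ.length b := by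
    intro b hb'
    unfold bitOK at hb'
    obtain ⟨s1, s2⟩ := hs
    cases b
    · simp only [Bool.false_eq_true, if_false] at hb'
      rcases hb' with a1 | ⟨a1, a2, a3⟩
      · exact s1 a1
      · rcases s2 with s2 | ⟨_, _, s3⟩
        · omega
        · rw [a3] at s3; exact absurd s3 (by decide)
    · simp only [if_true] at hb'
      obtain ⟨b1, b2, b3, b4⟩ := hb'
      rcases s2 with s2 | ⟨_, s3, _⟩
      · omega
      · rw [b3] at s3; exact absurd s3 (by decide)
  have hle : z.2.1.length ≤ τ.length := by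
    by_contra hcon
    rw [not_le] at hcon
    exact nostuck _ (h1 τ.length hcon)
  rcases h2 with ⟨a1, a2, a3⟩ | ⟨a1, a2⟩
  · omega
  · have heq : z.2.1.length = τ.length := by
      by_contra hne
      have hlt : z.2.1.length < τ.length := by omega
      have a3 := hb _ hlt
      unfold bitOK at a3
      rcases a2 with ⟨_, a2, _⟩ | ⟨_, a2, _⟩ | ⟨_, a2, _⟩
      · obtain ⟨⟨s1, s2⟩, _⟩ := a2
        cases hc : τ.getD z.2.1.length false
        · rw [hc] at a3
          simp only [Bool.false_eq_true, if_false] at a3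
          rcases a3 with a3 | ⟨a3, a4, a5⟩
          · exact s1 a3
          · rcases s2 with s2 | ⟨_, _, s3⟩
            · omega
            · rw [a5] at s3; exact absurd s3 (by decide)
        · rw [hc] at a3
          simp only [if_true] at a3
          obtain ⟨b1, b2, b3, b4⟩ := a3
          rcases s2 with s2 | ⟨_, s3, _⟩
          · omega
          · rw [b3] at s3; exact absurd s3 (by decide)
      · obtain ⟨s1, s2, s3, s4⟩ := a2
        cases hc : τ.getD z.2.1.length false
        · rw [hc] at a3
          simp only [Bool.false_eq_true, if_false] at a3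
          rcases a3 with a3 | ⟨a3, a4, a5⟩
          · exact s1 a3
          · rw [a4] at s3; exact absurd s3 (by decide)
        · rw [hc] at a3
          simp only [if_true] at a3
          obtain ⟨b1, b2, b3, b4⟩ := a3
          omega
      · obtain ⟨s1, s2, s3, s4, s5⟩ := a2
        cases hc : τ.getD z.2.1.length false
        · rw [hc] at a3
          simp only [Bool.false_eq_true, if_false] at a3
          rcases a3 with a3 | ⟨a3, a4, a5⟩
          · exact s1 a3
          · rw [a5] at s4; exact absurd s4 (by decide)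
        · rw [hc] at a3
          simp only [if_true] at a3
          obtain ⟨b1, b2, b3, b4⟩ := a3
          rw [b3] at s3; exact absurd s3 (by decide)
    have hτ : z.2.1 = τ := by
      apply List.ext_getElem heq
      intro m hm1 hm2
      have := hex m hm1 hm2
      rwa [List.getD_eq_getElem _ _ hm1, List.getD_eq_getElem _ _ hm2] at this
    rcases a2 with ⟨b1, _, b3⟩ | ⟨_, b2, _⟩ | ⟨_, b2, _⟩
    · obtain ⟨z1, z2, z3⟩ := z
      simp only at b1 b3 hτ
      subst b1 b3 hτ
      rfl
    · exfalso
      rw [heq] at b2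
      obtain ⟨s1, s2, s3, s4⟩ := b2
      rcases hs.2 with s | ⟨_, s, _⟩
      · omega
      · rw [s3] at s; exact absurd s (by decide)
    · exfalso
      rw [heq] at b2
      obtain ⟨s1, s2, s3, s4, s5⟩ := b2
      rw [ht s2] at s5
      exact absurd s5 (by decide)

end Pool.Agent.U35.SJ
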