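import Pool.Agent.U35.SJ.Pers

set_option autoImplicit false

/-! The modules of a node which is reached at all true stages. -/

namespace Pool.Agent.U35.SJ

open Pool.Agent.Helper446.RE

section scan
variable {h : ℕ → ℕ}

theorem not_bit_of_fin1 {ε : SE} {m : ℕ} (hf : fin1 h ε m) (b : Bool) :
    ¬ bitOK h ε.1.2.1 ε.2.2.1.1 ε.2.2.2 m b := by
  intro hb
  obtain ⟨⟨s1, s2⟩, _⟩ := hf
  unfold bitOK at hb
  cases b
  · simp only [Bool.false_eq_true, if_false] at hb
    rcases hb with a1 | ⟨a1, a2, a3⟩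
    · exact s1 a1
    · rcases s2 with s2 | ⟨_, _, s3⟩
      · omega
      · rw [a3] at s3; exact absurd s3 (by decide)
  · simp only [if_true] at hb
    obtain ⟨b1, b2, b3, b4⟩ := hb
    rcases s2 with s2 | ⟨_, s3, _⟩
    · omega
    · rw [b3] at s3; exact absurd s3 (by decide)

theorem not_bit_of_fin2 {ε : SE} {m : ℕ} (hf : fin2 h ε m) (b : Bool) :
    ¬ bitOK h ε.1.2.1 ε.2.2.1.1 ε.2.2.2 m b := by
  intro hb
  obtain ⟨s1, s2, s3, s4⟩ := hf
  unfold bitOK at hb
  cases b
  · simp only [Bool.false_eq_true, if_false] at hb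
    rcases hb with a1 | ⟨a1, a2, a3⟩
    · exact s1 a1
    · rw [s3] at a2; exact absurd a2 (by decide)
  · simp only [if_true] at hb
    obtain ⟨b1, b2, b3, b4⟩ := hb
    omega

theorem not_bit_of_fin3 {ε : SE} {m : ℕ} (hf : fin3 h ε m) (b : Bool) :
    ¬ bitOK h ε.1.2.1 ε.2.2.1.1 ε.2.2.2 m b := by
  intro hb
  obtain ⟨s1, s2, s3, s4, s5⟩ := hf
  unfold bitOK at hb
  cases b
  · simp only [Bool.false_eq_true, if_false] at hb
    rcases hb with a1 | ⟨a1, a2, a3⟩
    · exact s1 a1
    · rw [s4] at a3; exact absurd a3 (by decide)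
  · simp only [if_true] at hb
    obtain ⟨b1, b2, b3, b4⟩ := hb
    rw [s3] at b3; exact absurd b3 (by decide)

theorem bit_unique {σ : List Bool} {r : ℕ} {l : List Mod} {m : ℕ} {b b' : Bool}
    (hb : bitOK h σ r l m b) (hb' : bitOK h σ r l m b') : b = b' := by
  unfold bitOK at hb hb'
  cases b <;> cases b' <;> simp only [Bool.false_eq_true, if_false, if_true] at hb hb' ⊢
  · obtain ⟨b1, b2, b3, b4⟩ := hb'
    rcases hb with a1 | ⟨a1, a2, a3⟩
    · exact absurd a1 b1
    · rw [a2] at b3; exact absurd b3 (by decide)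
  · obtain ⟨b1, b2, b3, b4⟩ := hb
    rcases hb' with a1 | ⟨a1, a2, a3⟩
    · exact absurd a1 b1
    · rw [a2] at b3; exact absurd b3 (by decide)

/-- the list of the bits of a scan -/
theorem scn_out {ε : SE} {τ : Out} {k : ℕ} (hk : τ.length < k) (hb : bits h ε τ)
    (hf : ∀ b, ¬ bitOK h ε.1.2.1 ε.2.2.1.1 ε.2.2.2 τ.length b) :
    (scn h ε k).2.1 = τ ∧ (scn h ε k).1 ≠ 0 := by
  obtain ⟨h1, h2⟩ := scn_spec (h := h) ε k
  generalize scn h ε k = z at h1 h2
  have hle : z.2.1.length ≤ τ.length := by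
    by_contra hcon
    rw [not_le] at hcon
    exact hf _ (h1 τ.length hcon)
  rcases h2 with ⟨a1, a2, a3⟩ | ⟨a1, a2⟩
  · omega
  · have heq : z.2.1.length = τ.length := by
      by_contra hne
      have hlt : z.2.1.length < τ.length := by omega
      have a3 := hb _ hlt
      rcases a2 with ⟨_, a2, _⟩ | ⟨_, a2, _⟩ | ⟨_, a2, _⟩
      · exact not_bit_of_fin1 a2 _ a3
      · exact not_bit_of_fin2 a2 _ a3
      · exact not_bit_of_fin3 a2 _ a3
    refine ⟨?_, ?_⟩
    · apply List.ext_getElem heq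
      intro m hm1 hm2
      have := bit_unique (h1 m hm1) (hb m hm2)
      rwa [List.getD_eq_getElem _ _ hm1, List.getD_eq_getElem _ _ hm2] at this
    · rcases a2 with ⟨a2, _⟩ | ⟨a2, _⟩ | ⟨a2, _⟩ <;> rw [a2] <;> decide

theorem scn_start {ε : SE} {τ : Out} {k : ℕ} (hk : τ.length < k) (hb : bits h ε τ)
    (hf : fin2 h ε τ.length) :
    scn h ε k = (2, (τ, (jy τ.length ε.1.2.1, ju τ.length ε.1.2.1))) := by
  obtain ⟨h1, h2⟩ := scn_out hk hb (not_bit_of_fin2 hf)
  obtain ⟨-, h3⟩ := scn_spec (h := h) ε k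
  generalize scn h ε k = z at h1 h2 h3
  obtain ⟨z1, z2, z3⟩ := z
  simp only at h1 h2 h3
  subst h1
  rcases h3 with ⟨h3, _⟩ | ⟨_, ⟨_, ⟨⟨_, s⟩, _⟩, _⟩ | ⟨h4, _, h5⟩ | ⟨_, h4, _⟩⟩
  · exact absurd h3 h2
  · exfalso
    obtain ⟨s1, s2, s3, s4⟩ := hf
    rcases s with s | ⟨_, s, _⟩
    · omega
    · rw [s3] at s; exact absurd s (by decide)
  · rw [h4, h5]
  · exfalso
    obtain ⟨s1, s2, s3, s4⟩ := hf
    rw [h4.2.2.1] at s3; exact absurd s3 (by decide)

theorem scn_cert {ε : SE} {τ : Out} {k : ℕ} (hk : τ.length < k) (hb : bits h ε τ)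
    (hf : fin3 h ε τ.length) :
    scn h ε k = (3, (τ, (0, 0))) := by
  obtain ⟨h1, h2⟩ := scn_out hk hb (not_bit_of_fin3 hf)
  obtain ⟨-, h3⟩ := scn_spec (h := h) ε k
  generalize scn h ε k = z at h1 h2 h3
  obtain ⟨z1, z2, z3⟩ := z
  simp only at h1 h2 h3
  subst h1
  rcases h3 with ⟨h3, _⟩ | ⟨_, ⟨_, ⟨_, s⟩, _⟩ | ⟨_, h4, _⟩ | ⟨h4, _, h5⟩⟩
  · exact absurd h3 h2
  · exfalso
    obtain ⟨s1, s2, s3, s4, s5⟩ := hf
    rcases s with s | s
    · omega
    · rw [s5] at s; exact absurd s (by decide)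
  · exfalso
    have h6 := hf.2.2.1
    rw [h4.2.2.1] at h6
    exact absurd h6 (by decide)
  · rw [h4, h5]

end scan

variable {h f : ℕ → ℕ}

section defs
variable (h f : ℕ → ℕ) (β : Node)

/-- the body of `β` in the scan of the stage `s` -/
def pb (s : ℕ) : Body := rb (f s) (cur h f β s)

/-- the bit `b` is right for the module `k` at stage `s` -/
def BK (s k : ℕ) (b : Bool) : Prop :=
  bitOK h (cs (el f (s + 1)) (min (f s) s)) (pb h f β s).1.1 (pb h f β s).2 k b

def SK (s k : ℕ) : Prop := stuck h (pb h f β s).1.1 (pb h f β s).2 k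

def SetF (k : ℕ) : Prop := ∃ s1, ∀ s ≥ s1, BK h f β s k false

def SetI (k : ℕ) : Prop := ∃ s1, ∀ s ≥ s1, TS f s → BK h f β s k true

def Stk (k : ℕ) : Prop := ∃ s1, ∀ s ≥ s1, SK h f β s k

end defs

section settle
variable {β : Node} {r s0 : ℕ}

theorem mg_pb (s k : ℕ) : mg (pb h f β s).2 k = PP h f β s k := by
  unfold pb
  exact PP_eq s k

theorem Pers.rank (hp : Pers h f β r s0) {s : ℕ} (hs : s0 ≤ s) : (pb h f β s).1.1 = r :=
  (hp s hs).2

theorem Pers.look (hp : Pers h f β r s0) {s : ℕ} (hs : s0 ≤ s) :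
    look (EE h f s).2 β = some (pb h f β s) := hp.bp hs

theorem scan_eq (s : ℕ) : sc h (EE h f s) β (pb h f β s) = scn h (sε h f s β (pb h f β s)) s :=
  sc_eq s β _

/-- a module which is active after a true stage settles -/
theorem Pers.settle_active (hp : Pers h f β r s0) {t : ℕ} (ht : TS f t) (ht0 : s0 ≤ t) {k : ℕ}
    (ha : (MM h f β (t + 1) k).2.1.1 = true) (hu : (MM h f β (t + 1) k).2.2.2.1 ≤ f t)
    (hk : ¬ skp h r k) (hi : (MM h f β (t + 1) k).1 < h k) : SetF h f β k ∨ Stk h f β k := by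
  have key : ∀ s ≥ t + 1, (MM h f β s k).1 < h k ∧ (MM h f β s k).2.1.1 = true ∧
      PP h f β s k = MM h f β s k := by
    intro s hs
    obtain ⟨g1, g2, g3, g4, g5⟩ := hp.keep ht (Nat.lt_succ_self t) (by omega) ha hu hs
    exact ⟨by rw [g1]; exact hi, g3, g5⟩
  by_cases hc : ∃ s ≥ t + 1, (MM h f β s k).2.1.2 = true
  · obtain ⟨s1, hs1, hc1⟩ := hc
    left
    refine ⟨s1, fun s hs => ?_⟩
    obtain ⟨g1, g2, g3⟩ := key s (by omega)
    have e1 := hp.keep ht (Nat.lt_succ_self t) (by omega) ha hu (s' := s1) hs1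
    have e2 := hp.keep ht (s := s1) (by omega) (by omega) (k := k) (key s1 hs1).2.1
      (by rw [e1.2.1]; exact hu) (s' := s) (by omega)
    unfold BK bitOK
    rw [if_neg (by decide), mg_pb, g3]
    exact Or.inr ⟨g1, g2, e2.2.2.2.1 hc1⟩
  · right
    refine ⟨t + 1, fun s hs => ?_⟩
    obtain ⟨g1, g2, g3⟩ := key s hs
    unfold SK stuck
    rw [hp.rank (by omega), mg_pb, g3]
    refine ⟨hk, Or.inr ⟨g1, g2, ?_⟩⟩
    by_contra hcon
    exact hc ⟨s, hs, by simpa using hcon⟩

/-- the node is reached at all true stages -/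
def Vis (h f : ℕ → ℕ) (β : Node) (s0 : ℕ) : Prop := ∀ t ≥ s0, TS f t → rch h (EE h f t) β

/-- bits for the modules below `k` are right -/
theorem bits_of {s : ℕ} {τ : Out} (hτ : ∀ m < τ.length, BK h f β s m (τ.getD m false)) :
    bits h (sε h f s β (pb h f β s)) τ := hτ

theorem Pers.sta_of (hp : Pers h f β r s0) {t : ℕ} (hs : s0 ≤ t) (hv : rch h (EE h f t) β)
    {τ : Out} (hβ : β.length ≤ t) (hk : τ.length < t)
    (hb : bits h (sε h f t β (pb h f β t)) τ)
    (hf : fin2 h (sε h f t β (pb h f β t)) τ.length) :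
    Sta h f t β τ.length (jy τ.length (cs (el f (t + 1)) (min (f t) t)))
      (ju τ.length (cs (el f (t + 1)) (min (f t) t))) := by
  have h1 := scn_start hk hb hf
  have h2 : sc h (EE h f t) β (pb h f β t) = _ := (scan_eq t).trans h1
  have h3 := walk_of_rch hv (hp.look hs) (by rw [h2]; exact Or.inl rfl) (n := t + 1) (by omega)
  unfold Sta WW
  rw [h3, h2]
  exact ⟨rfl, rfl, rfl, rfl⟩

theorem Pers.cer_of (hp : Pers h f β r s0) {t : ℕ} (hs : s0 ≤ t) (hv : rch h (EE h f t) β)
    {τ : Out} (hβ : β.length ≤ t) (hk : τ.length < t)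
    (hb : bits h (sε h f t β (pb h f β t)) τ)
    (hf : fin3 h (sε h f t β (pb h f β t)) τ.length) :
    Cer h f t β τ.length := by
  have h1 := scn_cert hk hb hf
  have h2 : sc h (EE h f t) β (pb h f β t) = _ := (scan_eq t).trans h1
  have h3 := walk_of_rch hv (hp.look hs) (by rw [h2]; exact Or.inr rfl) (n := t + 1) (by omega)
  unfold Cer WW
  rw [h3, h2]
  exact ⟨rfl, rfl, rfl⟩

/-- the bits of the settled modules -/
theorem settled_bits {k : ℕ} (hset : ∀ m < k, SetF h f β m ∨ SetI h f β m) :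
    ∃ τ : Out, τ.length = k ∧ (∀ m < k, τ.getD m false = false → SetF h f β m) ∧
      (∀ m < k, τ.getD m false = true → SetI h f β m) ∧
      ∃ s1, (∀ s ≥ s1, ∀ m < k, τ.getD m false = false → BK h f β s m false) ∧
        ∀ s ≥ s1, TS f s → ∀ m < k, BK h f β s m (τ.getD m false) := by
  induction k with
  | zero =>
    exact ⟨[], rfl, fun m hm => absurd hm (Nat.not_lt_zero _),
      fun m hm => absurd hm (Nat.not_lt_zero _), 0, fun _ _ m hm => absurd hm (Nat.not_lt_zero _),
      fun _ _ _ m hm => absurd hm (Nat.not_lt_zero _)⟩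
  | succ k ih =>
    obtain ⟨τ, h1, h2, h3, s1, h4, h5⟩ := ih (fun m hm => hset m (by omega))
    have aux : ∀ b, ∀ m < k, (τ ++ [b]).getD m false = τ.getD m false := by
      intro b m hm
      exact List.getD_append _ _ _ _ (by omega)
    have aux2 : ∀ b, (τ ++ [b]).getD k false = b := by
      intro b
      rw [List.getD_append_right _ _ _ _ (by omega), h1, Nat.sub_self]
      rfl
    rcases hset k (Nat.lt_succ_self k) with ⟨s2, h6⟩ | ⟨s2, h6⟩
    · refine ⟨τ ++ [false], by simp [h1], ?_, ?_, max s1 s2, ?_, ?_⟩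
      · intro m hm hb
        rcases Nat.lt_succ_iff_lt_or_eq.1 hm with hm | rfl
        · rw [aux _ m hm] at hb; exact h2 m hm hb
        · exact ⟨s2, h6⟩
      · intro m hm hb
        rcases Nat.lt_succ_iff_lt_or_eq.1 hm with hm | rfl
        · rw [aux _ m hm] at hb; exact h3 m hm hb
        · rw [aux2] at hb; exact absurd hb (by decide)
      · intro s hs m hm hb
        rcases Nat.lt_succ_iff_lt_or_eq.1 hm with hm | rfl
        · rw [aux _ m hm] at hb; exact h4 s (by omega) m hm hb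
        · exact h6 s (by omega)
      · intro s hs hts m hm
        rcases Nat.lt_succ_iff_lt_or_eq.1 hm with hm | rfl
        · rw [aux _ m hm]; exact h5 s (by omega) hts m hm
        · rw [aux2]; exact h6 s (by omega)
    · refine ⟨τ ++ [true], by simp [h1], ?_, ?_, max s1 s2, ?_, ?_⟩
      · intro m hm hb
        rcases Nat.lt_succ_iff_lt_or_eq.1 hm with hm | rfl
        · rw [aux _ m hm] at hb; exact h2 m hm hb
        · rw [aux2] at hb; exact absurd hb (by decide)
      · intro m hm hb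
        rcases Nat.lt_succ_iff_lt_or_eq.1 hm with hm | rfl
        · rw [aux _ m hm] at hb; exact h3 m hm hb
        · exact ⟨s2, h6⟩
      · intro s hs m hm hb
        rcases Nat.lt_succ_iff_lt_or_eq.1 hm with hm | rfl
        · rw [aux _ m hm] at hb; exact h4 s (by omega) m hm hb
        · rw [aux2] at hb; exact absurd hb (by decide)
      · intro s hs hts m hm
        rcases Nat.lt_succ_iff_lt_or_eq.1 hm with hm | rfl
        · rw [aux _ m hm]; exact h5 s (by omega) hts m hm
        · rw [aux2]; exact h6 s (by omega) hts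

/-- every module whose predecessors are settled is settled or stuck -/
theorem Pers.trichotomy (hp : Pers h f β r s0) (hv : Vis h f β s0) {k : ℕ}
    (hset : ∀ m < k, SetF h f β m ∨ SetI h f β m) :
    SetF h f β k ∨ SetI h f β k ∨ Stk h f β k := by
  obtain ⟨τ, hτ1, _, _, s1, _, hτ2⟩ := settled_bits hset
  by_cases hk : skp h r k
  · left
    refine ⟨s0, fun s hs => ?_⟩
    unfold BK bitOK
    rw [if_neg (by decide), hp.rank hs]
    exact Or.inl hk
  by_cases hov : ∃ s ≥ s0, h k ≤ (PP h f β s k).1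
  · right; right
    obtain ⟨s2, hs2, hov⟩ := hov
    refine ⟨s2, fun s hs => ?_⟩
    unfold SK stuck
    rw [hp.rank (by omega), mg_pb]
    refine ⟨hk, Or.inl ?_⟩
    rcases Nat.lt_or_ge s2 s with h1 | h1
    · have e1 := (hp.ix_mono (s := s2) hs2 k).2
      have e2 := hp.ix_mono' (s := s2 + 1) (t := s) (by omega) (by omega) k
      have e3 := (hp.ix_mono (s := s) (by omega) k).1
      omega
    · have : s = s2 := by omega
      rw [this]; exact hov
  push Not at hov
  -- bound at the stages themselves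
  have hov2 : ∀ s ≥ s0, (MM h f β s k).1 < h k := by
    intro s hs
    have e1 := (hp.ix_mono (s := s) hs k).1
    have e2 := hov s hs
    omega
  by_cases hac : ∃ t ≥ s0, TS f t ∧ (PP h f β t k).2.1.1 = true
  · obtain ⟨t, ht0, ht, hac⟩ := hac
    unfold PP at hac
    obtain ⟨g1, g2, g3, g4⟩ := rst_act hac
    have hx := (hp.next ht0).2.2.2 k
    have ha' : (MM h f β (t + 1) k).2.1.1 = true ∧
        (MM h f β (t + 1) k).2.2 = (MM h f β t k).2.2 := by
      rcases hx with e1 | ⟨y, u, _, e0, e1⟩ | ⟨_, e0, e1⟩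
      · rw [e1, g1]; exact ⟨g3, rfl⟩
      · rw [g1, g3] at e0; exact absurd e0.symm Bool.false_ne_true
      · rw [e1, g1]; exact ⟨rfl, rfl⟩
    rcases hp.settle_active ht ht0 ha'.1 (by rw [ha'.2]; exact g2) hk
      (hov2 (t + 1) (by omega)) with h1 | h1
    · exact Or.inl h1
    · exact Or.inr (Or.inr h1)
  push Not at hac
  by_cases hst : ∃ t ≥ max (max s0 s1) (max β.length (k + 1)), TS f t ∧
      ju k (cs (el f (t + 1)) (min (f t) t)) ≤ min (f t) t
  · obtain ⟨t, ht0, ht, hju⟩ := hst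
    have t1 : s0 ≤ t := by omega
    have t2 : s1 ≤ t := by omega
    have t3 : β.length ≤ t := by omega
    have t4 : k < t := by omega
    have hb : bits h (sε h f t β (pb h f β t)) τ := by
      apply bits_of
      intro m hm
      exact hτ2 t t2 ht m (by omega)
    have hf2 : fin2 h (sε h f t β (pb h f β t)) k := by
      have e1 : (mg (pb h f β t).2 k).1 < h k := by rw [mg_pb]; exact hov t t1
      have e2 : (mg (pb h f β t).2 k).2.1.1 = false := by
        rw [mg_pb]
        by_contra hcon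
        exact hac t t1 ht (by simpa using hcon)
      have e3 : ¬ skp h (pb h f β t).1.1 k := by rw [hp.rank t1]; exact hk
      refine ⟨e3, e1, e2, ?_⟩
      show ju k (cs (el f (t + 1)) (min (f t) t)) ≤ (cs (el f (t + 1)) (min (f t) t)).length
      rw [cs_length]
      exact hju
    have hsta := hp.sta_of t1 (hv t t1 ht) t3 (by omega) hb (by rw [hτ1]; exact hf2)
    rw [hτ1] at hsta
    obtain ⟨b', e1, _, _, e4, _⟩ := bd_keep (hp t t1).1 (hp.next t1).1 (hp.next t1).2.1
    have e5 := e4 _ _ _ hsta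
    have e6 : b' = cur h f β (t + 1) := by
      rw [(hp (t + 1) (by omega)).1] at e1
      exact (Option.some.inj e1).symm
    have e7 : MM h f β (t + 1) k = ((PP h f β t k).1, ((true, false),
        (jy k (cs (el f (t + 1)) (min (f t) t)), (ju k (cs (el f (t + 1)) (min (f t) t)), t)))) := by
      unfold MM
      rw [← e6, e5, mg_stB, if_pos rfl, PP_eq]
    rcases hp.settle_active ht t1 (k := k) (by rw [e7]) (by rw [e7]; simp only; omega) hk
      (hov2 (t + 1) (by omega)) with h1 | h1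
    · exact Or.inl h1
    · exact Or.inr (Or.inr h1)
  push Not at hst
  right; left
  refine ⟨max (max s0 s1) (max β.length (k + 1)), fun t ht hts => ?_⟩
  have t1 : s0 ≤ t := by omega
  unfold BK bitOK
  rw [if_pos rfl, hp.rank t1, mg_pb, cs_length]
  refine ⟨hk, hov t t1, ?_, hst t ht hts⟩
  by_contra hcon
  exact hac t t1 hts (by simpa using hcon)

end settle

end Pool.Agent.U35.SJ
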