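import Pool.Agent.U35.SJ.Trans

set_option autoImplicit false

/-! The states as functions of the stage. -/

namespace Pool.Agent.U35.SJ

open Pool.Agent.Helper446.RE

section defs
variable (h f : ℕ → ℕ)

/-- the elements of `E` enumerated before stage `s` -/
def el (s : ℕ) : List ℕ := (List.range s).map f

def LL (s : ℕ) : List Rec := (stt h f s).1

/-- side `0`: `A`, side `1`: `B` -/
def sd (q s : ℕ) : List ℕ := if q % 2 = 0 then (stt h f s).2.1 else (stt h f s).2.2

def EE (s : ℕ) : WE := env (f s) s (el f (s + 1)) (stt h f s)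

def WW (s : ℕ) : WS := wk h (EE h f s) (s + 1)

/-- body before stage `s` -/
def bd (s : ℕ) (β : Node) : Option Body := look (LL h f s) β

/-- body after the first phase of stage `s` -/
def bp (s : ℕ) (β : Node) : Option Body := look (EE h f s).2 β

def hu (s : ℕ) (β : Node) : Prop := isHurt (f s) (LL h f s) β = true

/-- the environment of the scan of `β` at stage `s` -/
def sε (s : ℕ) (β : Node) (b : Body) : SE :=
  ((s, (cs (el f (s + 1)) (min (f s) s), cs (sd h f (β.length + 1) (s + 1)) s)), (β.length, b))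

end defs

variable {h f : ℕ → ℕ}

theorem LL_succ (s : ℕ) : LL h f (s + 1) = phase2 s (WW h f s) (EE h f s).2 := rfl

theorem EE_snd (s : ℕ) : (EE h f s).2 = phase1 (f s) (LL h f s) := rfl

theorem sd_zero (q : ℕ) : sd h f q 0 = [] := by
  unfold sd
  by_cases hq : q % 2 = 0
  · rw [if_pos hq]; rfl
  · rw [if_neg hq]; rfl

theorem sd_succ (q s : ℕ) : sd h f q (s + 1) = sd h f q s ++ mks (q % 2) (f s) (LL h f s) := by
  unfold sd
  by_cases hq : q % 2 = 0
  · rw [if_pos hq, if_pos hq, hq]; rfl
  · rw [if_neg hq, if_neg hq]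
    have : q % 2 = 1 := by omega
    rw [this]; rfl

theorem sc_eq (s : ℕ) (β : Node) (b : Body) :
    sc h (EE h f s) β b = scn h (sε h f s β b) s := by
  unfold sc sε
  have h1 : (EE h f s).1.1 = s := rfl
  have h2 : (EE h f s).1.2.1 = cs (el f (s + 1)) (min (f s) s) := rfl
  have h3 : (EE h f s).1.2.2.2 = cs (stt h f (s + 1)).2.2 s := rfl
  have h4 : (EE h f s).1.2.2.1 = cs (stt h f (s + 1)).2.1 s := rfl
  rw [h1, h2, h3, h4]
  unfold sd
  by_cases hq : β.length % 2 = 0
  · have : (β.length + 1) % 2 ≠ 0 := by omega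
    rw [if_neg this]
    simp only [hq, decide_true, cond_true]
  · have : (β.length + 1) % 2 = 0 := by omega
    rw [if_pos this]
    simp only [hq, decide_false, cond_false]

theorem nd_LL (s : ℕ) : ND (LL h f s) := by
  induction s with
  | zero => unfold ND LL stt; simp
  | succ s ih =>
    rw [LL_succ]
    apply ND_phase2
    · rw [EE_snd]; exact ND_phase1 _ ih
    · intro h1
      rcases walk_cases (h := h) (EE h f s) (s + 1) with h2 | h2 | h2 | h2
      · unfold WW at h1; omega
      · exact h2.2.2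
      · unfold WW at h1; omega
      · unfold WW at h1; omega

theorem hu_iff (s : ℕ) (β : Node) : hu h f s β ↔ ∃ γ b m, bd h f s γ = some b ∧
    hit (f s) (mg b.2 m) = true ∧ hurt γ m β = true :=
  isHurt_iff (nd_LL s) β

theorem mem_sd_succ (q s x : ℕ) : x ∈ sd h f q (s + 1) ↔ x ∈ sd h f q s ∨
    ∃ γ b m, bd h f s γ = some b ∧ γ.length % 2 = q % 2 ∧ hit (f s) (mg b.2 m) = true ∧
      (mg b.2 m).2.2.2.2 = x := by
  rw [sd_succ, List.mem_append, mks_iff (nd_LL s)]
  rfl

theorem sd_mono {q s t : ℕ} (hst : s ≤ t) {x : ℕ} (hx : x ∈ sd h f q s) : x ∈ sd h f q t := by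
  induction t, hst using Nat.le_induction with
  | base => exact hx
  | succ t _ ih => exact (mem_sd_succ q t x).2 (Or.inl ih)

theorem sd_mod {q q' : ℕ} (hq : q % 2 = q' % 2) (s : ℕ) : sd h f q s = sd h f q' s := by
  unfold sd
  rw [hq]

theorem bd_zero (β : Node) : bd h f 0 β = none := rfl

open Classical in
theorem bp_eq (s : ℕ) (β : Node) :
    bp h f s β = if hu h f s β then none else (bd h f s β).map (rb (f s)) := by
  unfold bp
  rw [EE_snd, look_phase1]
  by_cases h1 : hu h f s β
  · rw [if_pos h1]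
    unfold hu at h1
    rw [if_pos h1]
  · rw [if_neg h1]
    unfold hu at h1
    rw [if_neg h1]
    rfl

theorem bp_some {s : ℕ} {β : Node} {b : Body} (hb : bp h f s β = some b) :
    ¬ hu h f s β ∧ ∃ b0, bd h f s β = some b0 ∧ b = rb (f s) b0 := by
  classical
  rw [bp_eq] at hb
  by_cases h1 : hu h f s β
  · rw [if_pos h1] at hb; exact absurd hb (by simp)
  · rw [if_neg h1] at hb
    refine ⟨h1, ?_⟩
    rw [Option.map_eq_some_iff] at hb
    obtain ⟨b0, h2, h3⟩ := hb
    exact ⟨b0, h2, h3.symm⟩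

theorem bp_of_bd {s : ℕ} {β : Node} {b : Body} (hb : bd h f s β = some b)
    (hh : ¬ hu h f s β) : bp h f s β = some (rb (f s) b) := by
  classical
  rw [bp_eq, if_neg hh, hb]; rfl

/-- the body changes because a module is started -/
def stB (s m y u : ℕ) (b : Body) : Body :=
  (b.1, ms b.2 m ((mg b.2 m).1, ((true, false), (y, (u, s)))))

/-- the body changes because a module is certified -/
def ceB (s m : ℕ) (b : Body) : Body :=
  ((b.1.1, s), ms b.2 m ((mg b.2 m).1, ((true, true), (mg b.2 m).2.2)))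

/-- at stage `s` a record for `β` is created -/
def New (h f : ℕ → ℕ) (s : ℕ) (β : Node) : Prop := (WW h f s).2.1 = 1 ∧ (WW h f s).1 = β

/-- at stage `s` the module `m` of `β` is started -/
def Sta (h f : ℕ → ℕ) (s : ℕ) (β : Node) (m y u : ℕ) : Prop :=
  (WW h f s).2.1 = 2 ∧ (WW h f s).1 = β ∧ (WW h f s).2.2.1.length = m ∧
    (WW h f s).2.2.2 = (y, u)

/-- at stage `s` the module `m` of `β` is certified -/
def Cer (h f : ℕ → ℕ) (s : ℕ) (β : Node) (m : ℕ) : Prop :=
  (WW h f s).2.1 = 3 ∧ (WW h f s).1 = β ∧ (WW h f s).2.2.1.length = m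

/-- the record of `β` is removed by a certification -/
def rem (h f : ℕ → ℕ) (s : ℕ) (β : Node) : Prop :=
  (WW h f s).2.1 = 3 ∧ low (WW h f s).1 β = true

theorem rch_of_WW {s : ℕ} (h0 : (WW h f s).2.1 = 1 ∨ (WW h f s).2.1 = 2 ∨ (WW h f s).2.1 = 3) :
    rch h (EE h f s) (WW h f s).1 := by
  unfold WW at *
  rcases walk_cases (h := h) (EE h f s) (s + 1) with h2 | h2 | h2 | h2
  · omega
  · exact h2.2.1
  · omega
  · exact h2.2.1

theorem new_spec {s : ℕ} {β : Node} (hn : New h f s β) :
    rch h (EE h f s) β ∧ bp h f s β = none := by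
  obtain ⟨h1, h2⟩ := hn
  have h3 := rch_of_WW (Or.inl h1)
  rw [h2] at h3
  refine ⟨h3, ?_⟩
  unfold WW at *
  rcases walk_cases (h := h) (EE h f s) (s + 1) with h4 | h4 | h4 | h4
  · omega
  · rw [h2] at h4; exact h4.2.2
  · omega
  · omega

theorem sta_spec {s : ℕ} {β : Node} {m y u : ℕ} (hn : Sta h f s β m y u) :
    rch h (EE h f s) β ∧ ∃ b, bp h f s β = some b ∧ m < s ∧
      (∃ τ : Out, τ.length = m ∧ bits h (sε h f s β b) τ) ∧
      fin2 h (sε h f s β b) m ∧ y = jy m (cs (el f (s + 1)) (min (f s) s)) ∧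
      u = ju m (cs (el f (s + 1)) (min (f s) s)) := by
  obtain ⟨h1, h2, h3, h4⟩ := hn
  have hr := rch_of_WW (Or.inr (Or.inl h1))
  rw [h2] at hr
  refine ⟨hr, ?_⟩
  unfold WW at *
  rcases walk_cases (h := h) (EE h f s) (s + 1) with g | g | g | g
  · omega
  · omega
  · omega
  · obtain ⟨_, _, b, g1, g2⟩ := g
    rw [h2] at g1 g2
    refine ⟨b, g1, ?_⟩
    rw [g2] at h1 h3 h4
    rw [sc_eq] at h1 h3 h4
    obtain ⟨k1, k2⟩ := scn_spec (h := h) (sε h f s β b) s
    rcases k2 with k2 | ⟨k2, k3 | k3 | k3⟩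
    · omega
    · omega
    · rw [h3] at k2 k3
      refine ⟨k2, ⟨_, h3, k1⟩, k3.2.1, ?_⟩
      have h5 := k3.2.2.symm.trans h4
      rw [Prod.mk.injEq] at h5
      exact ⟨h5.1.symm, h5.2.symm⟩
    · omega

theorem cer_spec {s : ℕ} {β : Node} {m : ℕ} (hn : Cer h f s β m) :
    rch h (EE h f s) β ∧ ∃ b, bp h f s β = some b ∧ m < s ∧
      (∃ τ : Out, τ.length = m ∧ bits h (sε h f s β b) τ) ∧
      fin3 h (sε h f s β b) m := by
  obtain ⟨h1, h2, h3⟩ := hn
  have hr := rch_of_WW (Or.inr (Or.inr h1))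
  rw [h2] at hr
  refine ⟨hr, ?_⟩
  unfold WW at *
  rcases walk_cases (h := h) (EE h f s) (s + 1) with g | g | g | g
  · omega
  · omega
  · omega
  · obtain ⟨_, _, b, g1, g2⟩ := g
    rw [h2] at g1 g2
    refine ⟨b, g1, ?_⟩
    rw [g2] at h1 h3
    rw [sc_eq] at h1 h3
    obtain ⟨k1, k2⟩ := scn_spec (h := h) (sε h f s β b) s
    rcases k2 with k2 | ⟨k2, k3 | k3 | k3⟩
    · omega
    · omega
    · omega
    · rw [h3] at k2 k3
      exact ⟨k2, ⟨_, h3, k1⟩, k3.2.1⟩

theorem phase2_1 {s : ℕ} {w : WS} {L : List Rec} (h1 : w.2.1 = 1) :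
    phase2 s w L = L ++ [(w.1, ((s, 0), []))] := by unfold phase2; rw [h1]; rfl

theorem phase2_2 {s : ℕ} {w : WS} {L : List Rec} (h1 : w.2.1 = 2) :
    phase2 s w L = L.map (actS s w) := by unfold phase2; rw [h1]; rfl

theorem phase2_3 {s : ℕ} {w : WS} {L : List Rec} (h1 : w.2.1 = 3) :
    phase2 s w L = (L.filter fun ρ => !(low w.1 ρ.1)).map (actC s w) := by
  unfold phase2; rw [h1]; rfl

theorem phase2_4 {s : ℕ} {w : WS} {L : List Rec} (h1 : w.2.1 ≠ 1) (h2 : w.2.1 ≠ 2)
    (h3 : w.2.1 ≠ 3) : phase2 s w L = L := by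
  unfold phase2
  simp only [h1, h2, h3, decide_false, cond_false]

/-- where the bodies of the next stage come from -/
theorem bd_succ {s : ℕ} {β : Node} {b' : Body} (hb : bd h f (s + 1) β = some b') :
    (New h f s β ∧ b' = ((s, 0), [])) ∨
    ∃ b, bd h f s β = some b ∧ ¬ hu h f s β ∧ ¬ rem h f s β ∧
      (b' = rb (f s) b ∨
        (∃ m y u, Sta h f s β m y u ∧ b' = stB s m y u (rb (f s) b)) ∨
        (∃ m, Cer h f s β m ∧ b' = ceB s m (rb (f s) b))) := by
  unfold bd at hb
  rw [LL_succ] at hb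
  by_cases h1 : (WW h f s).2.1 = 1
  · have hnew : New h f s (WW h f s).1 := ⟨h1, rfl⟩
    have h2 := (new_spec hnew).2
    rw [phase2_1 h1] at hb
    rw [look_append_single _ _ _ h2] at hb
    by_cases h3 : (WW h f s).1 = β
    · rw [if_pos h3] at hb
      exact Or.inl ⟨⟨h1, h3⟩, (Option.some.inj hb).symm⟩
    · rw [if_neg h3] at hb
      obtain ⟨h4, b0, h5, h6⟩ := bp_some (h := h) (f := f) hb
      exact Or.inr ⟨b0, h5, h4, fun hr => by unfold rem at hr; omega, Or.inl h6⟩
  · by_cases h2 : (WW h f s).2.1 = 2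
    · rw [phase2_2 h2] at hb
      rw [look_map _ (actS_fst s _), Option.map_eq_some_iff] at hb
      obtain ⟨b1, hb1, hb2⟩ := hb
      obtain ⟨h4, b0, h5, h6⟩ := bp_some (h := h) (f := f) hb1
      refine Or.inr ⟨b0, h5, h4, fun hr => by unfold rem at hr; omega, ?_⟩
      unfold actS at hb2
      by_cases h3 : β = (WW h f s).1
      · simp only [h3, decide_true, cond_true] at hb2
        right; left
        refine ⟨_, (WW h f s).2.2.2.1, (WW h f s).2.2.2.2, ⟨h2, h3.symm, rfl, rfl⟩, ?_⟩
        rw [← hb2, h6]; rfl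
      · simp only [h3, decide_false, cond_false] at hb2
        left
        rw [← hb2, h6]
    · by_cases h3 : (WW h f s).2.1 = 3
      · rw [phase2_3 h3] at hb
        rw [look_filter_map (fun γ => !(low (WW h f s).1 γ)) _ (actC_fst s _)] at hb
        by_cases h7 : low (WW h f s).1 β = true
        · rw [h7] at hb
          simp at hb
        · have h8 : low (WW h f s).1 β = false := by simpa using h7
          rw [h8] at hb
          simp only [Bool.not_false, if_true, Option.map_eq_some_iff] at hb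
          obtain ⟨b1, hb1, hb2⟩ := hb
          obtain ⟨h4, b0, h5, h6⟩ := bp_some (h := h) (f := f) hb1
          refine Or.inr ⟨b0, h5, h4, fun hr => h7 hr.2, ?_⟩
          unfold actC at hb2
          by_cases h9 : β = (WW h f s).1
          · simp only [h9, decide_true, cond_true] at hb2
            right; right
            refine ⟨_, ⟨h3, h9.symm, rfl⟩, ?_⟩
            rw [← hb2, h6]; rfl
          · simp only [h9, decide_false, cond_false] at hb2
            left
            rw [← hb2, h6]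
      · rw [phase2_4 h1 h2 h3] at hb
        obtain ⟨h4, b0, h5, h6⟩ := bp_some (h := h) (f := f) hb
        exact Or.inr ⟨b0, h5, h4, fun hr => h3 hr.1, Or.inl h6⟩

/-- a record which is not removed -/
theorem bd_keep {s : ℕ} {β : Node} {b : Body} (hb : bd h f s β = some b) (hh : ¬ hu h f s β)
    (hr : ¬ rem h f s β) : ∃ b', bd h f (s + 1) β = some b' ∧ b'.1.1 = b.1.1 ∧
      ((∀ m, ¬ Cer h f s β m) → (∀ m y u, ¬ Sta h f s β m y u) → b' = rb (f s) b) ∧
      (∀ m y u, Sta h f s β m y u → b' = stB s m y u (rb (f s) b)) ∧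
      (∀ m, Cer h f s β m → b' = ceB s m (rb (f s) b)) := by
  have hbp := bp_of_bd hb hh
  unfold bd
  rw [LL_succ]
  by_cases h1 : (WW h f s).2.1 = 1
  · have h2 := (new_spec (h := h) (f := f) (s := s) ⟨h1, rfl⟩).2
    rw [phase2_1 h1]
    rw [look_append_single _ _ _ h2]
    have h3 : (WW h f s).1 ≠ β := by
      intro h3; rw [h3, hbp] at h2; exact absurd h2 (by simp)
    rw [if_neg h3]
    refine ⟨_, hbp, rfl, fun _ _ => rfl, ?_, ?_⟩
    · intro m y u hs; exact absurd hs.1 (by omega)
    · intro m hs; exact absurd hs.1 (by omega)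
  · by_cases h2 : (WW h f s).2.1 = 2
    · rw [phase2_2 h2]
      rw [look_map _ (actS_fst s _)]
      have h3 : look (EE h f s).2 β = some (rb (f s) b) := hbp
      rw [h3]
      by_cases h4 : β = (WW h f s).1
      · refine ⟨stB s (WW h f s).2.2.1.length (WW h f s).2.2.2.1 (WW h f s).2.2.2.2 (rb (f s) b),
          ?_, rfl, ?_, ?_, ?_⟩
        · simp only [Option.map_some]
          unfold actS
          simp only [h4, decide_true, cond_true]
          rfl
        · intro _ h5
          exact absurd ⟨h2, h4.symm, rfl, rfl⟩ (h5 _ _ _)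
        · rintro m y u ⟨_, _, h5, h6⟩
          rw [h5, h6]
        · intro m hs; exact absurd hs.1 (by omega)
      · refine ⟨rb (f s) b, ?_, rfl, fun _ _ => rfl, ?_, ?_⟩
        · simp only [Option.map_some]
          unfold actS
          simp only [h4, decide_false, cond_false]
        · intro m y u hs; exact absurd hs.2.1.symm h4
        · intro m hs; exact absurd hs.1 (by omega)
    · by_cases h3 : (WW h f s).2.1 = 3
      · rw [phase2_3 h3]
        rw [look_filter_map (fun γ => !(low (WW h f s).1 γ)) _ (actC_fst s _)]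
        have h8 : low (WW h f s).1 β = false := by
          by_contra h9
          exact hr ⟨h3, by simpa using h9⟩
        rw [h8]
        simp only [Bool.not_false, if_true]
        have h4 : look (EE h f s).2 β = some (rb (f s) b) := hbp
        rw [h4]
        by_cases h5 : β = (WW h f s).1
        · refine ⟨ceB s (WW h f s).2.2.1.length (rb (f s) b), ?_, rfl, ?_, ?_, ?_⟩
          · simp only [Option.map_some]
            unfold actC
            simp only [h5, decide_true, cond_true]
            rfl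
          · intro h6 _
            exact absurd ⟨h3, h5.symm, rfl⟩ (h6 _)
          · intro m y u hs; exact absurd hs.1 (by omega)
          · rintro m ⟨_, _, h6⟩
            rw [h6]
        · refine ⟨rb (f s) b, ?_, rfl, fun _ _ => rfl, ?_, ?_⟩
          · simp only [Option.map_some]
            unfold actC
            simp only [h5, decide_false, cond_false]
          · intro m y u hs; exact absurd hs.1 (by omega)
          · intro m hs; exact absurd hs.2.1.symm h5
      · rw [phase2_4 h1 h2 h3]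
        refine ⟨_, hbp, rfl, fun _ _ => rfl, ?_, ?_⟩
        · intro m y u hs; exact absurd hs.1 h2
        · intro m hs; exact absurd hs.1 h3

theorem bd_lost {s : ℕ} {β : Node} {b : Body} (hb : bd h f s β = some b)
    (hn : ∀ b', bd h f (s + 1) β = some b' → b'.1.1 ≠ b.1.1) : hu h f s β ∨ rem h f s β := by
  by_contra hcon
  rw [not_or] at hcon
  obtain ⟨b', h1, h2, _⟩ := bd_keep hb hcon.1 hcon.2
  exact hn b' h1 h2

end Pool.Agent.U35.SJ
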