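import Pool.Agent.U35.SJ.Settle
import Pool.Agent.U35.SJ.Comp

set_option autoImplicit false

/-! A node which is reached at all true stages has a module that is stuck. -/

namespace Pool.Agent.U35.SJ

open Pool.Agent.Helper446 Pool.Agent.Helper446.RE

variable {h f : ℕ → ℕ}

/-- the lists converge to the set -/
def Lim (l : ℕ → List ℕ) (X : Set ℕ) : Prop :=
  ∀ u, ∃ N, ∀ s ≥ N, ∀ x < u, (x ∈ l s ↔ x ∈ X)

theorem cs_ini {l : List ℕ} {X : Set ℕ} {n : ℕ} (hl : ∀ x < n, x ∈ l ↔ x ∈ X) :
    cs l n = ini X n := by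
  unfold cs ini
  apply List.map_congr_left
  intro x hx
  rw [List.mem_range] at hx
  exact decide_eq_decide.2 (hl x hx)

theorem Lim.va {l : ℕ → List ℕ} {X : Set ℕ} (hl : Lim l X) {m v : ℕ} (hj : Jmp X m v) :
    ∃ u N, ∀ s ≥ N, Va (l s) m v u := by
  obtain ⟨u, h1, h2⟩ := hj
  obtain ⟨N, hN⟩ := hl u
  refine ⟨u, N, fun s hs => ⟨?_, fun s' hs' => ?_⟩⟩
  · rw [cs_ini (hN s hs)]; exact h1
  · rw [cs_ini (fun x hx => hN s hs x (by omega))]; exact h2 s' hs'

theorem Jmp_unique {X : Set ℕ} {m v v' : ℕ} (h1 : Jmp X m v) (h2 : Jmp X m v') : v = v' := by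
  obtain ⟨s, a1, a2⟩ := h1
  obtain ⟨s', b1, b2⟩ := h2
  rcases Nat.lt_trichotomy s s' with hs | hs | hs
  · rw [b2 s hs] at a1; exact absurd a1 (by simp)
  · rw [hs, b1] at a1; exact (Option.some.inj a1).symm
  · rw [a2 s' hs] at b1; exact absurd b1 (by simp)

theorem mem_el (s x : ℕ) : x ∈ el f s ↔ ∃ t < s, f t = x := by
  unfold el
  simp

theorem lim_el (f : ℕ → ℕ) : Lim (el f) (Set.range f) := by
  intro u
  induction u with
  | zero => exact ⟨0, fun _ _ x hx => absurd hx (Nat.not_lt_zero _)⟩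
  | succ u ih =>
    obtain ⟨N, hN⟩ := ih
    by_cases hu : u ∈ Set.range f
    · obtain ⟨t, ht⟩ := hu
      refine ⟨max N (t + 1), fun s hs x hx => ?_⟩
      rcases Nat.lt_succ_iff_lt_or_eq.1 hx with h1 | rfl
      · exact hN s (by omega) x h1
      · rw [mem_el]
        exact ⟨fun ⟨t, _, h2⟩ => ⟨t, h2⟩, fun _ => ⟨t, by omega, ht⟩⟩
    · refine ⟨N, fun s hs x hx => ?_⟩
      rcases Nat.lt_succ_iff_lt_or_eq.1 hx with h1 | rfl
      · exact hN s (by omega) x h1
      · rw [mem_el]
        exact ⟨fun ⟨t, _, h2⟩ => ⟨t, h2⟩, fun h3 => absurd h3 hu⟩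

section trace
variable {β : Node} {r s0 : ℕ}

theorem Pers.mu_mono' (hp : Pers h f β r s0) {s t : ℕ} (hs : s0 ≤ s) (hst : s ≤ t) (k : ℕ) :
    mu (MM h f β s k) ≤ mu (MM h f β t k) := by
  induction t, hst using Nat.le_induction with
  | base => exact le_rfl
  | succ t ht ih => exact ih.trans (hp.mu_mono (by omega) k)

theorem Pers.cert_same (hp : Pers h f β r s0) {s t : ℕ} (hs : s0 ≤ s) (hst : s ≤ t) {k : ℕ}
    (hc : (MM h f β s k).2.1.2 = true) (hmu : mu (MM h f β t k) = mu (MM h f β s k)) :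
    (MM h f β t k).2.1.2 = true ∧ (MM h f β t k).1 = (MM h f β s k).1 ∧
      (MM h f β t k).2.2 = (MM h f β s k).2.2 := by
  induction t, hst using Nat.le_induction with
  | base => exact ⟨hc, rfl, rfl⟩
  | succ t ht ih =>
    have h1 := hp.mu_mono' hs ht k
    have h2 := hp.mu_mono (s := t) (by omega) k
    obtain ⟨g1, g2, g3⟩ := ih (by omega)
    have h3 : mu (MM h f β (t + 1) k) = mu (MM h f β t k) := by omega
    cases hh : hit (f t) (MM h f β t k) with
    | false =>
      have e := rst_of_not hh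
      rcases (hp.next (s := t) (by omega)).2.2.2 k with e1 | ⟨y, u, _, e0, e1⟩ | ⟨_, e0, e1⟩
      · rw [e1, e]; exact ⟨g1, g2, g3⟩
      · rw [e, hp.ct (by omega) g1] at e0; exact absurd e0.symm Bool.false_ne_true
      · rw [e1, e]; exact ⟨rfl, g2, g3⟩
    | true =>
      exfalso
      have e := rst_of_hit hh
      rw [g1] at e
      simp only [cond_true] at e
      have h4 : mu (MM h f β t k) = 2 * (MM h f β t k).1 + 1 := by
        unfold mu
        rw [g1]
        rfl
      have h5 := (hp.ix_mono (s := t) (by omega) k).2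
      unfold PP at h5
      rw [e] at h5
      simp only at h5
      have h6 : 2 * (MM h f β (t + 1) k).1 ≤ mu (MM h f β (t + 1) k) := by
        unfold mu
        omega
      omega

/-- the certified values -/
def CV (h f : ℕ → ℕ) (β : Node) (s0 k y : ℕ) : Prop :=
  ∃ s, s0 ≤ s ∧ (MM h f β s k).2.1.2 = true ∧ (MM h f β s k).2.2.1 = y

theorem Pers.cv_inj (hp : Pers h f β r s0) {s t : ℕ} (hs : s0 ≤ s) (ht : s0 ≤ t) {k : ℕ}
    (hc : (MM h f β s k).2.1.2 = true) (hc' : (MM h f β t k).2.1.2 = true)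
    (hi : (MM h f β s k).1 = (MM h f β t k).1) :
    (MM h f β s k).2.2.1 = (MM h f β t k).2.2.1 := by
  have hmu : mu (MM h f β t k) = mu (MM h f β s k) := by
    unfold mu
    rw [hc, hc', hi]
  rcases Nat.le_total s t with h1 | h1
  · rw [(hp.cert_same hs h1 hc hmu).2.2]
  · rw [(hp.cert_same ht h1 hc' hmu.symm).2.2]

theorem Pers.cv_ac (hp : Pers h f β r s0) {s : ℕ} (hs : s0 ≤ s) {k : ℕ}
    (hc : (MM h f β s k).2.1.2 = true) :
    ¬ skp h r k ∧ (MM h f β s k).1 < h k := by
  have h1 := (inv (h := h) (f := f) s).ac β _ k (hp s hs).1 (hp.ct hs hc)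
  rw [(hp s hs).2] at h1
  exact ⟨h1.1, h1.2.1⟩

theorem Pers.cv_card (hp : Pers h f β r s0) (k : ℕ) :
    {y | CV h f β s0 k y}.Finite ∧ {y | CV h f β s0 k y}.ncard ≤ h k := by
  classical
  let g : ℕ → ℕ := fun y => if hy : CV h f β s0 k y then (MM h f β (Classical.choose hy) k).1
    else 0
  have hmap : ∀ y ∈ {y | CV h f β s0 k y}, g y ∈ Set.Iio (h k) := by
    intro y hy
    have hy' : CV h f β s0 k y := hy
    have h1 := Classical.choose_spec hy'
    simp only [g, dif_pos hy', Set.mem_Iio]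
    exact (hp.cv_ac h1.1 h1.2.1).2
  have hinj : Set.InjOn g {y | CV h f β s0 k y} := by
    intro y hy z hz hyz
    have hy' : CV h f β s0 k y := hy
    have hz' : CV h f β s0 k z := hz
    have h1 := Classical.choose_spec hy'
    have h2 := Classical.choose_spec hz'
    simp only [g, dif_pos hy', dif_pos hz'] at hyz
    have := hp.cv_inj h1.1 h2.1 h1.2.1 h2.2.1 hyz
    rw [h1.2.2, h2.2.2] at this
    exact this
  refine ⟨?_, ?_⟩
  · apply Set.Finite.of_finite_image _ hinj
    exact (Set.finite_Iio (h k)).subset (Set.image_subset_iff.2 hmap)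
  · have h1 := Set.ncard_le_ncard_of_injOn g hmap hinj (Set.finite_Iio (h k))
    have h2 : (Set.Iio (h k)).ncard = h k := by
      rw [Set.ncard_eq_toFinset_card', Set.toFinset_Iio, Nat.card_Iio]
    exact h1.trans h2.le

theorem cMM (hh : Computable h) (hf : Computable f) (β : Node) {α : Type} [Primcodable α]
    {g k : α → ℕ} (hg : Computable g) (hk : Computable k) :
    Computable fun x => MM h f β (g x) (k x) := by
  have h1 : Computable fun x => (stt h f (g x)).1 := Computable.fst.comp (cstt hh hf hg)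
  have h2 : Computable fun x => look ((stt h f (g x)).1) β := clook h1 (Computable.const β)
  have h3 : Computable fun x => (look ((stt h f (g x)).1) β).getD ((0, 0), []) :=
    coptGetD _ h2
  exact cmg (Computable.snd.comp h3) hk

theorem re_CV (hh : Computable h) (hf : Computable f) (β : Node) (s0 : ℕ) :
    REPred fun p : ℕ × ℕ × List Bool => CV h f β s0 p.1 p.2.1 := by
  unfold CV
  refine RE.ex (p := fun (p : ℕ × ℕ × List Bool) (s : ℕ) => s0 ≤ s ∧
    (MM h f β s p.1).2.1.2 = true ∧ (MM h f β s p.1).2.2.1 = p.2.1) ?_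
  have h1 : Computable fun x : (ℕ × ℕ × List Bool) × ℕ => MM h f β x.2 x.1.1 :=
    cMM hh hf β Computable.snd (Computable.fst.comp Computable.fst)
  refine RE.and (RE.le (by fun_prop) (by fun_prop)) (RE.and (RE.eq ?_ (by fun_prop))
    (RE.eq ?_ (by fun_prop)))
  · exact Computable.snd.comp (Computable.fst.comp (Computable.snd.comp h1))
  · exact Computable.fst.comp (Computable.snd.comp (Computable.snd.comp h1))

/-- `E` has no trace bounded by `h` -/
def NoTr (h : ℕ → ℕ) (E : Set ℕ) : Prop :=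
  ¬ ∃ T : ℕ → Set ℕ, UCE ∅ T ∧ (∀ n, (T n).Finite ∧ (T n).ncard ≤ h n) ∧
    ∀ n v, Jmp E n v → v ∈ T n

theorem Pers.exists_stk (hp : Pers h f β r s0) (hv : Vis h f β s0) (hord : IsOrder h)
    (hf : Computable f) (hinj : Function.Injective f) (hE : NoTr h (Set.range f)) :
    ∃ k0, (∀ m < k0, SetF h f β m ∨ SetI h f β m) ∧ Stk h f β k0 := by
  by_contra hcon
  push Not at hcon
  have hall : ∀ k, SetF h f β k ∨ SetI h f β k := by
    intro k
    induction k using Nat.strong_induction_on with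
    | _ k ih =>
      rcases hp.trichotomy hv ih with h1 | h1 | h1
      · exact Or.inl h1
      · exact Or.inr h1
      · exact absurd h1 (hcon k ih)
  apply hE
  obtain ⟨n0, hn0⟩ := hord.unb (r + 2)
  have hskp : ∀ k, skp h r k → k < n0 := by
    intro k hk
    by_contra hcon
    have := hord.mono (not_lt.1 hcon)
    unfold skp at hk
    omega
  have hfin : {p : ℕ × ℕ | skp h r p.1 ∧ Jmp (Set.range f) p.1 p.2}.Finite := by
    apply Set.Finite.of_finite_image (f := Prod.fst)
    · apply (Set.finite_Iio n0).subset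
      rintro _ ⟨p, hp, rfl⟩
      exact hskp _ hp.1
    · rintro ⟨a, b⟩ hab ⟨c, d⟩ hcd heq
      have h1 : a = c := heq
      subst h1
      have h2 : b = d := Jmp_unique hab.2 hcd.2
      rw [h2]
  refine ⟨fun k => {y | (skp h r k ∧ Jmp (Set.range f) k y) ∨ CV h f β s0 k y}, ?_, ?_, ?_⟩
  · refine ⟨fun p => (p.1, p.2.1) ∈ hfin.toFinset.toList ∨ CV h f β s0 p.1 p.2.1, ?_, ?_⟩
    · exact RE.or (RE.mem_list (by fun_prop) (by fun_prop)) (re_CV hord.comp hf β s0)
    · intro n v
      simp only [Finset.mem_toList, Set.Finite.mem_toFinset, Set.mem_ofPred_eq]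
      exact ⟨fun h1 => ⟨0, h1⟩, fun ⟨_, h1⟩ => h1⟩
  · intro k
    show {y | (skp h r k ∧ Jmp (Set.range f) k y) ∨ CV h f β s0 k y}.Finite ∧
      {y | (skp h r k ∧ Jmp (Set.range f) k y) ∨ CV h f β s0 k y}.ncard ≤ h k
    by_cases hk : skp h r k
    · have hsub : {y | (skp h r k ∧ Jmp (Set.range f) k y) ∨ CV h f β s0 k y}.Subsingleton := by
        rintro y (hy | hy) z (hz | hz)
        · exact Jmp_unique hy.2 hz.2
        · obtain ⟨s, hs, hc, _⟩ := hz
          exact absurd hk (hp.cv_ac hs hc).1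
        · obtain ⟨s, hs, hc, _⟩ := hy
          exact absurd hk (hp.cv_ac hs hc).1
        · obtain ⟨s, hs, hc, _⟩ := hy
          exact absurd hk (hp.cv_ac hs hc).1
      refine ⟨hsub.finite, ?_⟩
      have h1 := hsub.finite
      have h2 : {y | (skp h r k ∧ Jmp (Set.range f) k y) ∨ CV h f β s0 k y}.ncard ≤ 1 :=
        have : Finite ↑{y | (skp h r k ∧ Jmp (Set.range f) k y) ∨ CV h f β s0 k y} := h1
        Set.ncard_le_one_iff_subsingleton.2 hsub
      have h3 := hord.pos
      have h4 := hord.mono (Nat.zero_le k)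
      omega
    · have heq : {y | (skp h r k ∧ Jmp (Set.range f) k y) ∨ CV h f β s0 k y} =
          {y | CV h f β s0 k y} := by
        ext y
        simp only [Set.mem_ofPred_eq]
        exact ⟨fun h1 => h1.elim (fun h2 => absurd h2.1 hk) id, Or.inr⟩
      rw [heq]
      exact hp.cv_card k
  · intro k v hj
    by_cases hk : skp h r k
    · exact Or.inl ⟨hk, hj⟩
    right
    obtain ⟨u, N, hva⟩ := (lim_el f).va hj
    rcases hall k with ⟨s1, h1⟩ | ⟨s1, h1⟩
    · -- the module is certified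
      have hs : s0 ≤ max (max s0 s1) N := by omega
      have h2 := h1 (max (max s0 s1) N) (by omega)
      unfold BK bitOK at h2
      rw [if_neg (by decide), hp.rank hs, mg_pb] at h2
      rcases h2 with h2 | ⟨h2, h3, h4⟩
      · exact absurd h2 hk
      · unfold PP at h3 h4
        obtain ⟨g1, g2, g3, _⟩ := rst_act h3
        rw [g1] at h4
        have h5 := (inv (h := h) (f := f) (max (max s0 s1) N)).ac β _ k (hp _ hs).1 g3
        have h6 := (h5.2.2.2.2.2.1).unique (hva _ (by omega))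
        exact ⟨_, hs, h4, h6.1⟩
    · -- the module is found at a true stage
      exfalso
      obtain ⟨N2, hN2⟩ := f_large hinj u
      obtain ⟨t, ht, hts⟩ := TS_inf hinj (max (max s1 s0) (max (max N N2) u))
      have h2 := h1 t (by omega) hts
      unfold BK bitOK at h2
      rw [if_pos rfl, cs_length] at h2
      have h3 := hva (t + 1) (by omega)
      have h4 := hN2 t (by omega)
      have h5 := ju_of_Va (n := min (f t) t) h3 (by omega)
      rw [h5.1] at h2
      omega

end trace

end Pool.Agent.U35.SJ
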