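import Pool.Agent.U35.SJ.Scan

set_option autoImplicit false

/-! What one stage does to the bodies of the nodes. -/

namespace Pool.Agent.U35.SJ

open Pool.Agent.Helper446.RE

theorem look_cons (k : Node) (b : Body) (L : List Rec) (β : Node) :
    look ((k, b) :: L) β = if k = β then some b else look L β := by
  unfold look
  rw [List.findIdx_cons]
  by_cases h : k = β
  · simp [h]
  · simp [h]

@[simp] theorem look_nil (β : Node) : look [] β = none := rfl

theorem look_mem {L : List Rec} {β : Node} {b : Body} (h : look L β = some b) : (β, b) ∈ L := by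
  induction L with
  | nil => simp at h
  | cons ρ L ih =>
    obtain ⟨k, c⟩ := ρ
    rw [look_cons] at h
    by_cases hk : k = β
    · subst hk
      rw [if_pos rfl] at h
      rw [Option.some.inj h]
      exact List.mem_cons_self
    · rw [if_neg hk] at h
      exact List.mem_cons_of_mem _ (ih h)

/-- the keys are different -/
def ND (L : List Rec) : Prop := (L.map Prod.fst).Nodup

theorem look_of_mem {L : List Rec} (hL : ND L) {β : Node} {b : Body} (h : (β, b) ∈ L) :
    look L β = some b := by
  induction L with
  | nil => simp at h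
  | cons ρ L ih =>
    obtain ⟨k, c⟩ := ρ
    unfold ND at hL
    rw [List.map_cons, List.nodup_cons] at hL
    rw [look_cons]
    rcases List.mem_cons.1 h with h1 | h1
    · rw [Prod.mk.injEq] at h1
      rw [if_pos h1.1.symm, h1.2]
    · have : k ≠ β := by
        rintro rfl
        exact hL.1 (List.mem_map.2 ⟨_, h1, rfl⟩)
      rw [if_neg this]
      exact ih hL.2 h1

theorem look_none_not_mem {L : List Rec} {β : Node} (h : look L β = none) :
    β ∉ L.map Prod.fst := by
  induction L with
  | nil => simp
  | cons ρ L ih =>
    obtain ⟨k, c⟩ := ρ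
    rw [look_cons] at h
    by_cases hk : k = β
    · rw [if_pos hk] at h; exact absurd h (by simp)
    · rw [if_neg hk] at h
      rw [List.map_cons, List.mem_cons, not_or]
      exact ⟨fun h => hk h.symm, ih h⟩

theorem look_filter_map (p : Node → Bool) (g : Rec → Rec) (hg : ∀ ρ, (g ρ).1 = ρ.1)
    (L : List Rec) (β : Node) :
    look ((L.filter fun ρ => p ρ.1).map g) β =
      if p β = true then (look L β).map fun b => (g (β, b)).2 else none := by
  induction L with
  | nil => simp
  | cons ρ L ih =>
    obtain ⟨k, c⟩ := ρ
    rw [List.filter_cons]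
    by_cases hk : k = β
    · subst hk
      by_cases hp : p k = true
      · rw [if_pos (by exact hp), List.map_cons]
        have : g (k, c) = ((g (k, c)).1, (g (k, c)).2) := rfl
        rw [this, look_cons, if_pos (hg _), look_cons, if_pos rfl, if_pos hp]
        rfl
      · rw [if_neg (by exact hp), ih, if_neg hp, if_neg hp]
    · by_cases hp : p k = true
      · rw [if_pos (by exact hp), List.map_cons]
        have : g (k, c) = ((g (k, c)).1, (g (k, c)).2) := rfl
        rw [this, look_cons, if_neg (by rw [hg]; exact hk), look_cons, if_neg hk, ih]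
      · rw [if_neg (by exact hp), ih, look_cons, if_neg hk]

theorem look_map (g : Rec → Rec) (hg : ∀ ρ, (g ρ).1 = ρ.1) (L : List Rec) (β : Node) :
    look (L.map g) β = (look L β).map fun b => (g (β, b)).2 := by
  have := look_filter_map (fun _ => true) g hg L β
  rw [if_pos rfl] at this
  rw [← this]
  congr 1
  simp

theorem look_append_single (L : List Rec) (k : Node) (b : Body) (hk : look L k = none)
    (β : Node) : look (L ++ [(k, b)]) β = if k = β then some b else look L β := by
  induction L with
  | nil => rw [List.nil_append, look_cons]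
  | cons ρ L ih =>
    obtain ⟨k', c⟩ := ρ
    rw [look_cons] at hk
    by_cases hkk : k' = k
    · rw [if_pos hkk] at hk; exact absurd hk (by simp)
    · rw [if_neg hkk] at hk
      rw [List.cons_append, look_cons, look_cons, ih hk]
      by_cases h1 : k' = β
      · rw [if_pos h1, if_pos h1, if_neg]
        intro h2; exact hkk (h1.trans h2.symm)
      · rw [if_neg h1, if_neg h1]

theorem mg_map (g : Mod → Mod) (hg : g dflt = dflt) (l : List Mod) (m : ℕ) :
    mg (l.map g) m = g (mg l m) := by
  unfold mg
  by_cases h : m < l.length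
  · rw [List.getD_eq_getElem _ _ (by simpa using h), List.getD_eq_getElem _ _ h,
      List.getElem_map]
  · rw [List.getD_eq_default _ _ (by simpa using h), List.getD_eq_default _ _ (by simpa using h),
      hg]

theorem mg_tab (g : ℕ → Mod) (n k : ℕ) :
    mg ((List.range n).map g) k = if k < n then g k else dflt := by
  unfold mg
  by_cases h : k < n
  · rw [List.getD_eq_getElem _ _ (by simpa using h), if_pos h]
    simp
  · rw [List.getD_eq_default _ _ (by simpa using h), if_neg h]

theorem mg_ms (l : List Mod) (m : ℕ) (x : Mod) (k : ℕ) :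
    mg (ms l m x) k = if k = m then x else mg l k := by
  unfold ms
  rw [mg_tab]
  by_cases h : k < max l.length (m + 1)
  · rw [if_pos h]
    by_cases hk : k = m <;> simp [hk]
  · have h2 : k ≠ m := by omega
    rw [if_neg h, if_neg h2]
    have h3 : l.length ≤ k := by omega
    unfold mg
    exact (List.getD_eq_default _ _ h3).symm

@[simp] theorem mg_nil (m : ℕ) : mg [] m = dflt := by
  unfold mg; simp

@[simp] theorem hit_dflt (a : ℕ) : hit a dflt = false := rfl

@[simp] theorem rst_dflt (a : ℕ) : rst a dflt = dflt := rfl

theorem mg_lt {l : List Mod} {m a : ℕ} (h : hit a (mg l m) = true) : m < l.length := by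
  by_contra hcon
  have : mg l m = dflt := by unfold mg; exact List.getD_eq_default _ _ (by omega)
  rw [this] at h
  simp at h

/-- the reset of a body -/
def rb (a : ℕ) (b : Body) : Body := (b.1, b.2.map (rst a))

@[simp] theorem rb_fst (a : ℕ) (b : Body) : (rb a b).1 = b.1 := rfl

theorem mg_rb (a : ℕ) (b : Body) (m : ℕ) : mg (rb a b).2 m = rst a (mg b.2 m) :=
  mg_map _ (rst_dflt a) _ _

theorem isHurt_iff {a : ℕ} {L : List Rec} (hL : ND L) (β : Node) :
    isHurt a L β = true ↔ ∃ γ b m, look L γ = some b ∧ hit a (mg b.2 m) = true ∧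
      hurt γ m β = true := by
  unfold isHurt
  rw [List.any_eq_true]
  constructor
  · rintro ⟨ρ, hρ, h⟩
    rw [List.any_eq_true] at h
    obtain ⟨m, hm, h⟩ := h
    rw [Bool.and_eq_true] at h
    exact ⟨ρ.1, ρ.2, m, look_of_mem hL hρ, h.1, h.2⟩
  · rintro ⟨γ, b, m, h1, h2, h3⟩
    refine ⟨(γ, b), look_mem h1, ?_⟩
    rw [List.any_eq_true]
    exact ⟨m, List.mem_range.2 (mg_lt h2), by rw [Bool.and_eq_true]; exact ⟨h2, h3⟩⟩

theorem mks_iff {q a : ℕ} {L : List Rec} (hL : ND L) (x : ℕ) :
    x ∈ mks q a L ↔ ∃ γ b m, look L γ = some b ∧ γ.length % 2 = q ∧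
      hit a (mg b.2 m) = true ∧ (mg b.2 m).2.2.2.2 = x := by
  unfold mks
  rw [List.mem_flatMap]
  constructor
  · rintro ⟨ρ, hρ, h⟩
    by_cases hq : ρ.1.length % 2 = q
    · simp only [hq, decide_true, cond_true] at h
      rw [List.mem_map] at h
      obtain ⟨md, h1, h2⟩ := h
      rw [List.mem_filter] at h1
      obtain ⟨m, hm, hm2⟩ := List.mem_iff_getElem.1 h1.1
      have : mg ρ.2.2 m = md := by
        unfold mg; rw [List.getD_eq_getElem _ _ hm, hm2]
      exact ⟨ρ.1, ρ.2, m, look_of_mem hL hρ, hq, by rw [this]; exact h1.2, by rw [this]; exact h2⟩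
    · simp only [hq, decide_false, cond_false] at h
      simp at h
  · rintro ⟨γ, b, m, h1, h2, h3, h4⟩
    refine ⟨(γ, b), look_mem h1, ?_⟩
    simp only [h2, decide_true, cond_true]
    rw [List.mem_map]
    refine ⟨mg b.2 m, ?_, h4⟩
    rw [List.mem_filter]
    refine ⟨?_, h3⟩
    have hm := mg_lt h3
    have : mg b.2 m = b.2[m] := by unfold mg; rw [List.getD_eq_getElem _ _ hm]
    rw [this]
    exact List.getElem_mem _

theorem look_phase1 (a : ℕ) (L : List Rec) (β : Node) :
    look (phase1 a L) β = if isHurt a L β = true then none else (look L β).map (rb a) := by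
  unfold phase1
  rw [look_filter_map (fun γ => !(isHurt a L γ))
    (fun ρ => (ρ.1, (ρ.2.1, ρ.2.2.map (rst a)))) (fun _ => rfl)]
  cases isHurt a L β <;> rfl

theorem ND_filter_map (p : Node → Bool) (g : Rec → Rec) (hg : ∀ ρ, (g ρ).1 = ρ.1)
    {L : List Rec} (hL : ND L) : ND ((L.filter fun ρ => p ρ.1).map g) := by
  unfold ND at *
  rw [List.map_map]
  have : (Prod.fst ∘ g : Rec → Node) = Prod.fst := funext hg
  rw [this]
  exact hL.sublist (List.filter_sublist.map _)

theorem ND_map (g : Rec → Rec) (hg : ∀ ρ, (g ρ).1 = ρ.1)
    {L : List Rec} (hL : ND L) : ND (L.map g) := by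
  unfold ND at *
  rw [List.map_map]
  have : (Prod.fst ∘ g : Rec → Node) = Prod.fst := funext hg
  rw [this]
  exact hL

theorem ND_phase1 (a : ℕ) {L : List Rec} (hL : ND L) : ND (phase1 a L) :=
  ND_filter_map (fun γ => !(isHurt a L γ)) (fun ρ => (ρ.1, (ρ.2.1, ρ.2.2.map (rst a))))
    (fun _ => rfl) hL

theorem actS_fst (s : ℕ) (w : WS) (ρ : Rec) : (actS s w ρ).1 = ρ.1 := by
  unfold actS
  cases decide (ρ.1 = w.1) <;> rfl

theorem actC_fst (s : ℕ) (w : WS) (ρ : Rec) : (actC s w ρ).1 = ρ.1 := by
  unfold actC
  cases decide (ρ.1 = w.1) <;> rfl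

theorem ND_phase2 (s : ℕ) (w : WS) {L : List Rec} (hL : ND L)
    (hw : w.2.1 = 1 → look L w.1 = none) : ND (phase2 s w L) := by
  unfold phase2
  by_cases h1 : w.2.1 = 1
  · simp only [h1, decide_true, cond_true]
    unfold ND
    rw [List.map_append]
    unfold ND at hL
    rw [List.nodup_append]
    refine ⟨hL, by simp, ?_⟩
    intro x hx y hy
    simp only [List.map_cons, List.map_nil, List.mem_singleton] at hy
    subst hy
    rintro rfl
    exact look_none_not_mem (hw h1) hx
  · simp only [h1, decide_false, cond_false]
    by_cases h2 : w.2.1 = 2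
    · simp only [h2, decide_true, cond_true]
      exact ND_map _ (actS_fst s w) hL
    · simp only [h2, decide_false, cond_false]
      by_cases h3 : w.2.1 = 3
      · simp only [h3, decide_true, cond_true]
        exact ND_filter_map (fun γ => !(low w.1 γ)) _ (actC_fst s w) hL
      · simp only [h3, decide_false, cond_false]
        exact hL

/-! ### The walk -/

variable {h : ℕ → ℕ}

def run0 : SR := (0, ([], (0, 0)))

theorem wk_succ (ε : WE) (k : ℕ) : wk h ε (k + 1) = wstep h ε (wk h ε k) := rfl

theorem wk_stop {ε : WE} {k : ℕ} (h0 : (wk h ε k).2.1 ≠ 0) {k' : ℕ} (hk : k ≤ k') :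
    wk h ε k' = wk h ε k := by
  induction k', hk using Nat.le_induction with
  | base => rfl
  | succ k' _ ih =>
    rw [wk_succ, ih]
    unfold wstep
    simp only [h0, decide_false, cond_false]

/-- the node `β` is reached by the walk after `|β|` steps -/
def rch (h : ℕ → ℕ) (ε : WE) (β : Node) : Prop := wk h ε β.length = (β, run0)

theorem rch_nil (ε : WE) : rch h ε [] := rfl

theorem run_step {ε : WE} {β : Node} (hr : rch h ε β) :
    wk h ε (β.length + 1) =
      (look ε.2 β).elim (β, (1, ([], (0, 0)))) fun b => wb h ε β b := by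
  rw [wk_succ]
  unfold rch at hr
  rw [hr]
  rfl

theorem run_iff (ε : WE) (k : ℕ) (h0 : (wk h ε k).2.1 = 0) :
    (wk h ε k).1.length = k ∧ rch h ε (wk h ε k).1 := by
  induction k with
  | zero => exact ⟨rfl, rfl⟩
  | succ k ih =>
    by_cases h1 : (wk h ε k).2.1 = 0
    · obtain ⟨ih1, ih2⟩ := ih h1
      have h2 := run_step ih2
      rw [ih1] at h2
      generalize (wk h ε k).1 = β at *
      cases hl : look ε.2 β with
      | none =>
        rw [hl] at h2
        rw [h2] at h0
        simp only [Option.elim_none] at h0
        exact absurd h0 one_ne_zero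
      | some b =>
        rw [hl] at h2
        simp only [Option.elim_some] at h2
        have h3 : wk h ε (k + 1) = (β ++ [(sc h ε β b).2.1], run0) := by
          rw [h2] at h0 ⊢
          unfold wb at h0 ⊢
          by_cases c0 : (sc h ε β b).1 = 0
          · simp only [c0, decide_true, cond_true] at h0
            exact absurd h0 (by decide)
          · simp only [c0, decide_false, cond_false] at h0 ⊢
            by_cases c1 : (sc h ε β b).1 = 1
            · simp only [c1, decide_true, cond_true]
              rfl
            · simp only [c1, decide_false, cond_false] at h0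
              exact absurd h0 c0
        rw [h3]
        constructor
        · simp [ih1]
        · unfold rch
          simp only [List.length_append, List.length_cons, List.length_nil, ih1]
          exact h3
    · rw [wk_stop h1 (Nat.le_succ k)] at h0
      exact absurd h0 h1

/-- how a longer node is reached -/
theorem rch_snoc {ε : WE} {β : Node} {τ : Out} :
    rch h ε (β ++ [τ]) ↔ rch h ε β ∧ ∃ b, look ε.2 β = some b ∧ (sc h ε β b).1 = 1 ∧
      (sc h ε β b).2.1 = τ := by
  constructor
  · intro hr
    unfold rch at hr
    simp only [List.length_append, List.length_cons, List.length_nil] at hr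
    have h1 : (wk h ε β.length).2.1 = 0 := by
      by_contra h1
      rw [zero_add, wk_stop h1 (Nat.le_succ _)] at hr
      rw [hr] at h1
      exact h1 rfl
    obtain ⟨h2, h3⟩ := run_iff ε _ h1
    have h4 := run_step h3
    rw [h2, hr] at h4
    generalize (wk h ε β.length).1 = β' at *
    cases hl : look ε.2 β' with
    | none =>
      rw [hl] at h4
      simp only [Option.elim_none, Prod.mk.injEq, run0] at h4
      exact absurd h4.2.1 (by decide)
    | some b =>
      rw [hl] at h4
      simp only [Option.elim_some] at h4
      unfold wb at h4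
      by_cases c0 : (sc h ε β' b).1 = 0
      · simp only [c0, decide_true, cond_true, Prod.mk.injEq, run0] at h4
        exact absurd h4.2.1 (by decide)
      · simp only [c0, decide_false, cond_false] at h4
        by_cases c1 : (sc h ε β' b).1 = 1
        · simp only [c1, decide_true, cond_true, Prod.mk.injEq] at h4
          have h5 := List.append_inj' h4.1 rfl
          have h6 : β = β' := h5.1
          subst h6
          refine ⟨h3, b, hl, c1, ?_⟩
          have := h5.2
          simp only [List.cons.injEq, and_true] at this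
          exact this.symm
        · simp only [c1, decide_false, cond_false, Prod.mk.injEq, run0] at h4
          exact absurd (by rw [← h4.2]) c0
  · rintro ⟨h1, b, h2, h3, h4⟩
    unfold rch
    simp only [List.length_append, List.length_cons, List.length_nil, zero_add]
    rw [run_step h1, h2]
    simp only [Option.elim_some]
    unfold wb
    simp only [h3, decide_true, cond_true, h4]
    rfl

theorem rch_split {ε : WE} {β : Node} {τ : Out} {β' : Node} (hr : rch h ε (β ++ τ :: β')) :
    rch h ε β ∧ ∃ b, look ε.2 β = some b ∧ (sc h ε β b).1 = 1 ∧ (sc h ε β b).2.1 = τ := by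
  induction β' using List.reverseRecOn with
  | nil => exact rch_snoc.1 hr
  | append_singleton β' τ' ih =>
    have : β ++ τ :: (β' ++ [τ']) = (β ++ τ :: β') ++ [τ'] := by simp
    rw [this] at hr
    exact ih (rch_snoc.1 hr).1

theorem sc_kind (ε : WE) (β : Node) (b : Body) : (sc h ε β b).1 = 0 ∨ (sc h ε β b).1 = 1 ∨
    (sc h ε β b).1 = 2 ∨ (sc h ε β b).1 = 3 := by
  unfold sc
  rcases (scn_spec (h := h) ((ε.1.1, (ε.1.2.1, bif decide (β.length % 2 = 0) then ε.1.2.2.2 else
    ε.1.2.2.1)), (β.length, b)) ε.1.1).2 with ⟨h1, _⟩ | ⟨_, ⟨h1, _⟩ | ⟨h1, _⟩ | ⟨h1, _⟩⟩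
  · exact Or.inl h1
  · exact Or.inr (Or.inl h1)
  · exact Or.inr (Or.inr (Or.inl h1))
  · exact Or.inr (Or.inr (Or.inr h1))

/-- the result of the walk -/
theorem walk_cases (ε : WE) (n : ℕ) :
    (wk h ε n).2.1 = 0 ∨ ((wk h ε n).2.1 = 1 ∧ rch h ε (wk h ε n).1 ∧
        look ε.2 (wk h ε n).1 = none) ∨
      (wk h ε n).2.1 = 4 ∨
      (((wk h ε n).2.1 = 2 ∨ (wk h ε n).2.1 = 3) ∧ rch h ε (wk h ε n).1 ∧
        ∃ b, look ε.2 (wk h ε n).1 = some b ∧ (wk h ε n).2 = sc h ε (wk h ε n).1 b) := by
  induction n with
  | zero => exact Or.inl rfl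
  | succ k ih =>
    by_cases h1 : (wk h ε k).2.1 = 0
    · obtain ⟨ih1, ih2⟩ := run_iff ε k h1
      have h2 := run_step ih2
      rw [ih1] at h2
      rw [h2]
      generalize (wk h ε k).1 = β at *
      cases hl : look ε.2 β with
      | none =>
        simp only [Option.elim_none]
        exact Or.inr (Or.inl ⟨trivial, ih2, hl⟩)
      | some b =>
        simp only [Option.elim_some]
        unfold wb
        by_cases c0 : (sc h ε β b).1 = 0
        · simp only [c0, decide_true, cond_true]
          exact Or.inr (Or.inr (Or.inl trivial))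
        · simp only [c0, decide_false, cond_false]
          by_cases c1 : (sc h ε β b).1 = 1
          · simp only [c1, decide_true, cond_true]
            exact Or.inl trivial
          · simp only [c1, decide_false, cond_false]
            refine Or.inr (Or.inr (Or.inr ⟨?_, ih2, b, hl, rfl⟩))
            rcases sc_kind (h := h) ε β b with h3 | h3 | h3 | h3
            · exact absurd h3 c0
            · exact absurd h3 c1
            · exact Or.inl h3
            · exact Or.inr h3
    · rw [wk_stop h1 (Nat.le_succ k)]
      exact ih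

/-- if a node is reached, and does something there, then this is the result of the walk -/
theorem walk_of_rch {ε : WE} {β : Node} (hr : rch h ε β) {b : Body} (hb : look ε.2 β = some b)
    (hk : (sc h ε β b).1 = 2 ∨ (sc h ε β b).1 = 3) {n : ℕ} (hn : β.length < n) :
    wk h ε n = (β, sc h ε β b) := by
  have h1 := run_step hr
  rw [hb] at h1
  simp only [Option.elim_some] at h1
  have h2 : wb h ε β b = (β, sc h ε β b) := by
    unfold wb
    have c0 : (sc h ε β b).1 ≠ 0 := by rcases hk with h | h <;> rw [h] <;> decide
    have c1 : (sc h ε β b).1 ≠ 1 := by rcases hk with h | h <;> rw [h] <;> decide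
    simp only [c0, c1, decide_false, cond_false]
  rw [h2] at h1
  rw [wk_stop (k := β.length + 1) _ (by omega), h1]
  rw [h1]
  rcases hk with h | h <;> rw [h] <;> decide

theorem walk_of_rch_none {ε : WE} {β : Node} (hr : rch h ε β) (hb : look ε.2 β = none)
    {n : ℕ} (hn : β.length < n) : wk h ε n = (β, (1, ([], (0, 0)))) := by
  have h1 := run_step hr
  rw [hb] at h1
  simp only [Option.elim_none] at h1
  rw [wk_stop (k := β.length + 1) _ (by omega), h1]
  rw [h1]
  exact one_ne_zero

end Pool.Agent.U35.SJ
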