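import Pool.Agent.U35.SJ.Enum

set_option autoImplicit false

/-! The function `J` is a universal partial computable function, relative to every set; traces and
domains of partial computable functions. -/

namespace Pool.Agent.U35.SJ

open Pool.Agent.Helper446 Pool.Agent.Helper446.RE Pool.Agent.Helper446.Defs
open Nat.Partrec (Code)
open Nat.Partrec.Code (evaln)
open Encodable

theorem ini_get (X : Set ℕ) (k x : ℕ) (b : Bool) :
    (ini X k)[x]? = some b ↔ x < k ∧ (b = true ↔ x ∈ X) := by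
  classical
  unfold ini
  rw [List.getElem?_map]
  by_cases hx : x < k
  · rw [List.getElem?_range hx]
    simp only [Option.map_some, Option.some.injEq, hx, true_and]
    cases b
    · simp
    · simp
  · rw [List.getElem?_eq_none (by simpa using hx)]
    simp [hx]

/-- relations which are c.e. relative to `X` in terms of initial segments -/
theorem rein_ini_iff {α : Type} [Primcodable α] {X : Set ℕ} {S : α → Prop}
    (hS : Oracle.REIn X S) :
    ∃ R : α × List Bool → Prop, REPred R ∧ ∀ a, S a ↔ ∃ k, R (a, ini X k) := by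
  obtain ⟨R, hR, h1⟩ := hS
  refine ⟨fun z => ∃ c : List ℕ × List ℕ, R z.1 c ∧ (∀ x ∈ c.1, z.2[x]? = some true) ∧
    ∀ x ∈ c.2, z.2[x]? = some false, ?_, fun a => ?_⟩
  · refine RE.ex (p := fun (z : α × List Bool) (c : List ℕ × List ℕ) => R z.1 c ∧
      (∀ x ∈ c.1, z.2[x]? = some true) ∧ ∀ x ∈ c.2, z.2[x]? = some false) ?_
    refine RE.and ?_ (RE.and ?_ ?_)
    · exact RE.comp hR (f := fun y : (α × List Bool) × (List ℕ × List ℕ) => (y.1.1, y.2))
        (by fun_prop)
    · refine RE.all_mem (p := fun (y : (α × List Bool) × (List ℕ × List ℕ)) (x : ℕ) =>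
        y.1.2[x]? = some true) (l := fun y => y.2.1) ?_ (by fun_prop)
      exact RE.eq (by fun_prop) (by fun_prop)
    · refine RE.all_mem (p := fun (y : (α × List Bool) × (List ℕ × List ℕ)) (x : ℕ) =>
        y.1.2[x]? = some false) (l := fun y => y.2.2) ?_ (by fun_prop)
      exact RE.eq (by fun_prop) (by fun_prop)
  · rw [h1]
    constructor
    · rintro ⟨c, h2, h3, h4⟩
      refine ⟨(c.1 ++ c.2).sum + 1, c, h2, fun x hx => ?_, fun x hx => ?_⟩
      · rw [ini_get]
        refine ⟨?_, by simp [h3 x hx]⟩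
        have := List.le_sum_of_mem (List.mem_append_left c.2 hx)
        omega
      · rw [ini_get]
        refine ⟨?_, by simp [h4 x hx]⟩
        have := List.le_sum_of_mem (List.mem_append_right c.1 hx)
        omega
    · rintro ⟨k, c, h2, h3, h4⟩
      refine ⟨c, h2, fun x hx => ?_, fun x hx => ?_⟩
      · have := (ini_get X k x true).1 (h3 x hx)
        simpa using this.2
      · have := (ini_get X k x false).1 (h4 x hx)
        simpa using this.2

theorem rein_ini (X : Set ℕ) : Oracle.REIn X fun z : ℕ × List Bool => ini X z.1 = z.2 := by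
  have h1 : Oracle.REIn X fun z : ℕ × List Bool => z.2.length = z.1 ∧ ∀ x < z.1,
      (z.2[x]? = some true ∧ x ∈ X) ∨ (z.2[x]? = some false ∧ x ∉ X) := by
    refine Oracle.REIn.and (Oracle.REIn.of_re (RE.eq (by fun_prop) (by fun_prop))) ?_
    refine Oracle.REIn.all_lt (S := fun (z : ℕ × List Bool) (x : ℕ) =>
      (z.2[x]? = some true ∧ x ∈ X) ∨ (z.2[x]? = some false ∧ x ∉ X)) ?_ (by fun_prop)
    refine Oracle.REIn.or (Oracle.REIn.and (Oracle.REIn.of_re
      (RE.eq (by fun_prop) (by fun_prop))) (Oracle.REIn.mem (by fun_prop)))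
      (Oracle.REIn.and (Oracle.REIn.of_re (RE.eq (by fun_prop) (by fun_prop)))
      (Oracle.REIn.not_mem (by fun_prop)))
  refine h1.of_eq fun z => ?_
  obtain ⟨n, σ⟩ := z
  simp only
  constructor
  · rintro ⟨h2, h3⟩
    apply List.ext_getElem?
    intro x
    by_cases hx : x < n
    · rcases h3 x hx with ⟨h4, h5⟩ | ⟨h4, h5⟩
      · rw [h4, ini_get]; exact ⟨hx, by simp [h5]⟩
      · rw [h4, ini_get]; exact ⟨hx, by simp [h5]⟩
    · rw [List.getElem?_eq_none (by rw [ini_length]; omega), List.getElem?_eq_none (by omega)]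
  · intro h2
    subst h2
    refine ⟨ini_length _ _, fun x hx => ?_⟩
    by_cases h3 : x ∈ X
    · exact Or.inl ⟨(ini_get _ _ _ _).2 ⟨hx, by simp [h3]⟩, h3⟩
    · exact Or.inr ⟨(ini_get _ _ _ _).2 ⟨hx, by simp [h3]⟩, h3⟩

/-- functions of an initial segment -/
theorem tot_ini (X : Set ℕ) {G : ℕ × List Bool → ℕ} (hG : Computable G) {k : ℕ → ℕ}
    (hk : Computable k) :
    Nat.RecursiveIn {chi X} fun z => Part.some (G (z, ini X (k z))) := by
  apply Oracle.recursiveIn_of_graph (f := fun z => G (z, ini X (k z)))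
  have h1 : Oracle.REIn X fun p : ℕ × ℕ => ∃ σ, ini X (k p.1) = σ ∧ G (p.1, σ) = p.2 := by
    refine Oracle.REIn.ex (S := fun (p : ℕ × ℕ) (σ : List Bool) =>
      ini X (k p.1) = σ ∧ G (p.1, σ) = p.2) ?_
    refine Oracle.REIn.and ?_ (Oracle.REIn.of_re (RE.eq ?_ (by fun_prop)))
    · exact (rein_ini X).comp (f := fun y : (ℕ × ℕ) × List Bool => (k y.1.1, y.2))
        (by fun_prop)
    · exact hG.comp (by fun_prop : Computable fun y : (ℕ × ℕ) × List Bool => (y.1.1, y.2))
  refine h1.of_eq fun p => ?_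
  constructor
  · rintro ⟨σ, rfl, h2⟩; exact h2
  · intro h2; exact ⟨_, rfl, h2⟩

/-- the universal partial computable function relative to `X` -/
noncomputable def J0 (X : Set ℕ) : ℕ →. ℕ := fun m =>
  (Nat.rfind fun s => Part.some (jst m s (ini X s)).isSome).bind fun s =>
    Part.some ((jst m s (ini X s)).getD 0)

theorem mem_J0 {X : Set ℕ} {m v : ℕ} : v ∈ J0 X m ↔ Jmp X m v := by
  unfold J0 Jmp
  rw [Part.mem_bind_iff]
  constructor
  · rintro ⟨s, h1, h2⟩
    rw [Nat.mem_rfind] at h1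
    obtain ⟨h1, h3⟩ := h1
    rw [Part.mem_some_iff] at h1 h2
    refine ⟨s, ?_, fun s' hs' => ?_⟩
    · obtain ⟨w, hw⟩ := Option.isSome_iff_exists.1 h1.symm
      rw [hw] at h2 ⊢
      rw [h2]; rfl
    · have := h3 hs'
      rw [Part.mem_some_iff] at this
      simpa using this.symm
  · rintro ⟨s, h1, h2⟩
    refine ⟨s, ?_, ?_⟩
    · rw [Nat.mem_rfind]
      refine ⟨?_, fun {s'} hs' => ?_⟩
      · rw [Part.mem_some_iff, h1]; rfl
      · rw [Part.mem_some_iff, h2 s' hs']; rfl
    · rw [Part.mem_some_iff, h1]; rfl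

theorem rec_J0 (X : Set ℕ) : Nat.RecursiveIn {chi X} (J0 X) := by
  have h1 : Nat.RecursiveIn {chi X} fun z => Part.some
      ((fun y : ℕ × List Bool => bif (jst y.1.unpair.1 y.1.unpair.2 y.2).isSome then 0 else 1)
        (z, ini X ((fun z : ℕ => z.unpair.2) z))) :=
    tot_ini X (G := fun y : ℕ × List Bool =>
      bif (jst y.1.unpair.1 y.1.unpair.2 y.2).isSome then 0 else 1)
      (by fun_prop) (k := fun z : ℕ => z.unpair.2) (by fun_prop)
  have h2 : Nat.RecursiveIn {chi X} fun z => Part.some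
      ((fun y : ℕ × List Bool => (jst y.1.unpair.1 y.1.unpair.2 y.2).getD 0)
        (z, ini X ((fun z : ℕ => z.unpair.2) z))) :=
    tot_ini X (G := fun y : ℕ × List Bool => (jst y.1.unpair.1 y.1.unpair.2 y.2).getD 0)
      (by fun_prop) (k := fun z : ℕ => z.unpair.2) (by fun_prop)
  have h3 := Nat.RecursiveIn.rfind h1
  have h4 : Nat.RecursiveIn {chi X} fun n : ℕ => Part.some n :=
    Oracle.TotIn.of_comp (A := X) (f := fun n => n) Computable.id
  have h5 := Nat.RecursiveIn.comp h2 (Nat.RecursiveIn.pair h4 h3)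
  refine Nat.RecursiveIn.of_eq h5 fun m => ?_
  unfold J0
  have e : (Nat.rfind fun n => (fun m : ℕ => decide (m = 0)) <$> (Part.some
      ((fun y : ℕ × List Bool => bif (jst y.1.unpair.1 y.1.unpair.2 y.2).isSome then 0 else 1)
        (Nat.pair m n, ini X ((fun z : ℕ => z.unpair.2) (Nat.pair m n)))) : Part ℕ)) =
      Nat.rfind fun s => Part.some (jst m s (ini X s)).isSome := by
    congr 1
    funext s
    simp only [Nat.unpair_pair, Part.map_eq_map, Part.map_some]
    congr 1
    cases (jst m s (ini X s)).isSome <;> rfl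
  rw [e]
  simp only [Part.bind_eq_bind, Seq.seq, Part.map_eq_map, Part.map_some, Part.bind_some]
  rw [Part.bind_map]
  congr 1
  funext s
  simp only [Nat.unpair_pair]

theorem code_of_Jmp {F : ℕ × List Bool →. ℕ} {c : Code}
    (hc : ∀ a, Code.eval c (encode a) = F a) {X : Set ℕ} {ν v : ℕ}
    (hj : Jmp X (Nat.pair (encode c) ν) v) : ∃ k, v ∈ F (ν, ini X k) := by
  obtain ⟨s, h1, _⟩ := hj
  refine ⟨s.unpair.1, ?_⟩
  unfold jst at h1
  rw [Nat.unpair_pair] at h1
  simp only [Denumerable.ofNat_encode] at h1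
  rw [ini_take, min_eq_left (Nat.unpair_left_le s)] at h1
  have h2 : v ∈ Code.eval c (encode (ν, ini X s.unpair.1)) :=
    Nat.Partrec.Code.evaln_sound h1
  rwa [hc] at h2

/-- universality -/
theorem univ_J0 {X : Set ℕ} {ψ : ℕ →. ℕ} (hψ : Nat.RecursiveIn {chi X} ψ) :
    ∃ c, ∀ n v, Jmp X (Nat.pair c n) v ↔ v ∈ ψ n := by
  obtain ⟨R, hR, h1⟩ := rein_ini_iff (Oracle.graph_of_recursiveIn hψ)
  have hR' : REPred fun x : (ℕ × List Bool) × ℕ => R ((x.1.1, x.2), x.1.2) :=
    RE.comp hR (f := fun x : (ℕ × List Bool) × ℕ => ((x.1.1, x.2), x.1.2)) (by fun_prop)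
  obtain ⟨F, hF, h2, h3⟩ := RE.uniformize (r := fun (a : ℕ × List Bool) (v : ℕ) =>
    R ((a.1, v), a.2)) hR'
  obtain ⟨c, hc⟩ := exists_code hF
  have h4 : ∀ n k v, v ∈ F (n, ini X k) → v ∈ ψ n := by
    intro n k v hv
    exact (h1 (n, v)).2 ⟨k, h3 _ _ hv⟩
  refine ⟨encode c, fun n v => ⟨fun hj => ?_, fun hv => ?_⟩⟩
  · obtain ⟨k, hk⟩ := code_of_Jmp hc hj
    exact h4 n k v hk
  · obtain ⟨k, hk⟩ := (h1 (n, v)).1 hv
    exact Jmp_of_code hc (k := k) ((h2 _).2 ⟨v, hk⟩) fun k' w hw =>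
      Part.mem_unique (h4 n k' w hw) hv

/-- uniformly c.e. sequences: the two definitions agree -/
theorem uce_of_dom {X : Set ℕ} {T : ℕ → Set ℕ} {ψ : ℕ →. ℕ} (hψ : Nat.RecursiveIn {chi X} ψ)
    (hT : ∀ n v, v ∈ T n ↔ (ψ (Nat.pair n v)).Dom) : UCE X T := by
  have h1 : Oracle.REIn X fun p : ℕ × ℕ => ∃ w, w ∈ ψ (Nat.pair p.1 p.2) := by
    refine Oracle.REIn.ex (S := fun (p : ℕ × ℕ) (w : ℕ) => w ∈ ψ (Nat.pair p.1 p.2)) ?_
    exact (Oracle.graph_of_recursiveIn hψ).comp
      (f := fun y : (ℕ × ℕ) × ℕ => (Nat.pair y.1.1 y.1.2, y.2)) (by fun_prop)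
  obtain ⟨R, hR, h2⟩ := rein_ini_iff h1
  refine ⟨fun p => R ((p.1, p.2.1), p.2.2), RE.comp hR
    (f := fun p : ℕ × ℕ × List Bool => ((p.1, p.2.1), p.2.2)) (by fun_prop), fun n v => ?_⟩
  rw [hT, Part.dom_iff_mem]
  exact h2 (n, v)

theorem dom_of_uce {X : Set ℕ} {T : ℕ → Set ℕ} (hT : UCE X T) :
    ∃ ψ : ℕ →. ℕ, Nat.RecursiveIn {chi X} ψ ∧ ∀ n v, v ∈ T n ↔ (ψ (Nat.pair n v)).Dom := by
  obtain ⟨R, hR, h1⟩ := hT
  obtain ⟨q, hq, h2⟩ := RE.re_iff.1 hR
  have hq' : Computable fun x : (ℕ × ℕ × List Bool) × ℕ => q x.1 x.2 := hq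
  have c1 : Computable fun y : ℕ × List Bool => y.1.unpair.1.unpair.1 := by fun_prop
  have c2 : Computable fun y : ℕ × List Bool => y.1.unpair.1.unpair.2 := by fun_prop
  have c3 : Computable fun y : ℕ × List Bool => y.1.unpair.2.unpair.2 := by fun_prop
  have c6 := Computable.pair (Computable.pair c1 (Computable.pair c2 Computable.snd)) c3
  have c4 : Computable fun y : ℕ × List Bool =>
      q (y.1.unpair.1.unpair.1, y.1.unpair.1.unpair.2, y.2) y.1.unpair.2.unpair.2 := by
    have c7 := Computable.comp hq' c6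
    exact c7
  have c5 : Computable fun y : ℕ × List Bool =>
      bif q (y.1.unpair.1.unpair.1, y.1.unpair.1.unpair.2, y.2) y.1.unpair.2.unpair.2
      then 0 else 1 := Computable.cond c4 (Computable.const 0) (Computable.const 1)
  have h3 := tot_ini X c5 (k := fun z : ℕ => z.unpair.2.unpair.1) (by fun_prop)
  have h4 : Nat.RecursiveIn {chi X} fun a => Nat.rfind fun s => Part.some
      (q (a.unpair.1, a.unpair.2, ini X s.unpair.1) s.unpair.2) := by
    refine Nat.RecursiveIn.of_eq (Nat.RecursiveIn.rfind h3) fun a => ?_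
    congr 1
    funext s
    simp only [Nat.unpair_pair, Part.map_eq_map, Part.map_some]
    congr 1
    cases q (a.unpair.1, a.unpair.2, ini X s.unpair.1) s.unpair.2 <;> rfl
  refine ⟨fun a => Nat.rfind fun s => Part.some
      (q (a.unpair.1, a.unpair.2, ini X s.unpair.1) s.unpair.2), h4, fun n v => ?_⟩
  rw [h1, Nat.rfind_dom]
  simp only [Nat.unpair_pair, Part.mem_some_iff, Part.some_dom, implies_true, and_true]
  constructor
  · rintro ⟨k, hk⟩
    obtain ⟨t, ht⟩ := (h2 _).1 hk
    refine ⟨Nat.pair k t, ?_⟩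
    rw [Nat.unpair_pair]
    exact ht.symm
  · rintro ⟨s, hs⟩
    have h5 : R (n, v, ini X s.unpair.1) := (h2 (n, v, ini X s.unpair.1)).2 ⟨s.unpair.2, hs.symm⟩
    exact ⟨s.unpair.1, h5⟩

/-- traces for a family of (partial) values -/
def TrB (G : ℕ → ℕ → Prop) (B : Set ℕ) : Prop :=
  ∀ h, IsOrder h → ∃ T : ℕ → Set ℕ, UCE B T ∧ (∀ n, (T n).Finite ∧ (T n).ncard ≤ h n) ∧
    ∀ n v, G n v → v ∈ T n

theorem sjt_iff (A B : Set ℕ) : SJT A B ↔ TrB (Jmp A) B := Iff.rfl

theorem le_findIdx (p : ℕ → Bool) (x : ℕ) :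
    (List.range x).findIdx p ≤ x ∧ (∀ j < (List.range x).findIdx p, p j = false) ∧
      ((List.range x).findIdx p < x → p ((List.range x).findIdx p) = true) := by
  have h0 : (List.range x).findIdx p ≤ x := by
    have := List.findIdx_le_length (xs := List.range x) (p := p)
    rwa [List.length_range] at this
  refine ⟨h0, fun j hj => ?_, fun hx => ?_⟩
  · have h2 := List.not_of_lt_findIdx (p := p) (xs := List.range x) (i := j) hj
    rw [List.getElem_range] at h2
    simpa using h2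
  · have hlt : (List.range x).findIdx p < (List.range x).length := by
      rwa [List.length_range]
    have h1 := List.findIdx_getElem (w := hlt)
    rwa [List.getElem_range] at h1

theorem TrB.comp {G G' : ℕ → ℕ → Prop} {B : Set ℕ} {p : ℕ → ℕ} (hp : Computable p)
    (hG : ∀ n v, G n v → G' (p n) v) (ht : TrB G' B) : TrB G B := by
  intro h ho
  let L : ℕ → ℕ := fun x => (List.range x).findIdx fun n => decide (x ≤ p n)
  have hL : ∀ x, L x ≤ x ∧ (∀ j < L x, p j < x) ∧ (L x < x → x ≤ p (L x)) := by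
    intro x
    obtain ⟨h1, h2, h3⟩ := le_findIdx (fun n => decide (x ≤ p n)) x
    refine ⟨h1, fun j hj => ?_, fun hx => ?_⟩
    · have := h2 j hj
      simpa using this
    · have := h3 hx
      simpa using this
  have hcL : Computable L := by
    refine cfindIdx (f := fun x : ℕ => List.range x) (by fun_prop) ?_
    unfold Computable₂
    exact cle Computable.fst (hp.comp Computable.snd)
  have hmono : Monotone L := by
    intro x y hxy
    by_contra hcon
    rw [not_le] at hcon
    have h1 := (hL x).1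
    have h2 := (hL x).2.1 (L y) hcon
    have h3 := (hL y).2.2 (by omega)
    omega
  have hord : IsOrder fun x => h (L x) := by
    refine ⟨ho.comp.comp hcL, fun x y hxy => ho.mono (hmono hxy), fun b => ?_, ?_⟩
    · obtain ⟨n, hn⟩ := ho.unb b
      refine ⟨((List.range (n + 1)).map p).sum + n + 1, ?_⟩
      have hlt : n < L (((List.range (n + 1)).map p).sum + n + 1) := by
        by_contra hcon
        rw [not_lt] at hcon
        have h3 := (hL (((List.range (n + 1)).map p).sum + n + 1)).2.2 (by omega)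
        have h4 : p (L (((List.range (n + 1)).map p).sum + n + 1)) ∈
            (List.range (n + 1)).map p :=
          List.mem_map_of_mem (List.mem_range.2 (by omega))
        have h5 := List.le_sum_of_mem h4
        omega
      exact hn.trans (ho.mono hlt.le)
    · exact lt_of_lt_of_le ho.pos (ho.mono (Nat.zero_le _))
  obtain ⟨T, ⟨R, hR1, hR2⟩, hT2, hT3⟩ := ht _ hord
  have hle : ∀ n, h (L (p n)) ≤ h n := by
    intro n
    apply ho.mono
    by_contra hcon
    rw [not_le] at hcon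
    have := (hL (p n)).2.1 n hcon
    omega
  refine ⟨fun n => T (p n), ⟨fun z => R (p z.1, z.2.1, z.2.2), ?_, fun n v => hR2 (p n) v⟩,
    fun n => ⟨(hT2 (p n)).1, (hT2 (p n)).2.trans (hle n)⟩, fun n v hv => hT3 _ _ (hG n v hv)⟩
  exact RE.comp hR1 (f := fun z : ℕ × ℕ × List Bool => (p z.1, z.2.1, z.2.2))
    (Computable.pair (hp.comp Computable.fst) (by fun_prop))

end Pool.Agent.U35.SJ
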